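import Mathlib

/-!
# IWA / Defs

MP_05b873_al, generic members of one parameter families of `p`-adic analytic chains (helper47).

Definitions used by all modules: uniform towers, their finite level group algebras, the weight
filtration, symbols, the completed group algebra, ranks of matrices over finite dimensional
algebras.
-/

namespace Pool.Agent.IWA

open Module

/-- A uniform tower: a group `P` with a decreasing sequence of normal subgroups `L i` of index
`p ^ (i * D)`, with generators `x b` (`b` in an index set with `D` elements, listed in `ord`). -/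
structure UTower (p e : ℕ) (ι : Type) [Fintype ι] (P : Type) [Group P] where
  L : ℕ → Subgroup P
  x : ι → P
  ord : List ι
  nodup : ord.Nodup
  complete : ∀ b, b ∈ ord
  normal : ∀ i, (L i).Normal
  L_zero : L 0 = ⊤
  anti : Antitone L
  index : ∀ J, (L J).index = p ^ (J * Fintype.card ι)
  gen : ∀ i, ∀ g ∈ L i, ∃ n : ι → ℕ,
    ((ord.map fun b => x b ^ (p ^ i * n b)).prod)⁻¹ * g ∈ L (i + 1)
  comm : ∀ i j, ∀ g ∈ L i, ∀ h ∈ L j, g * h * g⁻¹ * h⁻¹ ∈ L (i + j + e)
  pow : ∀ i b, x b ^ p ^ i ∈ L i
  he : 3 ≤ p ^ e
  pos : 0 < Fintype.card ι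

variable {p e : ℕ} {ι : Type} [Fintype ι] {P : Type} [Group P]

namespace UTower

instance (T : UTower p e ι P) (J : ℕ) : (T.L J).Normal := T.normal J

/-- the group algebra of level `J` -/
abbrev R (T : UTower p e ι P) (J : ℕ) : Type := MonoidAlgebra (ZMod p) (P ⧸ T.L J)

/-- group elements in the group algebra of level `J` -/
noncomputable def el (T : UTower p e ι P) (J : ℕ) : P →* T.R J :=
  (MonoidAlgebra.of (ZMod p) (P ⧸ T.L J)).comp (QuotientGroup.mk' (T.L J))

/-- products of elements `g - 1` of total weight at least `v`; the element `g - 1` with `g ∈ L i`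
has the weight `p ^ i` -/
def gens (T : UTower p e ι P) (J v : ℕ) : Set (T.R J) :=
  {a | ∃ l : List (ℕ × P), (∀ s ∈ l, s.2 ∈ T.L s.1) ∧ v ≤ (l.map fun s => p ^ s.1).sum ∧
    a = (l.map fun s => T.el J s.2 - 1).prod}

/-- the weight filtration -/
noncomputable def F (T : UTower p e ι P) (J v : ℕ) : Submodule (ZMod p) (T.R J) :=
  Submodule.span (ZMod p) (T.gens J v)

/-- ordered monomials in the elements `x b - 1` -/
noncomputable def mon (T : UTower p e ι P) (J : ℕ) (α : ι →₀ ℕ) : T.R J :=
  (T.ord.map fun b => (T.el J (T.x b) - 1) ^ α b).prod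

/-- the linear map sending a commutative monomial to the ordered monomial -/
noncomputable def Phi (T : UTower p e ι P) (J : ℕ) : MvPolynomial ι (ZMod p) →ₗ[ZMod p] T.R J :=
  (MvPolynomial.basisMonomials ι (ZMod p)).constr (ZMod p) (T.mon J)

/-- `f` is a symbol of degree `v` of the element `a` of level `J` -/
def Sym (T : UTower p e ι P) (J v : ℕ) (f : MvPolynomial ι (ZMod p)) (a : T.R J) : Prop :=
  f.IsHomogeneous v ∧ a - T.Phi J f ∈ T.F J (v + 1)

/-- the transition homomorphisms -/
noncomputable def tr (T : UTower p e ι P) {J J' : ℕ} (h : J ≤ J') : T.R J' →+* T.R J :=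
  MonoidAlgebra.mapDomainRingHom (ZMod p)
    (QuotientGroup.map (T.L J') (T.L J) (MonoidHom.id P) (T.anti h))

/-- the completed group algebra -/
noncomputable def Hat (T : UTower p e ι P) : Subring (∀ J, T.R J) where
  carrier := {a | ∀ J, T.tr (Nat.le_succ J) (a (J + 1)) = a J}
  mul_mem' := by
    intro a b ha hb J
    rw [Pi.mul_apply, Pi.mul_apply, map_mul, ha J, hb J]
  one_mem' := by
    intro J
    rw [Pi.one_apply, Pi.one_apply, map_one]
  add_mem' := by
    intro a b ha hb J
    rw [Pi.add_apply, Pi.add_apply, map_add, ha J, hb J]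
  zero_mem' := by
    intro J
    rw [Pi.zero_apply, Pi.zero_apply, map_zero]
  neg_mem' := by
    intro a ha J
    rw [Pi.neg_apply, Pi.neg_apply, map_neg, ha J]

/-- the projection of the completed group algebra to the level `J` -/
noncomputable def proj (T : UTower p e ι P) (J : ℕ) : T.Hat →+* T.R J :=
  (Pi.evalRingHom (fun J => T.R J) J).comp T.Hat.subtype

end UTower

/-- multiplication by a matrix over an algebra, as a linear map over the scalars -/
def mvK (K : Type*) [Field K] {R : Type*} [Ring R] [Algebra K R] {m n : Type*} [Fintype n]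
    (A : Matrix m n R) : (n → R) →ₗ[K] (m → R) where
  toFun v := A.mulVec v
  map_add' := A.mulVec_add
  map_smul' c v := by
    simp only [RingHom.id_apply]
    exact A.mulVec_smul c v

/-- the dimension over the scalars of the image of a matrix over an algebra -/
noncomputable def rkR (K : Type*) [Field K] {R : Type*} [Ring R] [Algebra K R] {m n : Type*}
    [Fintype n] (A : Matrix m n R) : ℕ :=
  finrank K (LinearMap.range (mvK K A))

end Pool.Agent.IWA
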