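import Mathlib
import Pool.Agent.IWA.Defs
import Pool.Agent.CIR.Seqs

/-!
# IWA / Bridge : ranks over the group algebra of a finite group and `nrk` (MP_05b873_al)

Paper proof. `MonoidAlgebra K Q` is the space of functions `Q → K` (finite group `Q`), and the
left multiplication by `φ g` becomes the operator `f ↦ (x ↦ f ((φ g)⁻¹ x))`, that is the operator
`perm` of `Pool/Agent/CIR/Perm.lean` for the action of `G` on `Q` by left multiplication via `φ`
(a `MulAction G Q`, for instance `MulAction.compHom Q φ`). So `rkR` of the mapped matrix is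
`rkX Q A`. As a `G`-set, `Q` is the disjoint union of `s = |Q| / [G : ker φ]` copies of
`G ⧸ ker φ`: choose representatives `r` of the right cosets `φ(G) r` and map
`(g ker φ, r) ↦ φ g * r` (an equivalence `(G ⧸ ker φ) × Fin s ≃ Q`). Under this equivalence the space
`Q → K` is the product of `s` copies of `(G ⧸ ker φ) → K`, compatible with the operators `perm`,
`permAlg` and `bl`; so the rank is `s * rkX (G ⧸ ker φ) A`. Divide by `|Q| = s [G : ker φ]`.
(Definitions: `nrk` in `Pool/Agent/CIR/Seqs.lean`, `rkX`, `permAlg` in `Pool/Agent/CIR/Conv.lean`,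
`bl` in the files imported there.)
-/

namespace Pool.Agent.IWA

open Pool.Agent.CIR Module

section

variable {K : Type*} [Field K] {G Q : Type*} [Group G] [Group Q]

/-- the group `Q` as a disjoint union of copies of the quotient of `G` by the kernel -/
noncomputable def bridgeFun (φ : G →* Q) (x : G ⧸ φ.ker) (c : Q ⧸ φ.range) : Q :=
  QuotientGroup.kerLift φ x * (Quotient.out c)⁻¹

theorem bridgeFun_bijective (φ : G →* Q) :
    Function.Bijective (fun z : (G ⧸ φ.ker) × (Q ⧸ φ.range) => bridgeFun φ z.1 z.2) := by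
  constructor
  · rintro ⟨x, c⟩ ⟨x', c'⟩ h
    dsimp only [bridgeFun] at h
    have hc : c = c' := by
      rw [← QuotientGroup.out_eq' c, ← QuotientGroup.out_eq' c', QuotientGroup.eq]
      induction x using QuotientGroup.induction_on with
      | H g =>
        induction x' using QuotientGroup.induction_on with
        | H g' =>
          rw [QuotientGroup.kerLift_mk, QuotientGroup.kerLift_mk] at h
          refine ⟨g⁻¹ * g', ?_⟩
          rw [map_mul, map_inv, inv_mul_eq_iff_eq_mul, ← mul_assoc, h]
          group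
    subst hc
    have h2 := mul_right_cancel h
    rw [QuotientGroup.kerLift_injective φ h2]
  · intro y
    obtain ⟨⟨_, g, rfl⟩, hg⟩ := QuotientGroup.mk_out_eq_mul φ.range y⁻¹
    refine ⟨⟨(g : G ⧸ φ.ker), ((y⁻¹ : Q) : Q ⧸ φ.range)⟩, ?_⟩
    dsimp only [bridgeFun]
    rw [QuotientGroup.kerLift_mk, hg]
    group

theorem bridgeFun_smul (φ : G →* Q) (g : G) (x : G ⧸ φ.ker) (c : Q ⧸ φ.range) :
    bridgeFun φ (g • x) c = φ g * bridgeFun φ x c := by
  induction x using QuotientGroup.induction_on with
  | H h =>
    unfold bridgeFun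
    have h1 : g • (h : G ⧸ φ.ker) = ((g * h : G) : G ⧸ φ.ker) := rfl
    rw [h1, QuotientGroup.kerLift_mk, QuotientGroup.kerLift_mk, map_mul, mul_assoc]

/-- the functions on `Q` as families of functions on the quotient of `G` by the kernel -/
noncomputable def bridgeLin (K : Type*) [Field K] (φ : G →* Q) :
    MonoidAlgebra K Q →ₗ[K] ((Q ⧸ φ.range) → (G ⧸ φ.ker) → K) where
  toFun f := fun c x => f.coeff (bridgeFun φ x c)
  map_add' f f' := by
    funext c x
    rfl
  map_smul' a f := by
    funext c x
    rfl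

theorem bridgeLin_apply (φ : G →* Q) (f : MonoidAlgebra K Q) (c : Q ⧸ φ.range)
    (x : G ⧸ φ.ker) : bridgeLin K φ f c x = f.coeff (bridgeFun φ x c) := rfl

theorem bridgeLin_bijective [Finite Q] (φ : G →* Q) : Function.Bijective (bridgeLin K φ) := by
  classical
  constructor
  · intro f f' h
    apply MonoidAlgebra.ext
    apply Finsupp.ext
    intro y
    obtain ⟨⟨x, c⟩, hy⟩ := (bridgeFun_bijective φ).2 y
    rw [← hy]
    exact congrFun (congrFun h c) x
  · intro F
    let e := Equiv.ofBijective _ (bridgeFun_bijective φ)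
    refine ⟨MonoidAlgebra.ofCoeff (Finsupp.equivFunOnFinite.symm
      (fun y => F (e.symm y).2 (e.symm y).1)), ?_⟩
    funext c x
    rw [bridgeLin_apply]
    have h1 : bridgeFun φ x c = e (x, c) := rfl
    rw [h1]
    change F (e.symm (e (x, c))).2 (e.symm (e (x, c))).1 = F c x
    rw [Equiv.symm_apply_apply]

theorem bridgeLin_mul (φ : G →* Q) (a : MonoidAlgebra K G) (f : MonoidAlgebra K Q)
    (c : Q ⧸ φ.range) :
    bridgeLin K φ (MonoidAlgebra.mapDomainRingHom K φ a * f) c =
      permAlg K (G ⧸ φ.ker) a (bridgeLin K φ f c) := by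
  induction a using MonoidAlgebra.induction_linear with
  | zero =>
    rw [map_zero, zero_mul, map_zero, map_zero]
    rfl
  | add a b ha hb =>
    rw [map_add, add_mul, map_add, map_add]
    rw [Pi.add_apply, ha, hb]
    rfl
  | single g r =>
    rw [permAlg_single]
    funext x
    rw [bridgeLin_apply]
    have h1 : MonoidAlgebra.mapDomainRingHom K φ (MonoidAlgebra.single g r) =
        MonoidAlgebra.single (φ g) r := by
      simp
    rw [h1, MonoidAlgebra.coeff_single_mul_eq_mul_coeff ((φ g)⁻¹ * bridgeFun φ x c)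
      (fun m' _ => by rw [eq_inv_mul_iff_mul_eq])]
    have h2 : (φ g)⁻¹ * bridgeFun φ x c = bridgeFun φ (g⁻¹ • x) c := by
      rw [bridgeFun_smul, map_inv]
    rw [h2]
    rfl

/-- ranks of products of copies of a linear map -/
theorem bridge_pi {S V W : Type*} [Fintype S] [AddCommGroup V] [Module K V] [AddCommGroup W]
    [Module K W] [FiniteDimensional K W] (B : V →ₗ[K] W) (P : (S → V) →ₗ[K] (S → W))
    (hP : ∀ v c, P v c = B (v c)) :
    finrank K (LinearMap.range P) = Fintype.card S * finrank K (LinearMap.range B) := by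
  let L : (S → LinearMap.range B) →ₗ[K] (S → W) :=
    { toFun := fun w c => (w c : W)
      map_add' := fun _ _ => rfl
      map_smul' := fun _ _ => rfl }
  have hL : Function.Injective L := by
    intro w w' h
    funext c
    exact Subtype.ext (congrFun h c)
  have hr : LinearMap.range P = LinearMap.range L := by
    apply le_antisymm
    · rintro _ ⟨v, rfl⟩
      refine ⟨fun c => ⟨B (v c), ⟨v c, rfl⟩⟩, ?_⟩
      funext c
      exact (hP v c).symm
    · rintro _ ⟨w, rfl⟩
      choose v hv using fun c => (w c).2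
      refine ⟨v, ?_⟩
      funext c
      rw [hP, hv]
      rfl
  rw [hr, LinearMap.finrank_range_of_inj hL, Module.finrank_pi_fintype]
  simp

theorem rkR_map_eq [Finite Q] (φ : G →* Q) {m n : ℕ}
    (A : Matrix (Fin m) (Fin n) (MonoidAlgebra K G)) :
    rkR K (A.map (MonoidAlgebra.mapDomainRingHom K φ)) =
      Nat.card (Q ⧸ φ.range) * rkX (G ⧸ φ.ker) A := by
  classical
  have : Fintype (Q ⧸ φ.range) := Fintype.ofFinite _
  have : Finite (G ⧸ φ.ker) := Finite.of_injective _ (QuotientGroup.kerLift_injective φ)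
  let Ψ := LinearEquiv.ofBijective (bridgeLin K φ) (bridgeLin_bijective φ)
  have hΨ : ∀ f, Ψ f = bridgeLin K φ f := fun _ => rfl
  let E : ∀ k : ℕ, (Fin k → MonoidAlgebra K Q) ≃ₗ[K]
      ((Q ⧸ φ.range) → (Fin k → (G ⧸ φ.ker) → K)) := fun k =>
    { toFun := fun v c j => Ψ (v j) c
      map_add' := fun v w => by
        funext c j
        rw [Pi.add_apply, map_add]
        rfl
      map_smul' := fun a v => by
        funext c j
        rw [Pi.smul_apply, map_smul]
        rfl
      invFun := fun w j => Ψ.symm (fun c => w c j)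
      left_inv := fun v => by
        funext j
        exact Ψ.symm_apply_apply (v j)
      right_inv := fun w => by
        funext c j
        have := Ψ.apply_symm_apply (fun c => w c j)
        exact congrFun this c }
  let B := bl (A.map (permAlg K (G ⧸ φ.ker)))
  let P : ((Q ⧸ φ.range) → (Fin n → (G ⧸ φ.ker) → K)) →ₗ[K]
      ((Q ⧸ φ.range) → (Fin m → (G ⧸ φ.ker) → K)) :=
    { toFun := fun v c => B (v c)
      map_add' := fun v w => by
        funext c
        exact map_add B _ _
      map_smul' := fun a v => by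
        funext c
        exact map_smul B a _ }
  have hcomm : (E m).toLinearMap ∘ₗ mvK K (A.map (MonoidAlgebra.mapDomainRingHom K φ)) =
      P ∘ₗ (E n).toLinearMap := by
    apply LinearMap.ext
    intro v
    funext c i
    change Ψ ((A.map (MonoidAlgebra.mapDomainRingHom K φ)).mulVec v i) c =
      B (fun j => Ψ (v j) c) i
    rw [show B (fun j => Ψ (v j) c) i = ∑ j, (A.map (permAlg K (G ⧸ φ.ker))) i j (Ψ (v j) c) from
      bl_apply _ _ _]
    simp only [Matrix.mulVec, dotProduct, Matrix.map_apply]
    rw [map_sum, Finset.sum_apply]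
    refine Finset.sum_congr rfl fun j _ => ?_
    rw [hΨ, hΨ]
    exact bridgeLin_mul φ (A i j) (v j) c
  have h1 : finrank K (LinearMap.range (mvK K (A.map (MonoidAlgebra.mapDomainRingHom K φ)))) =
      finrank K (LinearMap.range P) := by
    have h2 : LinearMap.range P = (LinearMap.range
        (mvK K (A.map (MonoidAlgebra.mapDomainRingHom K φ)))).map (E m).toLinearMap := by
      rw [← LinearMap.range_comp, hcomm, LinearMap.range_comp, LinearEquiv.range,
        Submodule.map_top]
    rw [h2]
    exact (LinearEquiv.finrank_map_eq (E m) _).symm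
  unfold rkR rkX rn
  rw [h1, bridge_pi B P (fun _ _ => rfl), Nat.card_eq_fintype_card]

end

theorem rkR_div_card_eq_nrk {K : Type*} [Field K] {G Q : Type*} [Group G] [Group Q] [Finite Q]
    (φ : G →* Q) {m n : ℕ} (A : Matrix (Fin m) (Fin n) (MonoidAlgebra K G)) :
    (rkR K (A.map (MonoidAlgebra.mapDomainRingHom K φ)) : ℝ) / Nat.card Q = nrk A φ.ker := by
  have hQ : Nat.card Q = Nat.card (Q ⧸ φ.range) * Nat.card (G ⧸ φ.ker) := by
    rw [← Nat.card_congr (Equiv.ofBijective _ (bridgeFun_bijective φ)), Nat.card_prod, mul_comm]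
  have hpos : (Nat.card (Q ⧸ φ.range) : ℝ) ≠ 0 := by
    have : Nat.card (Q ⧸ φ.range) ≠ 0 := Nat.card_pos.ne'
    exact_mod_cast this
  rw [rkR_map_eq, hQ]
  unfold nrk
  rw [Subgroup.index_eq_card, Nat.cast_mul, Nat.cast_mul, mul_div_mul_left _ _ hpos]

end Pool.Agent.IWA
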