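import Mathlib

/-!
# IWA / Cert : rank certificates over a domain with the strong rank condition (MP_05b873_al)

Paper proof. Let `a_1, ..., a_m ∈ R^n` be the rows of `A` (left module). Let `S` be a maximal set of
indices such that the rows `a_j`, `j ∈ S`, are left linearly independent, and let `T ⊆ {1..n}` be
maximal such that the rows `a_j` (`j ∈ S`) together with the standard basis vectors `e_l` (`l ∈ T`)
are linearly independent. Put `r = |S|`.

(i) For `j ∉ S` the family `S ∪ {j}` is dependent; the coefficient `δ' j` of `a_j` in a nontrivial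
relation is not zero since `S` is independent. For `j ∈ S` put `δ' j = 1`. This gives
`diagonal δ' * A = C' * A'` with `A'` the matrix of the rows in `S`.

(ii) For each `l`, `e_l` has a nonzero multiple `δ l • e_l` in the span of the rows in `S` and the
`e_t`, `t ∈ T` (for `l ∈ T` take `δ l = 1`, otherwise by maximality as above). This gives
`C * fromRows A E = diagonal δ`, with `E` the matrix of the rows `e_t`, `t ∈ T` (only rows of `A`
with index in `S` are used).

(iii) `|S| + |T| = n`: the family `S ∪ T` is linearly independent in `R^n`, so `|S| + |T| ≤ n` by the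
strong rank condition (`linearIndependent_fin... card_le`, `LinearIndependent.fintype_card_le` or
`card_le_of_injective`), and the `n` elements `δ l • e_l` are linearly independent (domain) and lie
in a free module of rank `|S| + |T|` (the span of an independent family), so `n ≤ |S| + |T|`.
-/

namespace Pool.Agent.IWA

open Matrix

/-- Maximal independent subfamily of a finite family, with explicit coefficients. -/
theorem Cert_max {R M : Type*} [Ring R] [AddCommGroup M] [Module R M]
    {m : ℕ} (v : Fin m → M) :
    ∃ S : Finset (Fin m), (∀ c : Fin m → R, (∀ j, j ∉ S → c j = 0) → ∑ j, c j • v j = 0 → c = 0) ∧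
      ∀ j, j ∉ S → ∃ a : R, a ≠ 0 ∧ ∃ c : Fin m → R, (∀ i, i ∉ S → c i = 0) ∧
        a • v j = ∑ i, c i • v i := by
  classical
  obtain ⟨S, hS, hSm⟩ := exists_maximal_linearIndepOn R v
  refine ⟨S.toFinset, ?_, ?_⟩
  · intro c hc h0
    have h1 : ∀ i : S, c i = 0 := by
      have h2 := (Fintype.linearIndependent_iff.mp hS) (fun i : S => c i)
      apply h2
      rw [← h0, ← Finset.sum_subset (Finset.subset_univ S.toFinset)]
      · rw [← Finset.sum_coe_sort S.toFinset]
        exact (Fintype.sum_equiv (Equiv.subtypeEquivRight (by simp)) _ _ (fun x => rfl))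
      · intro x _ hx
        rw [hc x hx, zero_smul]
    funext i
    by_cases hi : i ∈ S
    · exact h1 ⟨i, hi⟩
    · exact hc i (by simpa using hi)
  · intro j hj
    obtain ⟨a, ha, hspan⟩ := hSm j (by simpa using hj)
    refine ⟨a, ha, ?_⟩
    rw [Set.image_eq_range, Submodule.mem_span_range_iff_exists_fun] at hspan
    obtain ⟨c, hc⟩ := hspan
    refine ⟨fun i => if h : i ∈ S then c ⟨i, h⟩ else 0, ?_, ?_⟩
    · intro i hi
      have hi' : i ∉ S := by simpa using hi
      simp [hi']
    · rw [← hc, ← Finset.sum_subset (Finset.subset_univ S.toFinset)]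
      · rw [← Finset.sum_coe_sort S.toFinset]
        refine (Fintype.sum_equiv (Equiv.subtypeEquivRight (by simp)) _ _ (fun x => ?_))
        have hx : (x : Fin m) ∈ S := x.2
        simp [Equiv.subtypeEquivRight, hx]
      · intro x _ hx
        have hx' : x ∉ S := by simpa using hx
        simp [hx']

theorem exists_cert {R : Type*} [Ring R] [Nontrivial R] [NoZeroDivisors R] [StrongRankCondition R]
    {m n : ℕ} (A : Matrix (Fin m) (Fin n) R) :
    ∃ r : ℕ, r ≤ n ∧
      (∃ (E : Matrix (Fin (n - r)) (Fin n) R) (C : Matrix (Fin n) (Fin m ⊕ Fin (n - r)) R)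
        (δ : Fin n → R), (∀ l, δ l ≠ 0) ∧ C * Matrix.fromRows A E = Matrix.diagonal δ) ∧
      (∃ (A' : Matrix (Fin r) (Fin n) R) (C' : Matrix (Fin m) (Fin r) R) (δ' : Fin m → R),
        (∀ j, δ' j ≠ 0) ∧ Matrix.diagonal δ' * A = C' * A') := by
  classical
  obtain ⟨S, hS, hSm⟩ := Cert_max (R := R) (fun j : Fin m => (A j : Fin n → R))
  let W : Submodule R (Fin n → R) := Submodule.span R (Set.range (fun s : S => A s))
  obtain ⟨T, hT, hTm⟩ := Cert_max (R := R) (fun l : Fin n => W.mkQ (Pi.single l (1 : R)))
  -- elements of W
  have hW : ∀ x ∈ W, ∃ c : Fin m → R, (∀ i, i ∉ S → c i = 0) ∧ x = ∑ i, c i • A i := by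
    intro x hx
    rw [Submodule.mem_span_range_iff_exists_fun] at hx
    obtain ⟨c, hc⟩ := hx
    refine ⟨fun i => if h : i ∈ S then c ⟨i, h⟩ else 0, ?_, ?_⟩
    · intro i hi
      simp [hi]
    · rw [← hc, ← Finset.sum_subset (Finset.subset_univ S)]
      · rw [← Finset.sum_coe_sort S]
        refine Finset.sum_congr rfl (fun x _ => ?_)
        simp
      · intro x _ hx
        simp [hx]
  have hWm : ∀ c : Fin m → R, (∀ i, i ∉ S → c i = 0) → ∑ i, c i • A i ∈ W := by
    intro c hc
    refine Submodule.sum_mem _ (fun i _ => ?_)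
    by_cases hi : i ∈ S
    · exact Submodule.smul_mem _ _ (Submodule.subset_span ⟨⟨i, hi⟩, rfl⟩)
    · rw [hc i hi, zero_smul]
      exact Submodule.zero_mem _
  -- multiples of the standard basis vectors
  have hdelta : ∀ l : Fin n, ∃ a : R, a ≠ 0 ∧ ∃ c : Fin m → R, ∃ d : Fin n → R,
      (∀ i, i ∉ T → d i = 0) ∧ (∀ i, i ∉ S → c i = 0) ∧
      a • (Pi.single l (1 : R) : Fin n → R) =
        ∑ i, c i • A i + ∑ i, d i • (Pi.single i (1 : R) : Fin n → R) := by
    intro l
    by_cases hl : l ∈ T
    · refine ⟨1, one_ne_zero, 0, Pi.single l 1, ?_, ?_, ?_⟩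
      · intro i hi
        have : i ≠ l := fun h => hi (h ▸ hl)
        simp [this]
      · intro i _
        rfl
      · simp [Pi.single_apply, ite_smul]
    · obtain ⟨a, ha, d, hd, hdl⟩ := hTm l hl
      have hmem : a • (Pi.single l (1 : R) : Fin n → R) -
          ∑ i, d i • (Pi.single i (1 : R) : Fin n → R) ∈ W := by
        rw [← Submodule.Quotient.mk_eq_zero, ← Submodule.mkQ_apply, map_sub, map_smul, hdl, map_sum]
        simp
      obtain ⟨c, hc, hcs⟩ := hW _ hmem
      refine ⟨a, ha, c, d, hd, hc, ?_⟩
      rw [← hcs]
      abel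
  -- independence
  have hind : ∀ c : Fin m → R, ∀ d : Fin n → R, (∀ i, i ∉ S → c i = 0) → (∀ i, i ∉ T → d i = 0) →
      ∑ i, c i • A i + ∑ i, d i • (Pi.single i (1 : R) : Fin n → R) = 0 → c = 0 ∧ d = 0 := by
    intro c d hc hd h0
    have h1 : ∑ i, d i • W.mkQ (Pi.single i (1 : R)) = 0 := by
      have h2 := congrArg W.mkQ h0
      rw [map_add, map_zero, Submodule.mkQ_apply, (Submodule.Quotient.mk_eq_zero W).mpr (hWm c hc),
        zero_add, map_sum] at h2
      simpa using h2
    have hd0 : d = 0 := hT d hd h1
    refine ⟨?_, hd0⟩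
    subst hd0
    apply hS c hc
    simpa using h0
  choose δ hδ c d hd hc hrel using hdelta
  -- the cardinality
  have hcard1 : Fintype.card (S ⊕ T) ≤ Fintype.card (Fin n) := by
    have hli : LinearIndependent R (Sum.elim (fun s : S => A s)
        (fun t : T => (Pi.single (t : Fin n) (1 : R) : Fin n → R))) := by
      rw [Fintype.linearIndependent_iff]
      intro g hg
      rw [Fintype.sum_sum_type] at hg
      have h3 := hind (fun i => if h : i ∈ S then g (Sum.inl ⟨i, h⟩) else 0)
        (fun i => if h : i ∈ T then g (Sum.inr ⟨i, h⟩) else 0)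
        (by intro i hi; simp [hi]) (by intro i hi; simp [hi]) (by
          rw [← hg]
          congr 1
          · rw [← Finset.sum_subset (Finset.subset_univ S)]
            · rw [← Finset.sum_coe_sort S]
              refine Finset.sum_congr rfl (fun x _ => ?_)
              simp
            · intro x _ hx
              simp [hx]
          · rw [← Finset.sum_subset (Finset.subset_univ T)]
            · rw [← Finset.sum_coe_sort T]
              refine Finset.sum_congr rfl (fun x _ => ?_)
              simp
            · intro x _ hx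
              simp [hx])
      intro i
      rcases i with i | i
      · have := congrFun h3.1 i
        simpa using this
      · have := congrFun h3.2 i
        simpa using this
    exact card_le_of_injective R (Fintype.linearCombination R _)
      (linearIndependent_iff_injective_fintypeLinearCombination.mp hli)
  have hcard2 : Fintype.card (Fin n) ≤ Fintype.card (S ⊕ T) := by
    let M : Matrix (Fin n) (S ⊕ T) R := fun l => Sum.elim (fun s => c l s) (fun t => d l t)
    let P : Matrix (S ⊕ T) (Fin n) R := Sum.elim (fun s => A s)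
      (fun t => (Pi.single (t : Fin n) (1 : R) : Fin n → R))
    have hMP : M * P = Matrix.diagonal δ := by
      ext l i
      have h4 := congrFun (hrel l) i
      rw [Matrix.mul_apply, Fintype.sum_sum_type]
      simp only [M, P, Sum.elim_inl, Sum.elim_inr]
      have h5 : ∑ x : S, c l x * A x i = ∑ x, c l x * A x i := by
        rw [← Finset.sum_subset (Finset.subset_univ S), ← Finset.sum_coe_sort S]
        intro x _ hx
        rw [hc l x hx, zero_mul]
      have h6 : ∑ x : T, d l x * (Pi.single (x : Fin n) (1 : R) : Fin n → R) i =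
          ∑ x, d l x * (Pi.single (x : Fin n) (1 : R) : Fin n → R) i := by
        rw [← Finset.sum_subset (Finset.subset_univ T), ← Finset.sum_coe_sort T]
        intro x _ hx
        rw [hd l x hx, zero_mul]
      rw [h5, h6]
      simp only [Pi.smul_apply, Pi.add_apply, Finset.sum_apply, smul_eq_mul] at h4
      rw [← h4, Matrix.diagonal_apply, Pi.single_apply]
      by_cases hli : l = i
      · subst hli
        simp
      · have : i ≠ l := fun h => hli h.symm
        simp [hli, this]
    refine card_le_of_injective R (Matrix.vecMulLinear M) ?_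
    intro x y hxy
    have h7 : x ᵥ* M = y ᵥ* M := hxy
    have h8 : x ᵥ* Matrix.diagonal δ = y ᵥ* Matrix.diagonal δ := by
      rw [← hMP, ← Matrix.vecMul_vecMul, ← Matrix.vecMul_vecMul, h7]
    funext i
    have h9 := congrFun h8 i
    rw [Matrix.vecMul_diagonal, Matrix.vecMul_diagonal] at h9
    exact mul_right_cancel₀ (hδ i) h9
  have hcard : S.card + T.card = n := by
    have := le_antisymm hcard1 hcard2
    simpa using this
  refine ⟨S.card, by omega, ?_, ?_⟩
  · have hTc : Fintype.card T = n - S.card := by
      rw [Fintype.card_coe]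
      omega
    let eT : T ≃ Fin (n - S.card) := Fintype.equivFinOfCardEq hTc
    refine ⟨fun k => Pi.single (eT.symm k : Fin n) 1,
      fun l => Sum.elim (fun j => c l j) (fun k => d l (eT.symm k)), δ, hδ, ?_⟩
    ext l i
    have h4 := congrFun (hrel l) i
    rw [Matrix.mul_apply, Fintype.sum_sum_type]
    simp only [Sum.elim_inl, Sum.elim_inr, Matrix.fromRows_apply_inl, Matrix.fromRows_apply_inr]
    have h6 : ∑ x : Fin (n - S.card), d l (eT.symm x) *
        (Pi.single (eT.symm x : Fin n) (1 : R) : Fin n → R) i =
        ∑ x, d l x * (Pi.single (x : Fin n) (1 : R) : Fin n → R) i := by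
      rw [← Finset.sum_subset (Finset.subset_univ T), ← Finset.sum_coe_sort T]
      · exact (Fintype.sum_equiv eT.symm _ _ (fun x => rfl))
      · intro x _ hx
        rw [hd l x hx, zero_mul]
    rw [h6]
    simp only [Pi.smul_apply, Pi.add_apply, Finset.sum_apply, smul_eq_mul] at h4
    rw [← h4, Matrix.diagonal_apply, Pi.single_apply]
    by_cases hli : l = i
    · subst hli
      simp
    · have : i ≠ l := fun h => hli h.symm
      simp [hli, this]
  · let eS : S ≃ Fin S.card := Fintype.equivFinOfCardEq (by rw [Fintype.card_coe])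
    have hrow : ∀ j : Fin m, ∃ a : R, a ≠ 0 ∧ ∃ b : Fin m → R, (∀ i, i ∉ S → b i = 0) ∧
        a • (A j : Fin n → R) = ∑ i, b i • A i := by
      intro j
      by_cases hj : j ∈ S
      · refine ⟨1, one_ne_zero, Pi.single j 1, ?_, ?_⟩
        · intro i hi
          have : i ≠ j := fun h => hi (h ▸ hj)
          simp [this]
        · simp [Pi.single_apply, ite_smul]
      · exact hSm j hj
    choose a ha b hb hab using hrow
    refine ⟨fun k => A (eS.symm k), fun j k => b j (eS.symm k), a, ha, ?_⟩
    ext j i
    rw [Matrix.diagonal_mul, Matrix.mul_apply]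
    have h10 := congrFun (hab j) i
    simp only [Pi.smul_apply, Finset.sum_apply, smul_eq_mul] at h10
    rw [h10, ← Finset.sum_subset (Finset.subset_univ S), ← Finset.sum_coe_sort S]
    · exact (Fintype.sum_equiv eS.symm _ _ (fun x => rfl)).symm
    · intro x _ hx
      rw [hb j x hx, zero_mul]

end Pool.Agent.IWA
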