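import Mathlib
import Pool.Agent.IWA.Defs

/-!
# IWA / Filt : basic properties of the weight filtration (MP_05b873_al)

Paper proofs.
* `F_zero`: `T.F J 0` contains `1` (empty product) and all `g - 1`, hence all group elements.
* `F_anti`: `gens J w` is contained in `gens J v` for `v ≤ w`.
* `F_mul`: concatenate the lists (`Submodule.span_induction` twice, or `Submodule.span_mul_span`).
* `el_sub_one_mem`: list with one entry (element of `L i`, weight `p ^ i`).
* `el_eq_one`: `QuotientGroup.eq_one_iff`.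
* `mon_mem`: `x b - 1 ∈ F 1`, powers and products by `F_mul`.
* `mon_eq_zero`: characteristic `p`: `(x b - 1) ^ p ^ J = x b ^ p ^ J - 1 = 0` (`T.pow`), `b` occurs in
  `T.ord`.
* `finrank_R`: the dimension of the group algebra is the order of `P ⧸ L J`, `T.index`.
-/

namespace Pool.Agent.IWA

namespace UTower

variable {p e : ℕ} [Fact p.Prime] {ι : Type} [Fintype ι] {P : Type} [Group P]
  (T : UTower p e ι P)

theorem Filt_one_mem (J : ℕ) : (1 : T.R J) ∈ T.F J 0 := by
  refine Submodule.subset_span ⟨[], ?_, ?_, ?_⟩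
  · intro s hs
    exact absurd hs (List.not_mem_nil)
  · simp
  · simp

theorem Filt_el_sub_one (J i : ℕ) {g : P} (hg : g ∈ T.L i) : T.el J g - 1 ∈ T.F J (p ^ i) := by
  refine Submodule.subset_span ⟨[(i, g)], ?_, ?_, ?_⟩
  · intro s hs
    rw [List.mem_singleton] at hs
    rw [hs]
    exact hg
  · simp
  · simp

theorem F_anti (J : ℕ) {v w : ℕ} (h : v ≤ w) : T.F J w ≤ T.F J v := by
  refine Submodule.span_mono ?_
  rintro a ⟨l, h1, h2, h3⟩
  exact ⟨l, h1, h.trans h2, h3⟩

theorem F_zero (J : ℕ) : T.F J 0 = ⊤ := by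
  rw [eq_top_iff]
  intro a _
  have hof : ∀ q : P ⧸ T.L J, MonoidAlgebra.of (ZMod p) (P ⧸ T.L J) q ∈ T.F J 0 := by
    intro q
    obtain ⟨g, rfl⟩ := QuotientGroup.mk_surjective q
    have hg : T.el J g - 1 ∈ T.F J 0 := by
      have h0 : g ∈ T.L 0 := by
        rw [T.L_zero]
        exact Subgroup.mem_top g
      exact T.F_anti J (Nat.zero_le _) (T.Filt_el_sub_one J 0 h0)
    have h1 := Submodule.add_mem _ hg (T.Filt_one_mem J)
    rw [sub_add_cancel] at h1
    exact h1
  induction a using MonoidAlgebra.induction_on with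
  | of q => exact hof q
  | add f g hf hg => exact Submodule.add_mem _ (hf trivial) (hg trivial)
  | smul r f hf => exact Submodule.smul_mem _ r (hf trivial)

theorem F_mul (J : ℕ) {u v : ℕ} {a b : T.R J} (ha : a ∈ T.F J u) (hb : b ∈ T.F J v) :
    a * b ∈ T.F J (u + v) := by
  have h1 : a * b ∈ T.F J u * T.F J v := Submodule.mul_mem_mul ha hb
  have h2 : T.F J u * T.F J v ≤ T.F J (u + v) := by
    unfold F
    rw [Submodule.span_mul_span]
    refine Submodule.span_mono ?_
    rintro c ⟨x, ⟨l, hl1, hl2, rfl⟩, y, ⟨m, hm1, hm2, rfl⟩, rfl⟩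
    refine ⟨l ++ m, ?_, ?_, ?_⟩
    · intro s hs
      rcases List.mem_append.mp hs with h | h
      · exact hl1 s h
      · exact hm1 s h
    · rw [List.map_append, List.sum_append]
      exact Nat.add_le_add hl2 hm2
    · rw [List.map_append, List.prod_append]
  exact h2 h1

theorem el_sub_one_mem (J i : ℕ) {g : P} (hg : g ∈ T.L i) : T.el J g - 1 ∈ T.F J (p ^ i) :=
  T.Filt_el_sub_one J i hg

theorem el_eq_one (J : ℕ) {g : P} (hg : g ∈ T.L J) : T.el J g = 1 := by
  have h : (QuotientGroup.mk' (T.L J)) g = 1 := by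
    rw [QuotientGroup.mk'_apply]
    exact (QuotientGroup.eq_one_iff g).mpr hg
  show (MonoidAlgebra.of (ZMod p) (P ⧸ T.L J)) ((QuotientGroup.mk' (T.L J)) g) = 1
  rw [h, map_one]

theorem Filt_x_sub_one_mem (J : ℕ) (b : ι) : T.el J (T.x b) - 1 ∈ T.F J 1 := by
  have h0 : T.x b ∈ T.L 0 := by
    rw [T.L_zero]
    exact Subgroup.mem_top _
  have h := T.Filt_el_sub_one J 0 h0
  rwa [pow_zero] at h

theorem Filt_pow_mem (J : ℕ) {u : ℕ} {a : T.R J} (ha : a ∈ T.F J u) (n : ℕ) :
    a ^ n ∈ T.F J (n * u) := by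
  induction n with
  | zero =>
    rw [pow_zero, Nat.zero_mul]
    exact T.Filt_one_mem J
  | succ n ih =>
    rw [pow_succ, Nat.succ_mul]
    exact T.F_mul J ih ha

theorem Filt_list_mem (J : ℕ) (α : ι →₀ ℕ) (l : List ι) :
    (l.map fun b => (T.el J (T.x b) - 1) ^ α b).prod ∈ T.F J (l.map fun b => α b).sum := by
  induction l with
  | nil =>
    simp only [List.map_nil, List.prod_nil, List.sum_nil]
    exact T.Filt_one_mem J
  | cons b l ih =>
    simp only [List.map_cons, List.prod_cons, List.sum_cons]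
    refine T.F_mul J ?_ ih
    have h := T.Filt_pow_mem J (T.Filt_x_sub_one_mem J b) (α b)
    rwa [mul_one] at h

theorem mon_mem (J : ℕ) (α : ι →₀ ℕ) : T.mon J α ∈ T.F J (∑ b, α b) := by
  classical
  have h := T.Filt_list_mem J α T.ord
  have h2 : (T.ord.map fun b => α b).sum = ∑ b, α b := by
    have h3 : T.ord.toFinset = Finset.univ := by
      ext b
      simp [T.complete b]
    rw [← h3, List.sum_toFinset _ T.nodup]
  rw [h2] at h
  exact h

theorem mon_zero (J : ℕ) : T.mon J 0 = 1 := by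
  unfold mon
  have h : ∀ l : List ι, (l.map fun b => (T.el J (T.x b) - 1) ^ (0 : ι →₀ ℕ) b).prod = 1 := by
    intro l
    induction l with
    | nil => rfl
    | cons b l ih =>
      rw [List.map_cons, List.prod_cons, ih, mul_one, Finsupp.zero_apply, pow_zero]
  exact h T.ord

theorem Filt_x_pow (J : ℕ) (b : ι) : (T.el J (T.x b) - 1) ^ p ^ J = 0 := by
  have hc : Commute (T.el J (T.x b)) 1 := Commute.one_right _
  have hch : CharP (T.R J) p := by
    have : Algebra (ZMod p) (T.R J) := inferInstance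
    exact charP_of_injective_algebraMap (FaithfulSMul.algebraMap_injective (ZMod p) (T.R J)) p
  rw [sub_pow_char_pow_of_commute p J hc, ← map_pow, one_pow, T.el_eq_one J (T.pow J b), sub_self]

/-- `(x b - 1) ^ p ^ J = x b ^ p ^ J - 1 = 0` in characteristic `p` -/
theorem mon_eq_zero (J : ℕ) (α : ι →₀ ℕ) (b : ι) (h : p ^ J ≤ α b) : T.mon J α = 0 := by
  unfold mon
  have h0 : (T.el J (T.x b) - 1) ^ α b = 0 := by
    obtain ⟨c, hc⟩ := Nat.exists_eq_add_of_le h
    rw [hc, pow_add, T.Filt_x_pow J b, zero_mul]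
  refine List.prod_eq_zero (List.mem_map.mpr ⟨b, T.complete b, h0⟩)

theorem finite_quot (J : ℕ) : Finite (P ⧸ T.L J) := by
  have h := T.index J
  have hp : (p : ℕ) ≠ 0 := (Fact.out : p.Prime).ne_zero
  have h1 : (T.L J).index ≠ 0 := by
    rw [h]
    exact pow_ne_zero _ hp
  have h2 : (T.L J).FiniteIndex := ⟨h1⟩
  exact Subgroup.finite_quotient_of_finiteIndex

theorem finrank_R (J : ℕ) : Module.finrank (ZMod p) (T.R J) = p ^ (J * Fintype.card ι) := by
  have hf := T.finite_quot J
  have hft : Fintype (P ⧸ T.L J) := Fintype.ofFinite _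
  have h1 : Module.finrank (ZMod p) (T.R J) = Fintype.card (P ⧸ T.L J) :=
    Module.finrank_eq_card_basis (MonoidAlgebra.basis (P ⧸ T.L J) (ZMod p))
  rw [h1, ← T.index J, Subgroup.index, Nat.card_eq_fintype_card]

theorem finite_R (J : ℕ) : Finite (T.R J) := by
  have hf := T.finite_quot J
  have hz : Finite (ZMod p) := by
    have : NeZero p := ⟨(Fact.out : p.Prime).ne_zero⟩
    infer_instance
  have h1 : Module.Finite (ZMod p) (T.R J) :=
    Module.Finite.of_basis (MonoidAlgebra.basis (P ⧸ T.L J) (ZMod p))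
  exact Module.finite_of_finite (ZMod p)

end UTower

end Pool.Agent.IWA
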