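import Mathlib
import Pool.Agent.IWA.Filt
import Pool.Agent.CIR.PGrp

/-!
# IWA / Nilp : the weight filtration is eventually zero (MP_05b873_al)

Paper proof.
* `exists_F_eq_bot`: an element of `gens J v` is zero if some entry has `s.1 ≥ J` (then
  `T.el J s.2 = 1`); otherwise all entries have weight at most `p ^ J`, so the list has at least
  `v / p ^ J` entries, and a product of `N` elements of the augmentation ideal of the group algebra
  of the finite `p`-group `P ⧸ L J` (order `p ^ (J * D)`) over `ZMod p` is zero for large `N`.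
  Nilpotency of the augmentation ideal: see `Pool/Agent/CIR/PGrp.lean` for representation theory of
  `p`-groups used there, or prove by induction on the order (central element `z` of order `p`:
  `(z - 1) ^ p = 0` and `z - 1` is central), or argue directly by decreasing induction on levels:
  it is enough to show that products of many factors `g - 1` vanish: with
  `I_i` = the ideal generated by all `g - 1`, `g ∈ L i`: `I_i ^ M ≤ I_(i+1)` for large `M`, because
  `I_i` is generated modulo `I_(i+1)` by the elements `x b ^ p ^ i - 1` (use `T.gen`,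
  `g h - 1 = (g - 1) h + (h - 1)`), which commute modulo `I_(i+1)` (by `T.comm`, `e ≥ 1`) and whose
  `p`-th powers are `x b ^ p ^ (i+1) - 1 ∈ I_(i+1)`.
-/

namespace Pool.Agent.IWA

section Nilp_aug

variable {p : ℕ} [Fact p.Prime] {G : Type} [Group G]

/-- products of elements `g - 1` -/
private noncomputable def Nilp_pr (p : ℕ) [Fact p.Prime] {G : Type} [Group G] (l : List G) :
    MonoidAlgebra (ZMod p) G :=
  (l.map fun g => MonoidAlgebra.of (ZMod p) G g - 1).prod

/-- the elements killed by all products of `n` elements `g - 1` -/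
private noncomputable def Nilp_W (p : ℕ) [Fact p.Prime] (G : Type) [Group G] (n : ℕ) :
    Submodule (ZMod p) (MonoidAlgebra (ZMod p) G) where
  carrier := {a | ∀ l : List G, l.length = n → Nilp_pr p l * a = 0}
  add_mem' := by
    intro a b ha hb l hl
    rw [mul_add, ha l hl, hb l hl, add_zero]
  zero_mem' := by
    intro l _
    rw [mul_zero]
  smul_mem' := by
    intro c a ha l hl
    rw [mul_smul_comm, ha l hl, smul_zero]

private theorem Nilp_mem {n : ℕ} {a : MonoidAlgebra (ZMod p) G} :
    a ∈ Nilp_W p G n ↔ ∀ l : List G, l.length = n → Nilp_pr p l * a = 0 := Iff.rfl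

private theorem Nilp_conj (h : G) (l : List G) :
    Nilp_pr p l * MonoidAlgebra.of (ZMod p) G h =
      MonoidAlgebra.of (ZMod p) G h * Nilp_pr p (l.map fun g => h⁻¹ * g * h) := by
  induction l with
  | nil => simp [Nilp_pr]
  | cons g l ih =>
    have h1 : Nilp_pr p (g :: l) = (MonoidAlgebra.of (ZMod p) G g - 1) * Nilp_pr p l := by
      simp [Nilp_pr]
    have h2 : Nilp_pr p ((g :: l).map fun g => h⁻¹ * g * h) =
        (MonoidAlgebra.of (ZMod p) G (h⁻¹ * g * h) - 1) *
          Nilp_pr p (l.map fun g => h⁻¹ * g * h) := by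
      simp [Nilp_pr]
    have h3 : (MonoidAlgebra.of (ZMod p) G g - 1) * MonoidAlgebra.of (ZMod p) G h =
        MonoidAlgebra.of (ZMod p) G h * (MonoidAlgebra.of (ZMod p) G (h⁻¹ * g * h) - 1) := by
      rw [sub_mul, mul_sub, ← map_mul, ← map_mul, one_mul, mul_one]
      congr 2
      group
    rw [h1, h2, mul_assoc, ih, ← mul_assoc, h3, mul_assoc]

private theorem Nilp_stable (h : G) {n : ℕ} {a : MonoidAlgebra (ZMod p) G}
    (ha : a ∈ Nilp_W p G n) : MonoidAlgebra.of (ZMod p) G h * a ∈ Nilp_W p G n := by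
  intro l hl
  rw [← mul_assoc, Nilp_conj, mul_assoc, Nilp_mem.mp ha _ (by simpa using hl), mul_zero]

private theorem Nilp_succ {n : ℕ} {a : MonoidAlgebra (ZMod p) G}
    (ha : ∀ g : G, (MonoidAlgebra.of (ZMod p) G g - 1) * a ∈ Nilp_W p G n) :
    a ∈ Nilp_W p G (n + 1) := by
  intro l hl
  obtain ⟨l', g, rfl⟩ : ∃ (l' : List G) (g : G), l = l' ++ [g] := by
    have hne : l ≠ [] := by
      rintro rfl
      simp at hl
    exact ⟨l.dropLast, l.getLast hne, (List.dropLast_append_getLast hne).symm⟩
  have h1 : Nilp_pr p (l' ++ [g]) = Nilp_pr p l' * (MonoidAlgebra.of (ZMod p) G g - 1) := by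
    simp [Nilp_pr]
  rw [h1, mul_assoc]
  apply ha g l'
  simpa using hl

private theorem Nilp_le (n : ℕ) : Nilp_W p G n ≤ Nilp_W p G (n + 1) := by
  intro a ha
  apply Nilp_succ
  intro g
  rw [sub_mul, one_mul]
  exact (Nilp_W p G n).sub_mem (Nilp_stable g ha) ha

private theorem Nilp_comap (g : G) (n : ℕ) : Nilp_W p G n ≤ Submodule.comap
    (LinearMap.mulLeft (ZMod p) (MonoidAlgebra.of (ZMod p) G g)) (Nilp_W p G n) := by
  intro a ha
  rw [Submodule.mem_comap, LinearMap.mulLeft_apply]
  exact Nilp_stable g ha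

/-- left multiplication on the quotient -/
private noncomputable def Nilp_act (p : ℕ) [Fact p.Prime] (G : Type) [Group G] (n : ℕ) (g : G) :
    (MonoidAlgebra (ZMod p) G ⧸ Nilp_W p G n) →ₗ[ZMod p]
      (MonoidAlgebra (ZMod p) G ⧸ Nilp_W p G n) :=
  (Nilp_W p G n).mapQ (Nilp_W p G n) (LinearMap.mulLeft (ZMod p) (MonoidAlgebra.of (ZMod p) G g))
    (Nilp_comap g n)

private theorem Nilp_act_mk (n : ℕ) (g : G) (a : MonoidAlgebra (ZMod p) G) :
    Nilp_act p G n g ((Nilp_W p G n).mkQ a) =
      (Nilp_W p G n).mkQ (MonoidAlgebra.of (ZMod p) G g * a) := by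
  rw [Submodule.mkQ_apply, Submodule.mkQ_apply, Nilp_act, Submodule.mapQ_apply,
    LinearMap.mulLeft_apply]

/-- the representation on the quotient -/
private noncomputable def Nilp_rho (p : ℕ) [Fact p.Prime] (G : Type) [Group G] (n : ℕ) :
    Representation (ZMod p) G (MonoidAlgebra (ZMod p) G ⧸ Nilp_W p G n) where
  toFun g := Nilp_act p G n g
  map_one' := by
    apply LinearMap.ext
    intro x
    obtain ⟨a, rfl⟩ := Submodule.mkQ_surjective _ x
    rw [Nilp_act_mk, map_one, one_mul, Module.End.one_apply]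
  map_mul' g h := by
    apply LinearMap.ext
    intro x
    obtain ⟨a, rfl⟩ := Submodule.mkQ_surjective _ x
    rw [Nilp_act_mk, (MonoidAlgebra.of (ZMod p) G).map_mul g h, mul_assoc, Module.End.mul_apply,
      Nilp_act_mk, Nilp_act_mk]

private theorem Nilp_rho_mk (n : ℕ) (g : G) (a : MonoidAlgebra (ZMod p) G) :
    Nilp_rho p G n g ((Nilp_W p G n).mkQ a) =
      (Nilp_W p G n).mkQ (MonoidAlgebra.of (ZMod p) G g * a) := Nilp_act_mk n g a

private theorem Nilp_lt [Finite G] {j : ℕ} (hG : Nat.card G = p ^ j) {n : ℕ}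
    (hn : Nilp_W p G n ≠ ⊤) : Nilp_W p G n < Nilp_W p G (n + 1) := by
  have : Module.Finite (ZMod p) (MonoidAlgebra (ZMod p) G) := inferInstance
  have hQ : Nat.card (⊤ : Subgroup G) = p ^ j := by
    rw [Subgroup.card_top, hG]
  have h1 := CIR.finrank_le_invS (Nilp_rho p G n) p j ⊤ hQ
  have h2 : 0 < Module.finrank (ZMod p) (MonoidAlgebra (ZMod p) G ⧸ Nilp_W p G n) := by
    have : Nontrivial (MonoidAlgebra (ZMod p) G ⧸ Nilp_W p G n) :=
      Submodule.Quotient.nontrivial_iff.mpr hn
    exact Module.finrank_pos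
  have h3 : 0 < Module.finrank (ZMod p) (CIR.invS (Nilp_rho p G n) ⊤) := by
    by_contra h
    have : Module.finrank (ZMod p) (CIR.invS (Nilp_rho p G n) ⊤) = 0 := by omega
    rw [this] at h1
    omega
  have h4 : Nontrivial (CIR.invS (Nilp_rho p G n) ⊤) := Module.finrank_pos_iff.mp h3
  obtain ⟨⟨x, hx⟩, hx0⟩ := exists_ne (0 : CIR.invS (Nilp_rho p G n) ⊤)
  obtain ⟨a, rfl⟩ := Submodule.mkQ_surjective _ x
  have ha : a ∉ Nilp_W p G n := by
    intro ha
    apply hx0
    ext
    simpa using ha
  have ha' : a ∈ Nilp_W p G (n + 1) := by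
    apply Nilp_succ
    intro g
    have h5 := hx g (Subgroup.mem_top g)
    rw [Nilp_rho_mk, Submodule.mkQ_apply, Submodule.mkQ_apply, Submodule.Quotient.eq] at h5
    rw [sub_mul, one_mul]
    exact h5
  exact lt_of_le_of_ne (Nilp_le n) (fun h => ha (h ▸ ha'))

private theorem Nilp_prod [Finite G] {j : ℕ} (hG : Nat.card G = p ^ j) :
    ∃ N : ℕ, ∀ l : List G, N ≤ l.length → Nilp_pr p l = 0 := by
  have : Module.Finite (ZMod p) (MonoidAlgebra (ZMod p) G) := inferInstance
  have h1 : ∀ n, Nilp_W p G n ≠ ⊤ → n ≤ Module.finrank (ZMod p) (Nilp_W p G n) := by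
    intro n
    induction n with
    | zero => intro _; omega
    | succ n ih =>
      intro hn
      have h2 : Nilp_W p G n ≠ ⊤ := by
        intro h
        apply hn
        rw [eq_top_iff, ← h]
        exact Nilp_le n
      have h3 := ih h2
      have h4 := Submodule.finrank_lt_finrank_of_lt (Nilp_lt hG h2)
      omega
  obtain ⟨N, hN⟩ : ∃ N, N = Module.finrank (ZMod p) (MonoidAlgebra (ZMod p) G) + 1 := ⟨_, rfl⟩
  have h2 : Nilp_W p G N = ⊤ := by
    by_contra h
    have h3 := h1 N h
    have h4 := Submodule.finrank_le (Nilp_W p G N)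
    omega
  refine ⟨N, fun l hl => ?_⟩
  have h3 : (1 : MonoidAlgebra (ZMod p) G) ∈ Nilp_W p G N := by
    rw [h2]
    exact Submodule.mem_top
  have h4 : Nilp_pr p l = Nilp_pr p (l.take N) * Nilp_pr p (l.drop N) := by
    unfold Nilp_pr
    rw [← List.prod_append, ← List.map_append, List.take_append_drop]
  have h5 := h3 (l.take N) (by rw [List.length_take]; omega)
  rw [mul_one] at h5
  rw [h4, h5, zero_mul]

end Nilp_aug

namespace UTower

variable {p e : ℕ} [Fact p.Prime] {ι : Type} [Fintype ι] {P : Type} [Group P]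
  (T : UTower p e ι P)

theorem exists_F_eq_bot (J : ℕ) : ∃ v, T.F J v = ⊥ := by
  have hfin : Finite (P ⧸ T.L J) := T.finite_quot J
  have hcard : Nat.card (P ⧸ T.L J) = p ^ (J * Fintype.card ι) := by
    rw [← T.index J]
    rfl
  obtain ⟨N, hN⟩ := Nilp_prod (p := p) hcard
  have hp : 0 < p := (Fact.out : p.Prime).pos
  refine ⟨N * p ^ J, ?_⟩
  rw [eq_bot_iff]
  unfold F
  rw [Submodule.span_le]
  rintro a ⟨l, hl, hv, rfl⟩
  rw [SetLike.mem_coe, Submodule.mem_bot]
  by_cases h : ∃ s ∈ l, J ≤ s.1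
  · obtain ⟨s, hs, hJ⟩ := h
    apply List.prod_eq_zero
    rw [List.mem_map]
    refine ⟨s, hs, ?_⟩
    rw [T.el_eq_one J (T.anti hJ (hl s hs)), sub_self]
  · push Not at h
    have h1 : (l.map fun s => p ^ s.1).sum ≤ l.length * p ^ J := by
      have := List.sum_le_card_nsmul (l.map fun s => p ^ s.1) (p ^ J) (by
        intro x hx
        rw [List.mem_map] at hx
        obtain ⟨s, hs, rfl⟩ := hx
        exact Nat.pow_le_pow_right hp (h s hs).le)
      rwa [List.length_map, smul_eq_mul] at this
    have h2 : N ≤ l.length := by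
      have h3 : N * p ^ J ≤ l.length * p ^ J := hv.trans h1
      exact Nat.le_of_mul_le_mul_right h3 (pow_pos hp J)
    have h3 := hN (l.map fun s => (QuotientGroup.mk' (T.L J)) s.2) (by rwa [List.length_map])
    rw [← h3]
    unfold Nilp_pr
    rw [List.map_map]
    rfl

end UTower

end Pool.Agent.IWA
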