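import Mathlib
import Pool.Agent.IWA.Filt

/-!
# IWA / Comm : the associated graded ring is commutative (MP_05b873_al)

Paper proof of `F_comm`. For `g ∈ L i`, `h ∈ L j`:
`(g - 1)(h - 1) - (h - 1)(g - 1) = g h - h g = (g h g⁻¹ h⁻¹ - 1) h g`, and
`g h g⁻¹ h⁻¹ ∈ L (i + j + e)` by `T.comm`, so this lies in `F (p ^ (i + j + e))` (as `h g ∈ F 0`),
and `p ^ (i+j+e) ≥ 3 * p ^ (i+j) ≥ p ^ i + p ^ j + 1` by `T.he`. For products of such elements
(generators of `F u`, `F v` of weights exactly `U ≥ u`, `V ≥ v`): move the factors one by one, each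
commutator replaces two factors of weight `a`, `b` by an element of `F (a + b + 1)`; so
`[a, b] ∈ F (U + V + 1)`. Formally: first for `b = h - 1` and `a` a product by induction on the list
(`[a a', b] = a [a', b] + [a, b] a'`), then induction on the list for `b`; finally linearity
(`Submodule.span_induction`). It is convenient to prove the statement for lists with the weights
`U = sum` and then to use `F_anti`.
-/

namespace Pool.Agent.IWA

namespace UTower

variable {p e : ℕ} [Fact p.Prime] {ι : Type} [Fintype ι] {P : Type} [Group P]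
  (T : UTower p e ι P)

/-- product of a list -/
private noncomputable def Comm_pr (J : ℕ) (l : List (ℕ × P)) : T.R J :=
  (l.map fun s => T.el J s.2 - 1).prod

/-- weight of a list -/
private def Comm_wt (p : ℕ) (l : List (ℕ × P)) : ℕ := (l.map fun s => p ^ s.1).sum

private theorem Comm_pr_mem (J : ℕ) {l : List (ℕ × P)} (hl : ∀ s ∈ l, s.2 ∈ T.L s.1) :
    Comm_pr T J l ∈ T.F J (Comm_wt p l) :=
  Submodule.subset_span ⟨l, hl, le_refl _, rfl⟩

private theorem Comm_one (J i j : ℕ) {g h : P} (hg : g ∈ T.L i) (hh : h ∈ T.L j) :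
    (T.el J g - 1) * (T.el J h - 1) - (T.el J h - 1) * (T.el J g - 1) ∈
      T.F J (p ^ i + p ^ j + 1) := by
  have h1 : (T.el J g - 1) * (T.el J h - 1) - (T.el J h - 1) * (T.el J g - 1) =
      (T.el J (g * h * g⁻¹ * h⁻¹) - 1) * (T.el J h * T.el J g) := by
    have h2 : T.el J (g * h * g⁻¹ * h⁻¹) * (T.el J h * T.el J g) = T.el J g * T.el J h := by
      rw [← map_mul, ← map_mul, ← map_mul]
      congr 1
      group
    rw [sub_mul (T.el J (g * h * g⁻¹ * h⁻¹)), h2]
    noncomm_ring
  rw [h1]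
  have h3 : T.el J h * T.el J g ∈ T.F J 0 := by
    rw [F_zero]
    exact Submodule.mem_top
  have h4 := T.F_mul J (T.el_sub_one_mem J (i + j + e) (T.comm i j g hg h hh)) h3
  refine T.F_anti J ?_ h4
  have hp : 1 ≤ p := (Fact.out : p.Prime).one_lt.le
  have h5 : p ^ (i + j + e) = p ^ (i + j) * p ^ e := pow_add _ _ _
  have h6 : p ^ i ≤ p ^ (i + j) := Nat.pow_le_pow_right hp (Nat.le_add_right _ _)
  have h7 : p ^ j ≤ p ^ (i + j) := Nat.pow_le_pow_right hp (Nat.le_add_left _ _)
  have h8 : 1 ≤ p ^ (i + j) := Nat.one_le_pow _ _ hp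
  have h9 : p ^ (i + j) * 3 ≤ p ^ (i + j) * p ^ e := Nat.mul_le_mul_left _ T.he
  rw [h5]
  omega

private theorem Comm_list (J : ℕ) {u : ℕ} {a : T.R J}
    (h1 : ∀ j, ∀ h ∈ T.L j, a * (T.el J h - 1) - (T.el J h - 1) * a ∈ T.F J (u + p ^ j + 1))
    (l : List (ℕ × P)) (hl : ∀ s ∈ l, s.2 ∈ T.L s.1) :
    a * Comm_pr T J l - Comm_pr T J l * a ∈ T.F J (u + Comm_wt p l + 1) := by
  induction l with
  | nil =>
    have h2 : a * Comm_pr T J [] - Comm_pr T J [] * a = 0 := by
      unfold Comm_pr
      simp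
    rw [h2]
    exact Submodule.zero_mem _
  | cons s l ih =>
    have hs : s.2 ∈ T.L s.1 := hl s List.mem_cons_self
    have hl' : ∀ t ∈ l, t.2 ∈ T.L t.1 := fun t ht => hl t (List.mem_cons_of_mem _ ht)
    have h2 : Comm_pr T J (s :: l) = (T.el J s.2 - 1) * Comm_pr T J l := by
      unfold Comm_pr
      rw [List.map_cons, List.prod_cons]
    have h3 : Comm_wt p (s :: l) = p ^ s.1 + Comm_wt p l := by
      unfold Comm_wt
      rw [List.map_cons, List.sum_cons]
    have h4 : a * Comm_pr T J (s :: l) - Comm_pr T J (s :: l) * a =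
        (a * (T.el J s.2 - 1) - (T.el J s.2 - 1) * a) * Comm_pr T J l +
          (T.el J s.2 - 1) * (a * Comm_pr T J l - Comm_pr T J l * a) := by
      rw [h2]
      noncomm_ring
    rw [h4, h3]
    refine Submodule.add_mem _ ?_ ?_
    · refine T.F_anti J ?_ (T.F_mul J (h1 s.1 s.2 hs) (Comm_pr_mem T J hl'))
      omega
    · refine T.F_anti J ?_ (T.F_mul J (T.el_sub_one_mem J s.1 hs) (ih hl'))
      omega

private theorem Comm_swap (J : ℕ) {v : ℕ} {a b : T.R J} (h : a * b - b * a ∈ T.F J v) :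
    b * a - a * b ∈ T.F J v := by
  have h1 := Submodule.neg_mem _ h
  rwa [neg_sub] at h1

private theorem Comm_two (J : ℕ) {l l' : List (ℕ × P)} (hl : ∀ s ∈ l, s.2 ∈ T.L s.1)
    (hl' : ∀ s ∈ l', s.2 ∈ T.L s.1) :
    Comm_pr T J l * Comm_pr T J l' - Comm_pr T J l' * Comm_pr T J l ∈
      T.F J (Comm_wt p l + Comm_wt p l' + 1) := by
  refine Comm_list T J (fun j h hh => ?_) l' hl'
  have h1 := Comm_list T J
    (fun i g hg => Comm_one T J j i hh hg) l hl
  refine Comm_swap T J (T.F_anti J ?_ h1)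
  omega

theorem F_comm (J : ℕ) {u v : ℕ} {a b : T.R J} (ha : a ∈ T.F J u) (hb : b ∈ T.F J v) :
    a * b - b * a ∈ T.F J (u + v + 1) := by
  unfold F at ha
  induction ha using Submodule.span_induction with
  | mem a ha =>
    obtain ⟨l, hl, hu, rfl⟩ := ha
    unfold F at hb
    induction hb using Submodule.span_induction with
    | mem b hb =>
      obtain ⟨l', hl', hv, rfl⟩ := hb
      refine T.F_anti J ?_ (Comm_two T J hl hl')
      have h1 : Comm_wt p l = (l.map fun s => p ^ s.1).sum := rfl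
      have h2 : Comm_wt p l' = (l'.map fun s => p ^ s.1).sum := rfl
      omega
    | zero =>
      rw [mul_zero, zero_mul, sub_zero]
      exact Submodule.zero_mem _
    | add x y _ _ hx hy =>
      rw [mul_add, add_mul, add_sub_add_comm]
      exact Submodule.add_mem _ hx hy
    | smul k x _ hx =>
      rw [mul_smul_comm, smul_mul_assoc, ← smul_sub]
      exact Submodule.smul_mem _ _ hx
  | zero =>
    rw [mul_zero, zero_mul, sub_zero]
    exact Submodule.zero_mem _
  | add x y _ _ hx hy =>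
    rw [mul_add, add_mul, add_sub_add_comm]
    exact Submodule.add_mem _ hx hy
  | smul k x _ hx =>
    rw [mul_smul_comm, smul_mul_assoc, ← smul_sub]
    exact Submodule.smul_mem _ _ hx

end UTower

end Pool.Agent.IWA
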