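import Mathlib
import Pool.Agent.IWA.Comm

/-!
# IWA / SymMul : the calculus of symbols (MP_05b873_al)

Paper proofs.
* `Phi_mem`: `Phi f` is the linear combination of the `mon α`, `α` in the support of `f`,
  `∑ b, α b = v`; use `mon_mem`.
* `mon_mul_mon`: `mon α * mon β - mon (α + β) ∈ F (|α| + |β| + 1)`: both are products of the same
  number of factors `x b - 1 ∈ F 1`; reorder using `F_comm` (induction on the list `T.ord`:
  `(y ^ a * A) * (y ^ b * B) = y ^ (a + b) * (A * B) + y ^ a * [A, y ^ b] * B`).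
* `Phi_mul`: bilinearity.
* `Sym.mul`: `a b - Phi (f g) = (a - Phi f) b + Phi f (b - Phi g) + (Phi f Phi g - Phi (f g))`, where
  `b ∈ F v` by `Sym.mem`.
-/

namespace Pool.Agent.IWA

namespace UTower

variable {p e : ℕ} [Fact p.Prime] {ι : Type} [Fintype ι] {P : Type} [Group P]
  (T : UTower p e ι P)

theorem Phi_monomial (J : ℕ) (α : ι →₀ ℕ) (c : ZMod p) :
    T.Phi J (MvPolynomial.monomial α c) = c • T.mon J α := by
  have h1 : MvPolynomial.monomial α c = c • (MvPolynomial.basisMonomials ι (ZMod p)) α := by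
    rw [MvPolynomial.coe_basisMonomials, MvPolynomial.smul_monomial, smul_eq_mul, mul_one]
  rw [h1, map_smul]
  unfold Phi
  rw [Module.Basis.constr_basis]

private theorem SymMul_deg {v : ℕ} {f : MvPolynomial ι (ZMod p)} (hf : f.IsHomogeneous v)
    {α : ι →₀ ℕ} (h : α ∈ f.support) : ∑ b, α b = v := by
  have h1 := hf (MvPolynomial.mem_support_iff.1 h)
  rw [Finsupp.weight_apply, Finsupp.sum_fintype _ _ (by simp)] at h1
  simpa using h1

private theorem SymMul_sum (J : ℕ) (f : MvPolynomial ι (ZMod p)) :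
    T.Phi J f = ∑ α ∈ f.support, MvPolynomial.coeff α f • T.mon J α := by
  conv_lhs => rw [f.as_sum]
  rw [map_sum]
  exact Finset.sum_congr rfl fun α _ => Phi_monomial T J α _

theorem Phi_mem (J v : ℕ) {f : MvPolynomial ι (ZMod p)} (hf : f.IsHomogeneous v) :
    T.Phi J f ∈ T.F J v := by
  rw [SymMul_sum]
  refine Submodule.sum_mem _ fun α hα => Submodule.smul_mem _ _ ?_
  have h1 := T.mon_mem J α
  rwa [SymMul_deg hf hα] at h1

private theorem SymMul_F1 (J : ℕ) (b : ι) (n : ℕ) : (T.el J (T.x b) - 1) ^ n ∈ T.F J n := by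
  have h0 : T.el J (T.x b) - 1 ∈ T.F J 1 := by
    have h := T.el_sub_one_mem J 0 (g := T.x b) (by rw [T.L_zero]; exact Subgroup.mem_top _)
    rwa [pow_zero] at h
  induction n with
  | zero =>
    rw [T.F_zero]
    exact Submodule.mem_top
  | succ n ih =>
    rw [pow_succ]
    exact T.F_mul J ih h0

private theorem SymMul_list (J : ℕ) (α : ι → ℕ) (l : List ι) :
    (l.map fun b => (T.el J (T.x b) - 1) ^ α b).prod ∈ T.F J (l.map α).sum := by
  induction l with
  | nil =>
    show (1 : T.R J) ∈ T.F J 0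
    rw [T.F_zero]
    exact Submodule.mem_top
  | cons b l ih =>
    simp only [List.map_cons, List.prod_cons, List.sum_cons]
    exact T.F_mul J (SymMul_F1 T J b _) ih

private theorem SymMul_list_mul (J : ℕ) (α β : ι → ℕ) (l : List ι) :
    (l.map fun b => (T.el J (T.x b) - 1) ^ α b).prod *
      (l.map fun b => (T.el J (T.x b) - 1) ^ β b).prod -
      (l.map fun b => (T.el J (T.x b) - 1) ^ (α b + β b)).prod ∈
      T.F J ((l.map α).sum + (l.map β).sum + 1) := by
  induction l with
  | nil =>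
    show (1 : T.R J) * 1 - 1 ∈ _
    rw [mul_one, sub_self]
    exact Submodule.zero_mem _
  | cons b l ih =>
    simp only [List.map_cons, List.prod_cons, List.sum_cons]
    set y : T.R J := T.el J (T.x b) - 1 with hy
    set A : T.R J := (l.map fun b => (T.el J (T.x b) - 1) ^ α b).prod with hA
    set B : T.R J := (l.map fun b => (T.el J (T.x b) - 1) ^ β b).prod with hB
    set C : T.R J := (l.map fun b => (T.el J (T.x b) - 1) ^ (α b + β b)).prod with hC
    have e : y ^ α b * A * (y ^ β b * B) - y ^ (α b + β b) * C =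
        y ^ α b * ((A * y ^ β b - y ^ β b * A) * B) + y ^ (α b + β b) * (A * B - C) := by
      rw [pow_add]
      noncomm_ring
    rw [e]
    refine Submodule.add_mem _ ?_ ?_
    · have h1 := T.F_comm J (SymMul_list T J α l) (SymMul_F1 T J b (β b))
      have h2 := T.F_mul J (SymMul_F1 T J b (α b)) (T.F_mul J h1 (SymMul_list T J β l))
      refine T.F_anti J ?_ h2
      omega
    · have h2 := T.F_mul J (SymMul_F1 T J b (α b + β b)) ih
      refine T.F_anti J ?_ h2
      omega

omit [Fact p.Prime] in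
private theorem SymMul_ord (α : ι →₀ ℕ) : (T.ord.map fun b => α b).sum = ∑ b, α b := by
  classical
  have h1 : T.ord.toFinset = Finset.univ := by
    ext b
    simp only [List.mem_toFinset, Finset.mem_univ, iff_true]
    exact T.complete b
  rw [← h1]
  exact (List.sum_toFinset _ T.nodup).symm

theorem mon_mul_mon (J : ℕ) (α β : ι →₀ ℕ) :
    T.mon J α * T.mon J β - T.mon J (α + β) ∈ T.F J (∑ b, α b + ∑ b, β b + 1) := by
  have h := SymMul_list_mul T J (fun b => α b) (fun b => β b) T.ord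
  rw [SymMul_ord, SymMul_ord] at h
  exact h

theorem Phi_mul (J u v : ℕ) {f g : MvPolynomial ι (ZMod p)} (hf : f.IsHomogeneous u)
    (hg : g.IsHomogeneous v) : T.Phi J f * T.Phi J g - T.Phi J (f * g) ∈ T.F J (u + v + 1) := by
  have h1 : f * g = ∑ α ∈ f.support, ∑ β ∈ g.support,
      MvPolynomial.monomial (α + β) (MvPolynomial.coeff α f * MvPolynomial.coeff β g) := by
    conv_lhs => rw [f.as_sum, g.as_sum]
    rw [Finset.sum_mul_sum]
    simp only [MvPolynomial.monomial_mul]
  have h2 : T.Phi J (f * g) = ∑ α ∈ f.support, ∑ β ∈ g.support,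
      (MvPolynomial.coeff α f * MvPolynomial.coeff β g) • T.mon J (α + β) := by
    rw [h1, map_sum]
    refine Finset.sum_congr rfl fun α _ => ?_
    rw [map_sum]
    exact Finset.sum_congr rfl fun β _ => Phi_monomial T J _ _
  rw [h2, SymMul_sum, SymMul_sum, Finset.sum_mul_sum, ← Finset.sum_sub_distrib]
  refine Submodule.sum_mem _ fun α hα => ?_
  rw [← Finset.sum_sub_distrib]
  refine Submodule.sum_mem _ fun β hβ => ?_
  rw [smul_mul_smul_comm, ← smul_sub]
  refine Submodule.smul_mem _ _ ?_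
  have h3 := mon_mul_mon T J α β
  rwa [SymMul_deg hf hα, SymMul_deg hg hβ] at h3

variable {T} {J : ℕ}

theorem Sym.mem {v : ℕ} {f : MvPolynomial ι (ZMod p)} {a : T.R J} (h : T.Sym J v f a) :
    a ∈ T.F J v := by
  have h1 := Submodule.add_mem _ (T.F_anti J (Nat.le_succ v) h.2) (Phi_mem T J v h.1)
  rwa [sub_add_cancel] at h1

theorem Sym.mul {u v : ℕ} {f g : MvPolynomial ι (ZMod p)} {a b : T.R J} (ha : T.Sym J u f a)
    (hb : T.Sym J v g b) : T.Sym J (u + v) (f * g) (a * b) := by
  refine ⟨ha.1.mul hb.1, ?_⟩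
  have e : a * b - T.Phi J (f * g) = (a - T.Phi J f) * b + T.Phi J f * (b - T.Phi J g) +
      (T.Phi J f * T.Phi J g - T.Phi J (f * g)) := by
    noncomm_ring
  rw [e]
  refine Submodule.add_mem _ (Submodule.add_mem _ ?_ ?_) (Phi_mul T J u v ha.1 hb.1)
  · refine T.F_anti J ?_ (T.F_mul J ha.2 hb.mem)
    omega
  · refine T.F_anti J ?_ (T.F_mul J (Phi_mem T J u ha.1) hb.2)
    omega

theorem Sym.add {v : ℕ} {f g : MvPolynomial ι (ZMod p)} {a b : T.R J} (ha : T.Sym J v f a)
    (hb : T.Sym J v g b) : T.Sym J v (f + g) (a + b) := by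
  refine ⟨ha.1.add hb.1, ?_⟩
  rw [map_add, add_sub_add_comm]
  exact Submodule.add_mem _ ha.2 hb.2

theorem Sym.smul {v : ℕ} {f : MvPolynomial ι (ZMod p)} {a : T.R J} (c : ZMod p)
    (ha : T.Sym J v f a) : T.Sym J v (c • f) (c • a) := by
  refine ⟨(MvPolynomial.homogeneousSubmodule ι (ZMod p) v).smul_mem c ha.1, ?_⟩
  rw [map_smul, ← smul_sub]
  exact Submodule.smul_mem _ _ ha.2

/-- elements of `F (v + 1)` have the symbol `0` of degree `v` -/
theorem Sym_zero {v : ℕ} {a : T.R J} (h : a ∈ T.F J (v + 1)) : T.Sym J v 0 a := by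
  refine ⟨MvPolynomial.isHomogeneous_zero _ _ _, ?_⟩
  rw [map_zero, sub_zero]
  exact h

theorem Sym.sum {v : ℕ} {κ : Type} (s : Finset κ) {f : κ → MvPolynomial ι (ZMod p)}
    {a : κ → T.R J} (h : ∀ i ∈ s, T.Sym J v (f i) (a i)) :
    T.Sym J v (∑ i ∈ s, f i) (∑ i ∈ s, a i) := by
  classical
  induction s using Finset.induction_on with
  | empty =>
    rw [Finset.sum_empty, Finset.sum_empty]
    exact Sym_zero (Submodule.zero_mem _)
  | insert i s hi ih =>
    rw [Finset.sum_insert hi, Finset.sum_insert hi]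
    exact Sym.add (h i (Finset.mem_insert_self i s))
      (ih fun j hj => h j (Finset.mem_insert_of_mem hj))

theorem Sym_one : T.Sym J 0 1 1 := by
  refine ⟨MvPolynomial.isHomogeneous_one _ _, ?_⟩
  have h1 : (1 : MvPolynomial ι (ZMod p)) = MvPolynomial.monomial 0 1 := rfl
  rw [h1, Phi_monomial, one_smul, T.mon_zero, sub_self]
  exact Submodule.zero_mem _

theorem Sym.pow {v : ℕ} {f : MvPolynomial ι (ZMod p)} {a : T.R J} (ha : T.Sym J v f a) (n : ℕ) :
    T.Sym J (n * v) (f ^ n) (a ^ n) := by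
  induction n with
  | zero =>
    rw [Nat.zero_mul, pow_zero, pow_zero]
    exact Sym_one
  | succ n ih =>
    rw [Nat.succ_mul, pow_succ, pow_succ]
    exact ih.mul ha

theorem Sym.list_prod {κ : Type} (l : List κ) (v : κ → ℕ) (f : κ → MvPolynomial ι (ZMod p))
    (a : κ → T.R J) (h : ∀ i ∈ l, T.Sym J (v i) (f i) (a i)) :
    T.Sym J (l.map v).sum (l.map f).prod (l.map a).prod := by
  induction l with
  | nil => exact Sym_one
  | cons i l ih =>
    rw [List.map_cons, List.map_cons, List.map_cons, List.sum_cons, List.prod_cons,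
      List.prod_cons]
    exact (h i List.mem_cons_self).mul (ih fun j hj => h j (List.mem_cons_of_mem _ hj))

/-- changing an element modulo `F (v + 1)` -/
theorem Sym.congr {v : ℕ} {f : MvPolynomial ι (ZMod p)} {a b : T.R J} (ha : T.Sym J v f a)
    (h : b - a ∈ T.F J (v + 1)) : T.Sym J v f b := by
  refine ⟨ha.1, ?_⟩
  rw [← sub_add_sub_cancel b a (T.Phi J f)]
  exact Submodule.add_mem _ h ha.2

theorem Sym_Phi {v : ℕ} {f : MvPolynomial ι (ZMod p)} (hf : f.IsHomogeneous v) :
    T.Sym J v f (T.Phi J f) := by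
  refine ⟨hf, ?_⟩
  rw [sub_self]
  exact Submodule.zero_mem _

end UTower

end Pool.Agent.IWA
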