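import Mathlib
import Pool.Agent.IWA.SymMul

/-!
# IWA / SymGen : symbols of group elements, existence of symbols (MP_05b873_al)

Paper proofs.
* `Sym_sub_one_mul`: `g h - 1 = (g - 1) + (h - 1) + (g - 1)(h - 1)` and
  `(g - 1)(h - 1) ∈ F (2 p ^ i) ⊆ F (p ^ i + 1)`.
* `Sym_x`: `x b ^ (p ^ i * n) - 1`: in characteristic `p`,
  `x b ^ p ^ i - 1 = (x b - 1) ^ p ^ i` has the symbol `X b ^ p ^ i` (`Phi` of the monomial
  `X b ^ p ^ i` is `mon (single b (p ^ i)) = (x b - 1) ^ p ^ i` because the other factors are `1`);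
  then induction on `n` with `Sym_sub_one_mul`.
* `Sym_gen`: the element `h = (∏ x b ^ (p ^ i * n b))⁻¹ * g` of `L (i + 1)` satisfies
  `h - 1 ∈ F (p ^ (i + 1)) ⊆ F (p ^ i + 1)`, so it has the symbol `0` of degree `p ^ i`
  (`Sym_zero`); the ordered product has the symbol `∑ b, n b * X b ^ p ^ i` by induction on the
  list `T.ord` and `Sym_sub_one_mul` (each `x b ^ (p ^ i * n b) ∈ L i`), finally
  `∑` over the list is `∑ b` since `T.ord` is a complete list without duplicates.
* `exists_sym`: `F v` is spanned by products of elements `g - 1`, `g ∈ L i`, with weight sum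
  `W ≥ v`. If `W ≥ v + 1`, use `Sym_zero`. If `W = v` use `T.gen`, `Sym_gen` and `Sym.list_prod`.
  Then `Sym.add` and `Sym.smul` and `Submodule.span_induction`.
-/

namespace Pool.Agent.IWA

namespace UTower

variable {p e : ℕ} [Fact p.Prime] {ι : Type} [Fintype ι] {P : Type} [Group P]
  (T : UTower p e ι P)

theorem Sym_sub_one_mul (J i : ℕ) {g h : P} (hg : g ∈ T.L i) (hh : h ∈ T.L i)
    {f f' : MvPolynomial ι (ZMod p)} (h1 : T.Sym J (p ^ i) f (T.el J g - 1))
    (h2 : T.Sym J (p ^ i) f' (T.el J h - 1)) : T.Sym J (p ^ i) (f + f') (T.el J (g * h) - 1) := by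
  have hp : 0 < p ^ i := Nat.pow_pos (Fact.out : p.Prime).pos
  refine Sym.congr (h1.add h2) ?_
  have h3 : T.el J (g * h) - 1 - (T.el J g - 1 + (T.el J h - 1))
      = (T.el J g - 1) * (T.el J h - 1) := by
    rw [map_mul]
    noncomm_ring
  rw [h3]
  exact T.F_anti J (by omega) (T.F_mul J (T.el_sub_one_mem J i hg) (T.el_sub_one_mem J i hh))

private theorem SymGen_charP (J : ℕ) : CharP (T.R J) p :=
  charP_of_injective_algebraMap (algebraMap (ZMod p) (T.R J)).injective p

private theorem SymGen_mon_single (J : ℕ) (b : ι) (m : ℕ) :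
    T.mon J (Finsupp.single b m) = (T.el J (T.x b) - 1) ^ m := by
  classical
  unfold mon
  rw [List.prod_map_eq_pow_single b _ (fun c hc _ => by
    rw [Finsupp.single_eq_of_ne hc, pow_zero])]
  rw [List.count_eq_one_of_mem T.nodup (T.complete b), pow_one, Finsupp.single_eq_same]

private theorem SymGen_x_one (J i : ℕ) (b : ι) :
    T.Sym J (p ^ i) (MvPolynomial.X b ^ p ^ i) (T.el J (T.x b ^ p ^ i) - 1) := by
  have := T.SymGen_charP J
  have h1 : T.Phi J (MvPolynomial.X b ^ p ^ i) = T.el J (T.x b ^ p ^ i) - 1 := by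
    rw [MvPolynomial.X_pow_eq_monomial, Phi_monomial, one_smul, SymGen_mon_single,
      sub_pow_char_pow_of_commute _ _ (Commute.one_right _), one_pow, map_pow]
  rw [← h1]
  exact Sym_Phi (MvPolynomial.isHomogeneous_X_pow b (p ^ i))

theorem Sym_x (J i : ℕ) (b : ι) (n : ℕ) :
    T.Sym J (p ^ i) (MvPolynomial.C (n : ZMod p) * MvPolynomial.X b ^ p ^ i)
      (T.el J (T.x b ^ (p ^ i * n)) - 1) := by
  induction n with
  | zero =>
    simp only [Nat.cast_zero, map_zero, zero_mul, mul_zero, pow_zero, map_one, sub_self]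
    exact Sym_zero (Submodule.zero_mem _)
  | succ n ih =>
    have h1 : T.x b ^ (p ^ i * n) ∈ T.L i := by
      rw [pow_mul]
      exact (T.L i).pow_mem (T.pow i b) _
    have h2 := T.Sym_sub_one_mul J i h1 (T.pow i b) ih (T.SymGen_x_one J i b)
    have h3 : T.x b ^ (p ^ i * (n + 1)) = T.x b ^ (p ^ i * n) * T.x b ^ p ^ i := by
      rw [mul_add, mul_one, pow_add]
    have h4 : (MvPolynomial.C ((n + 1 : ℕ) : ZMod p) * MvPolynomial.X b ^ p ^ i :
        MvPolynomial ι (ZMod p)) =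
        MvPolynomial.C (n : ZMod p) * MvPolynomial.X b ^ p ^ i + MvPolynomial.X b ^ p ^ i := by
      rw [Nat.cast_add, Nat.cast_one, map_add, map_one, add_mul, one_mul]
    rw [h3, h4]
    exact h2

private theorem SymGen_list (J i : ℕ) (n : ι → ℕ) (l : List ι) :
    (l.map fun b => T.x b ^ (p ^ i * n b)).prod ∈ T.L i ∧
    T.Sym J (p ^ i)
      (l.map fun b => MvPolynomial.C (n b : ZMod p) * MvPolynomial.X b ^ p ^ i).sum
      (T.el J ((l.map fun b => T.x b ^ (p ^ i * n b)).prod) - 1) := by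
  induction l with
  | nil =>
    refine ⟨by simp, ?_⟩
    simp only [List.map_nil, List.sum_nil, List.prod_nil, map_one, sub_self]
    exact Sym_zero (Submodule.zero_mem _)
  | cons b l ih =>
    have hb : T.x b ^ (p ^ i * n b) ∈ T.L i := by
      rw [pow_mul]
      exact (T.L i).pow_mem (T.pow i b) _
    refine ⟨?_, ?_⟩
    · rw [List.map_cons, List.prod_cons]
      exact (T.L i).mul_mem hb ih.1
    · rw [List.map_cons, List.map_cons, List.sum_cons, List.prod_cons]
      exact T.Sym_sub_one_mul J i hb ih.1 (T.Sym_x J i b (n b)) ih.2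

theorem Sym_gen (J i : ℕ) {g : P} (n : ι → ℕ)
    (hn : ((T.ord.map fun b => T.x b ^ (p ^ i * n b)).prod)⁻¹ * g ∈ T.L (i + 1)) :
    T.Sym J (p ^ i) (∑ b, MvPolynomial.C (n b : ZMod p) * MvPolynomial.X b ^ p ^ i)
      (T.el J g - 1) := by
  classical
  have hl := T.SymGen_list J i n T.ord
  have hp : 0 < p ^ i := Nat.pow_pos (Fact.out : p.Prime).pos
  have hp2 : 2 ≤ p := (Fact.out : p.Prime).two_le
  have h5 : p ^ i + 1 ≤ p ^ (i + 1) := by
    rw [pow_succ]
    nlinarith
  have h6 : T.Sym J (p ^ i) 0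
      (T.el J (((T.ord.map fun b => T.x b ^ (p ^ i * n b)).prod)⁻¹ * g) - 1) :=
    Sym_zero (T.F_anti J h5 (T.el_sub_one_mem J (i + 1) hn))
  have h7 := T.Sym_sub_one_mul J i hl.1 (T.anti (Nat.le_succ i) hn) hl.2 h6
  rw [mul_inv_cancel_left, add_zero] at h7
  have h8 : T.ord.toFinset = Finset.univ := by
    ext b
    simp [T.complete b]
  rw [← h8, List.sum_toFinset _ T.nodup]
  exact h7

theorem exists_sym (J v : ℕ) {a : T.R J} (ha : a ∈ T.F J v) : ∃ f, T.Sym J v f a := by
  classical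
  unfold F at ha
  induction ha using Submodule.span_induction with
  | mem a h =>
    obtain ⟨l, hl, hv, rfl⟩ := h
    rcases Nat.eq_or_lt_of_le hv with hv | hv
    · choose! n hn using fun (s : ℕ × P) (hs : s.2 ∈ T.L s.1) => T.gen s.1 s.2 hs
      refine ⟨(l.map fun s => ∑ b, MvPolynomial.C (n s b : ZMod p) *
        MvPolynomial.X b ^ p ^ s.1).prod, ?_⟩
      rw [hv]
      exact Sym.list_prod l (fun s => p ^ s.1) _ _
        fun s hs => T.Sym_gen J s.1 (n s) (hn s (hl s hs))
    · exact ⟨0, Sym_zero (Submodule.subset_span ⟨l, hl, hv, rfl⟩)⟩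
  | zero => exact ⟨0, Sym_zero (Submodule.zero_mem _)⟩
  | add a b _ _ iha ihb =>
    obtain ⟨f, hf⟩ := iha
    obtain ⟨g, hg⟩ := ihb
    exact ⟨f + g, hf.add hg⟩
  | smul c a _ iha =>
    obtain ⟨f, hf⟩ := iha
    exact ⟨c • f, hf.smul c⟩

end UTower

end Pool.Agent.IWA
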