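import Mathlib
import Pool.Agent.IWA.SymGen
import Pool.Agent.IWA.Nilp

/-!
# IWA / MonBasis : the ordered monomials form a basis (MP_05b873_al)

Paper proof. By `exists_sym`, `F v = Phi (homogeneous of degree v) + F (v + 1)`, so
`F v ⊆ span {mon α : v ≤ |α|}` modulo `F w` for every `w ≥ v` (induction on `w`), and `F w = ⊥` for
large `w` (`exists_F_eq_bot`, `F_anti`). Monomials with some `α b ≥ p ^ J` are zero
(`mon_eq_zero`). This gives `F_eq_span`. For `v = 0`: the `(p ^ J) ^ D` monomials of the box span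
the space `R J` (`F_zero`), which has dimension `p ^ (J * D)` (`finrank_R`); hence they are linearly
independent (`linearIndependent_of_top_le_span_of_card_eq_finrank`). The other statements follow:
if `f` is homogeneous of degree `v` and `Phi f ∈ F (v + 1) = span {mon α : v + 1 ≤ |α|, α in box}`,
then by linear independence all coefficients of `f` at `α` in the box (`|α| = v`) vanish.
-/

namespace Pool.Agent.IWA

namespace UTower

variable {p e : ℕ} [Fact p.Prime] {ι : Type} [Fintype ι] {P : Type} [Group P]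
  (T : UTower p e ι P)

private theorem MonBasis_deg {f : MvPolynomial ι (ZMod p)} {v : ℕ} (hf : f.IsHomogeneous v)
    {α : ι →₀ ℕ} (hα : α ∈ f.support) : ∑ b, α b = v := by
  have h1 := hf (MvPolynomial.mem_support_iff.1 hα)
  have h2 : Finsupp.degree α = Finsupp.weight (1 : ι → ℕ) α := by
    rw [Finsupp.degree_eq_weight_one]
    rfl
  rw [← h1, ← h2, Finsupp.degree_eq_sum]

private theorem MonBasis_Phi (J : ℕ) (f : MvPolynomial ι (ZMod p)) :
    T.Phi J f = ∑ α ∈ f.support, f.coeff α • T.mon J α := by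
  conv_lhs => rw [← MvPolynomial.support_sum_monomial_coeff f]
  rw [map_sum]
  exact Finset.sum_congr rfl fun α _ => T.Phi_monomial J α _

private theorem MonBasis_le (J W : ℕ) (hW : T.F J W = ⊥) (k : ℕ) : ∀ v, W ≤ v + k →
    T.F J v ≤ Submodule.span (ZMod p)
      (T.mon J '' {α : ι →₀ ℕ | v ≤ ∑ b, α b ∧ ∀ b, α b < p ^ J}) := by
  induction k with
  | zero =>
    intro v hv
    have h1 := T.F_anti J hv
    rw [add_zero, hW] at h1
    exact h1.trans bot_le
  | succ k ih =>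
    intro v hv a ha
    obtain ⟨f, hf, hfa⟩ := T.exists_sym J v ha
    have h1 := ih (v + 1) (by omega) hfa
    have h2 : Submodule.span (ZMod p)
        (T.mon J '' {α : ι →₀ ℕ | v + 1 ≤ ∑ b, α b ∧ ∀ b, α b < p ^ J}) ≤
        Submodule.span (ZMod p)
        (T.mon J '' {α : ι →₀ ℕ | v ≤ ∑ b, α b ∧ ∀ b, α b < p ^ J}) := by
      refine Submodule.span_mono (Set.image_mono ?_)
      rintro α ⟨h3, h4⟩
      exact ⟨by omega, h4⟩
    have h3 : T.Phi J f ∈ Submodule.span (ZMod p)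
        (T.mon J '' {α : ι →₀ ℕ | v ≤ ∑ b, α b ∧ ∀ b, α b < p ^ J}) := by
      rw [T.MonBasis_Phi]
      refine Submodule.sum_mem _ fun α hα => Submodule.smul_mem _ _ ?_
      by_cases hb : ∀ b, α b < p ^ J
      · exact Submodule.subset_span ⟨α, ⟨(MonBasis_deg hf hα).ge, hb⟩, rfl⟩
      · push Not at hb
        obtain ⟨b, hb⟩ := hb
        rw [T.mon_eq_zero J α b hb]
        exact Submodule.zero_mem _
    have h4 := Submodule.add_mem _ (h2 h1) h3
    rwa [sub_add_cancel] at h4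

/-- the box -/
private noncomputable def MonBasis_box (ι : Type) [Fintype ι] (m : ℕ) :
    {α : ι →₀ ℕ // ∀ b, α b < m} ≃ (ι → Fin m) where
  toFun α b := ⟨α.1 b, α.2 b⟩
  invFun g := ⟨Finsupp.equivFunOnFinite.symm fun b => (g b : ℕ), fun b => (g b).2⟩
  left_inv _ := Subtype.ext (Finsupp.ext fun _ => rfl)
  right_inv _ := funext fun _ => Fin.ext rfl

theorem F_eq_span (J v : ℕ) : T.F J v = Submodule.span (ZMod p)
    (T.mon J '' {α : ι →₀ ℕ | v ≤ ∑ b, α b ∧ ∀ b, α b < p ^ J}) := by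
  obtain ⟨W, hW⟩ := T.exists_F_eq_bot J
  refine le_antisymm (T.MonBasis_le J W hW W v (by omega)) ?_
  refine Submodule.span_le.2 ?_
  rintro x ⟨α, ⟨h1, -⟩, rfl⟩
  exact T.F_anti J h1 (T.mon_mem J α)

omit [Fact p.Prime] in
private theorem MonBasis_range (J v : ℕ) :
    (T.mon J '' {α : ι →₀ ℕ | v ≤ ∑ b, α b ∧ ∀ b, α b < p ^ J}) ⊆
    Set.range (fun α : {α : ι →₀ ℕ // ∀ b, α b < p ^ J} => T.mon J α.1) := by
  rintro x ⟨α, ⟨-, h2⟩, rfl⟩
  exact ⟨⟨α, h2⟩, rfl⟩

private theorem MonBasis_span (J : ℕ) : (⊤ : Submodule (ZMod p) (T.R J)) ≤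
    Submodule.span (ZMod p)
    (Set.range (fun α : {α : ι →₀ ℕ // ∀ b, α b < p ^ J} => T.mon J α.1)) := by
  rw [← T.F_zero J, T.F_eq_span J 0]
  exact Submodule.span_mono (T.MonBasis_range J 0)

theorem linearIndependent_mon (J : ℕ) :
    LinearIndependent (ZMod p) (fun α : {α : ι →₀ ℕ // ∀ b, α b < p ^ J} => T.mon J α.1) := by
  classical
  let _ : Fintype {α : ι →₀ ℕ // ∀ b, α b < p ^ J} := Fintype.ofEquiv _ (MonBasis_box ι (p ^ J)).symm
  refine linearIndependent_of_top_le_span_of_card_eq_finrank (T.MonBasis_span J) ?_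
  rw [T.finrank_R, Fintype.card_congr (MonBasis_box ι (p ^ J)), Fintype.card_fun, Fintype.card_fin,
    pow_mul]

theorem span_mon (J : ℕ) : Submodule.span (ZMod p)
    (Set.range (fun α : {α : ι →₀ ℕ // ∀ b, α b < p ^ J} => T.mon J α.1)) = ⊤ := by
  exact le_antisymm le_top (T.MonBasis_span J)

private noncomputable def MonBasis_basis (J : ℕ) :
    Module.Basis {α : ι →₀ ℕ // ∀ b, α b < p ^ J} (ZMod p) (T.R J) :=
  Module.Basis.mk (T.linearIndependent_mon J) (T.MonBasis_span J)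

private theorem MonBasis_coord (J : ℕ) {α β : ι →₀ ℕ} (hα : ∀ b, α b < p ^ J) :
    (T.MonBasis_basis J).coord ⟨α, hα⟩ (T.mon J β) = if β = α then 1 else 0 := by
  by_cases hβ : ∀ b, β b < p ^ J
  · have h1 : T.mon J β = T.MonBasis_basis J ⟨β, hβ⟩ := by
      unfold MonBasis_basis
      rw [Module.Basis.mk_apply]
    rw [h1, Module.Basis.coord_apply, Module.Basis.repr_self, Finsupp.single_apply]
    exact if_congr (by rw [Subtype.mk.injEq]) rfl rfl
  · have h2 : β ≠ α := by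
      rintro rfl
      exact hβ hα
    push Not at hβ
    obtain ⟨b, hb⟩ := hβ
    rw [T.mon_eq_zero J β b hb, map_zero, if_neg h2]

private theorem MonBasis_coord_Phi (J : ℕ) {α : ι →₀ ℕ} (hα : ∀ b, α b < p ^ J)
    (f : MvPolynomial ι (ZMod p)) :
    (T.MonBasis_basis J).coord ⟨α, hα⟩ (T.Phi J f) = f.coeff α := by
  rw [T.MonBasis_Phi, map_sum]
  have h1 : ∀ β ∈ f.support, (T.MonBasis_basis J).coord ⟨α, hα⟩ (f.coeff β • T.mon J β) =
      if β = α then f.coeff β else 0 := by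
    intro β _
    rw [map_smul, T.MonBasis_coord, smul_eq_mul, mul_ite, mul_one, mul_zero]
  rw [Finset.sum_congr rfl h1, Finset.sum_ite_eq']
  split_ifs with h2
  · rfl
  · exact (MvPolynomial.notMem_support_iff.1 h2).symm

private theorem MonBasis_coord_F (J v : ℕ) {α : ι →₀ ℕ} (hα : ∀ b, α b < p ^ J)
    (hv : ∑ b, α b < v) {a : T.R J} (ha : a ∈ T.F J v) :
    (T.MonBasis_basis J).coord ⟨α, hα⟩ a = 0 := by
  have h1 : T.F J v ≤ LinearMap.ker ((T.MonBasis_basis J).coord ⟨α, hα⟩) := by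
    rw [T.F_eq_span J v]
    refine Submodule.span_le.2 ?_
    rintro x ⟨β, ⟨h2, -⟩, rfl⟩
    rw [SetLike.mem_coe, LinearMap.mem_ker, T.MonBasis_coord, if_neg]
    rintro rfl
    omega
  exact h1 ha

theorem Phi_mem_iff (J v : ℕ) {f : MvPolynomial ι (ZMod p)} (hf : f.IsHomogeneous v) :
    T.Phi J f ∈ T.F J (v + 1) ↔ ∀ α ∈ f.support, ∃ b, p ^ J ≤ α b := by
  constructor
  · intro h α hα
    by_contra hcon
    push Not at hcon
    have h1 := T.MonBasis_coord_F J (v + 1) hcon (by rw [MonBasis_deg hf hα]; omega) h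
    rw [T.MonBasis_coord_Phi] at h1
    exact MvPolynomial.mem_support_iff.1 hα h1
  · intro h
    rw [T.MonBasis_Phi]
    refine Submodule.sum_mem _ fun α hα => ?_
    obtain ⟨b, hb⟩ := h α hα
    rw [T.mon_eq_zero J α b hb, smul_zero]
    exact Submodule.zero_mem _

variable {T} in
theorem Sym.mem_succ_iff {J v : ℕ} {f : MvPolynomial ι (ZMod p)} {a : T.R J}
    (h : T.Sym J v f a) : a ∈ T.F J (v + 1) ↔ ∀ α ∈ f.support, ∃ b, p ^ J ≤ α b := by
  rw [← T.Phi_mem_iff J v h.1]
  constructor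
  · intro h1
    have h2 := Submodule.sub_mem _ h1 h.2
    rwa [sub_sub_cancel] at h2
  · intro h1
    have h2 := Submodule.add_mem _ h.2 h1
    rwa [sub_add_cancel] at h2

variable {T} in
/-- an element with a symbol that has a monomial in the box is not zero -/
theorem Sym.ne_zero {J v : ℕ} {f : MvPolynomial ι (ZMod p)} {a : T.R J}
    (h : T.Sym J v f a) (h2 : ∃ α ∈ f.support, ∀ b, α b < p ^ J) : a ≠ 0 := by
  intro h0
  obtain ⟨α, hα, h3⟩ := h2
  have h4 : a ∈ T.F J (v + 1) := by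
    rw [h0]
    exact Submodule.zero_mem _
  obtain ⟨b, hb⟩ := (h.mem_succ_iff.1 h4) α hα
  exact absurd (h3 b) (not_lt.2 hb)

end UTower

end Pool.Agent.IWA
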