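import Mathlib
import Pool.Agent.IWA.MonBasis

/-!
# IWA / Trans : transition homomorphisms, symbols of elements of the completed group algebra
(MP_05b873_al)

Paper proofs.
* `tr_el`, `tr_mon`, `tr_Phi`: the transition maps send group elements to group elements.
* `tr_mem`: generators of `F J' v` go to generators of `F J v`.
* `Sym.tr`: apply `tr` to `a - Phi f ∈ F (v + 1)`.
* `proj_tr`: induction on the difference of the levels (definition of `Hat`).
* `exists_hat_sym`: let `v` be given with `proj J a ∈ F J v` for all `J`. For each `J` there is a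
  symbol `f_J` (`exists_sym`); remove the monomials outside of the box of level `J`. By `Sym.tr` and
  `Sym.mem_succ_iff` (applied to the difference of two symbols of the same element), for
  `J ≤ J'` the coefficients of `f_J` and `f_J'` agree on the box of level `J`. If `v < p ^ J`, all
  exponents of total degree `v` lie in the box, so `f_J' = f_J` for all `J' ≥ J`. Let `f` be this
  common polynomial; by `Sym.tr` it is also a symbol at all smaller levels.
* `exists_hat_order`: if `a ≠ 0` then `proj J a ≠ 0` for some `J`; `F J w = ⊥` for some `w`, so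
  `{v | ∀ J, proj J a ∈ F J v}` is bounded; it contains `0` (`F_zero`); take its maximum `v` and
  `f` from `exists_hat_sym`. If `f = 0`, then `proj J a ∈ F J (v + 1)` for all `J`, a
  contradiction.
-/

namespace Pool.Agent.IWA

namespace UTower

variable {p e : ℕ} [Fact p.Prime] {ι : Type} [Fintype ι] {P : Type} [Group P]
  (T : UTower p e ι P)

theorem tr_el {J J' : ℕ} (h : J ≤ J') (g : P) : T.tr h (T.el J' g) = T.el J g := by
  simp only [tr, el, MonoidHom.comp_apply, MonoidAlgebra.of_apply, QuotientGroup.mk'_apply,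
    MonoidAlgebra.mapDomainRingHom_apply, MonoidAlgebra.mapDomain_single]
  rfl

theorem tr_mon {J J' : ℕ} (h : J ≤ J') (α : ι →₀ ℕ) : T.tr h (T.mon J' α) = T.mon J α := by
  unfold mon
  rw [map_list_prod, List.map_map]
  congr 1
  apply List.map_congr_left
  intro b _
  rw [Function.comp_apply, map_pow, map_sub, map_one, tr_el]

theorem tr_smul {J J' : ℕ} (h : J ≤ J') (c : ZMod p) (a : T.R J') :
    T.tr h (c • a) = c • T.tr h a := by
  unfold tr
  exact MonoidAlgebra.mapDomain_smul _ _ _

theorem tr_Phi {J J' : ℕ} (h : J ≤ J') (f : MvPolynomial ι (ZMod p)) :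
    T.tr h (T.Phi J' f) = T.Phi J f := by
  rw [f.as_sum, map_sum, map_sum, map_sum]
  refine Finset.sum_congr rfl fun α _ => ?_
  rw [Phi_monomial, Phi_monomial, tr_smul, tr_mon]

theorem tr_mem {J J' : ℕ} (h : J ≤ J') (v : ℕ) {a : T.R J'} (ha : a ∈ T.F J' v) :
    T.tr h a ∈ T.F J v := by
  unfold F at ha
  induction ha using Submodule.span_induction with
  | mem x hx =>
    obtain ⟨l, h1, h2, h3⟩ := hx
    refine Submodule.subset_span ⟨l, h1, h2, ?_⟩
    rw [h3, map_list_prod, List.map_map]
    congr 1
    apply List.map_congr_left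
    intro b _
    rw [Function.comp_apply, map_sub, map_one, tr_el]
  | zero => rw [map_zero]; exact Submodule.zero_mem _
  | add x y _ _ hx hy => rw [map_add]; exact Submodule.add_mem _ hx hy
  | smul c x _ hx => rw [tr_smul]; exact Submodule.smul_mem _ c hx

variable {T} in
theorem Sym.tr {J J' : ℕ} (h : J ≤ J') {v : ℕ} {f : MvPolynomial ι (ZMod p)} {a : T.R J'}
    (ha : T.Sym J' v f a) : T.Sym J v f (T.tr h a) := by
  refine ⟨ha.1, ?_⟩
  rw [← T.tr_Phi h, ← map_sub]
  exact T.tr_mem h _ ha.2

theorem tr_tr {J J' J'' : ℕ} (h : J ≤ J') (h' : J' ≤ J'') (a : T.R J'') :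
    T.tr h (T.tr h' a) = T.tr (h.trans h') a := by
  induction a using MonoidAlgebra.induction_on with
  | of g =>
    obtain ⟨g, rfl⟩ := QuotientGroup.mk_surjective g
    have h1 := T.tr_el h' g
    have h2 := T.tr_el h g
    have h3 := T.tr_el (h.trans h') g
    change T.tr h (T.tr h' (T.el J'' g)) = T.tr (h.trans h') (T.el J'' g)
    rw [h1, h2, h3]
  | add x y hx hy => rw [map_add, map_add, map_add, hx, hy]
  | smul c x hx => rw [tr_smul, tr_smul, tr_smul, hx]

theorem tr_proj {J J' : ℕ} (h : J ≤ J') (a : T.Hat) : T.tr h (T.proj J' a) = T.proj J a := by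
  induction J', h using Nat.le_induction with
  | base =>
    have h1 : ∀ b : T.R J, T.tr (le_refl J) b = b := by
      intro b
      induction b using MonoidAlgebra.induction_on with
      | of g =>
        obtain ⟨g, rfl⟩ := QuotientGroup.mk_surjective g
        exact T.tr_el (le_refl J) g
      | add x y hx hy => rw [map_add, hx, hy]
      | smul c x hx => rw [tr_smul, hx]
    exact h1 _
  | succ J' hJ ih =>
    rw [← T.tr_tr hJ (Nat.le_succ J')]
    rw [← ih]
    congr 1
    exact a.2 J'

theorem Hat_ext {a b : T.Hat} (h : ∀ J, T.proj J a = T.proj J b) : a = b := by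
  apply Subtype.ext
  funext J
  exact h J

/-- at a level with `v < p ^ J`, the symbol of degree `v` is unique -/
theorem Sym_unique {J v : ℕ} (hv : v < p ^ J) {f g : MvPolynomial ι (ZMod p)} {a : T.R J}
    (hf : T.Sym J v f a) (hg : T.Sym J v g a) : f = g := by
  have h1 : T.Sym J v (f + (-1 : ZMod p) • g) (a + (-1 : ZMod p) • a) := hf.add (hg.smul (-1))
  have h2 : a + (-1 : ZMod p) • a = 0 := by
    rw [neg_smul, one_smul, add_neg_cancel]
  rw [h2] at h1
  have h3 := (h1.mem_succ_iff).1 (Submodule.zero_mem _)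
  have h4 : f + (-1 : ZMod p) • g = 0 := by
    rw [← MvPolynomial.support_eq_empty]
    by_contra hne
    obtain ⟨α, hα⟩ := Finset.nonempty_iff_ne_empty.2 hne
    obtain ⟨b, hb⟩ := h3 α hα
    have h5 := h1.1 (MvPolynomial.mem_support_iff.1 hα)
    have h6 : α b ≤ v := by
      rw [← h5]
      have h7 := Finsupp.le_degree b α
      rw [Finsupp.degree_eq_weight_one] at h7
      exact h7
    omega
  rw [neg_smul, one_smul] at h4
  exact add_neg_eq_zero.1 h4

theorem exists_hat_sym (a : T.Hat) (v : ℕ) (h : ∀ J, T.proj J a ∈ T.F J v) :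
    ∃ f, ∀ J, T.Sym J v f (T.proj J a) := by
  have hv : v < p ^ v := Nat.lt_pow_self (Fact.out : p.Prime).one_lt
  obtain ⟨f, hf⟩ := T.exists_sym v v (h v)
  refine ⟨f, fun J => ?_⟩
  rcases le_total J v with hJ | hJ
  · rw [← T.tr_proj hJ]
    exact hf.tr hJ
  · obtain ⟨g, hg⟩ := T.exists_sym J v (h J)
    have h1 := hg.tr hJ
    rw [T.tr_proj hJ] at h1
    rw [T.Sym_unique hv hf h1]
    exact hg

theorem exists_hat_order (a : T.Hat) (ha : a ≠ 0) :
    ∃ v f, f ≠ 0 ∧ ∀ J, T.Sym J v f (T.proj J a) := by
  classical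
  have h1 : ∃ J, T.proj J a ≠ 0 := by
    by_contra hcon
    push Not at hcon
    apply ha
    apply T.Hat_ext
    intro J
    rw [hcon J, map_zero]
  obtain ⟨J, hJ⟩ := h1
  obtain ⟨w, hw⟩ := T.exists_F_eq_bot J
  have h2 : ∃ v, ¬ ∀ K, T.proj K a ∈ T.F K v := by
    refine ⟨w, fun h => hJ ?_⟩
    have := h J
    rw [hw] at this
    exact (Submodule.mem_bot _).1 this
  have h3 : Nat.find h2 ≠ 0 := by
    intro h0
    have h4 := Nat.find_spec h2
    rw [h0] at h4
    apply h4
    intro K
    rw [F_zero]
    exact Submodule.mem_top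
  obtain ⟨v, hv⟩ := Nat.exists_eq_succ_of_ne_zero h3
  have h5 : ∀ K, T.proj K a ∈ T.F K v := by
    have := Nat.find_min h2 (m := v) (by omega)
    push Not at this
    exact this
  have h6 : ¬ ∀ K, T.proj K a ∈ T.F K (v + 1) := by
    have := Nat.find_spec h2
    rw [hv] at this
    exact this
  obtain ⟨f, hf⟩ := T.exists_hat_sym a v h5
  refine ⟨v, f, ?_, hf⟩
  rintro rfl
  apply h6
  intro K
  have := (hf K).2
  rw [map_zero, sub_zero] at this
  exact this

/-- group elements in the completed group algebra -/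
noncomputable def hel : P →* T.Hat where
  toFun g := ⟨fun J => T.el J g, fun J => T.tr_el (Nat.le_succ J) g⟩
  map_one' := by
    apply Subtype.ext
    funext J
    exact map_one (T.el J)
  map_mul' g h := by
    apply Subtype.ext
    funext J
    exact map_mul (T.el J) g h

theorem proj_hel (J : ℕ) (g : P) : T.proj J (T.hel g) = T.el J g := rfl

/-- the polynomial map to the completed group algebra -/
noncomputable def hPhi (f : MvPolynomial ι (ZMod p)) : T.Hat :=
  ⟨fun J => T.Phi J f, fun J => T.tr_Phi (Nat.le_succ J) f⟩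

theorem proj_hPhi (J : ℕ) (f : MvPolynomial ι (ZMod p)) : T.proj J (T.hPhi f) = T.Phi J f := rfl

end UTower

end Pool.Agent.IWA
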