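import Mathlib
import Pool.Agent.IWA.Trans

/-!
# IWA / Coef : expansions of the elements of the completed group algebra (MP_05b873_al)

Paper proof of `exists_coef`. For each `J` the monomials `mon J α`, `α` in the box of level `J`,
form a basis of `R J` (`linearIndependent_mon`, `span_mon`), so
`proj J δ = ∑_{α ∈ box (p ^ J)} c_J α • mon J α` for a unique `c_J`. Applying `tr` (`tr_mon`,
`tr_smul`, `mon_eq_zero` for `α` outside of the box of level `J`) gives `c_(J+1) α = c_J α` for `α`
in the box of level `J`, by induction `c_J' α = c_J α` for all `J' ≥ J`. Define `c α = c_J α` for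
any `J` with `α ∈ box (p ^ J)` (for instance `J = ∑ b, α b`, since `n < p ^ n`).
-/

set_option linter.all false
namespace Pool.Agent.IWA

/-- exponents with all entries smaller than `q` -/
noncomputable def box (ι : Type) [Fintype ι] (q : ℕ) : Finset (ι →₀ ℕ) := by
  classical
  exact Finset.univ.image fun f : ι → Fin q =>
    (Finsupp.equivFunOnFinite.symm fun b => (f b : ℕ) : ι →₀ ℕ)

theorem mem_box {ι : Type} [Fintype ι] {q : ℕ} {α : ι →₀ ℕ} : α ∈ box ι q ↔ ∀ b, α b < q := by
  classical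
  unfold box
  rw [Finset.mem_image]
  constructor
  · rintro ⟨f, -, rfl⟩ b
    exact (f b).2
  · intro h
    refine ⟨fun b => ⟨α b, h b⟩, Finset.mem_univ _, ?_⟩
    ext b
    rfl

namespace UTower

variable {p e : ℕ} [Fact p.Prime] {ι : Type} [Fintype ι] {P : Type} [Group P]
  (T : UTower p e ι P)

private theorem Coef_ex (J : ℕ) (a : T.R J) : ∃ c : (ι →₀ ℕ) → ZMod p,
    a = ∑ α ∈ box ι (p ^ J), c α • T.mon J α := by
  classical
  have ha : a ∈ Submodule.span (ZMod p)
      (Set.range (fun α : {α : ι →₀ ℕ // ∀ b, α b < p ^ J} => T.mon J α.1)) := by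
    rw [T.span_mon J]
    exact Submodule.mem_top
  induction ha using Submodule.span_induction with
  | mem x hx =>
    obtain ⟨⟨α, hα⟩, rfl⟩ := hx
    refine ⟨fun β => if β = α then 1 else 0, ?_⟩
    rw [Finset.sum_eq_single α]
    · simp
    · intro β _ hβ
      simp [hβ]
    · intro h
      exact absurd (mem_box.2 hα) h
  | zero => exact ⟨0, by simp⟩
  | add x y _ _ hx hy =>
    obtain ⟨c, hc⟩ := hx
    obtain ⟨d, hd⟩ := hy
    refine ⟨fun α => c α + d α, ?_⟩
    simp only [add_smul, Finset.sum_add_distrib]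
    rw [← hc, ← hd]
  | smul r x _ hx =>
    obtain ⟨c, hc⟩ := hx
    refine ⟨fun α => r * c α, ?_⟩
    simp only [mul_smul, ← Finset.smul_sum]
    rw [← hc]

private theorem Coef_uniq (J : ℕ) (c d : (ι →₀ ℕ) → ZMod p)
    (h : ∑ α ∈ box ι (p ^ J), c α • T.mon J α = ∑ α ∈ box ι (p ^ J), d α • T.mon J α) :
    ∀ α ∈ box ι (p ^ J), c α = d α := by
  classical
  have hli := T.linearIndependent_mon J
  rw [linearIndependent_iff'] at hli
  have h1 : ∑ α ∈ (box ι (p ^ J)).subtype (fun α => ∀ b, α b < p ^ J),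
      (c α.1 - d α.1) • T.mon J α.1 = 0 := by
    have h2 : ∑ α ∈ (box ι (p ^ J)).subtype (fun α => ∀ b, α b < p ^ J),
        (c α.1 - d α.1) • T.mon J α.1 = ∑ α ∈ box ι (p ^ J), (c α - d α) • T.mon J α :=
      Finset.sum_subtype_of_mem (fun α => (c α - d α) • T.mon J α) fun α hα => mem_box.1 hα
    rw [h2]
    simp only [sub_smul, Finset.sum_sub_distrib]
    rw [h, sub_self]
  intro α hα
  have h3 := hli _ (fun α => c α.1 - d α.1) h1 ⟨α, mem_box.1 hα⟩
    (by rw [Finset.mem_subtype]; exact hα)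
  exact sub_eq_zero.1 h3

theorem exists_coef (δ : T.Hat) : ∃ c : (ι →₀ ℕ) → ZMod p,
    ∀ J, T.proj J δ = ∑ α ∈ box ι (p ^ J), c α • T.mon J α := by
  classical
  have hp : 1 < p := (Fact.out : p.Prime).one_lt
  choose C hC using fun J => Coef_ex T J (T.proj J δ)
  have key : ∀ J J' (h : J ≤ J'), ∀ α ∈ box ι (p ^ J), C J' α = C J α := by
    intro J J' h
    apply Coef_uniq T J
    rw [← hC J, ← T.tr_proj h δ, hC J', map_sum]
    have h1 : ∀ α, T.tr h (C J' α • T.mon J' α) = C J' α • T.mon J α := fun α => by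
      rw [T.tr_smul, T.tr_mon]
    simp only [h1]
    apply Finset.sum_subset
    · intro α hα
      rw [mem_box] at hα ⊢
      exact fun b => (hα b).trans_le (Nat.pow_le_pow_right hp.le h)
    · intro α _ hα
      rw [mem_box] at hα
      push_neg at hα
      obtain ⟨b, hb⟩ := hα
      rw [T.mon_eq_zero J α b hb, smul_zero]
  refine ⟨fun α => C (∑ b, α b) α, fun J => ?_⟩
  rw [hC J]
  refine Finset.sum_congr rfl fun α hα => ?_
  have h1 : α ∈ box ι (p ^ (∑ b, α b)) := by
    rw [mem_box]
    intro b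
    calc α b ≤ ∑ b, α b := Finset.single_le_sum (fun _ _ => Nat.zero_le _) (Finset.mem_univ b)
      _ < p ^ (∑ b, α b) := Nat.lt_pow_self hp
  have h2 := key J (max J (∑ b, α b)) (le_max_left _ _) α hα
  have h3 := key (∑ b, α b) (max J (∑ b, α b)) (le_max_right _ _) α h1
  rw [← h2, h3]

end UTower

end Pool.Agent.IWA
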