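import Mathlib
import Pool.Agent.IWA.Defs

/-!
# IWA / GLDefs : congruence subgroups of matrix groups (MP_05b873_al)
-/

namespace Pool.Agent.IWA

/-- the group of invertible matrices which are congruent to `1` modulo `p ^ i` -/
def cg (R : Type) [CommRing R] (N p i : ℕ) : Subgroup (Matrix (Fin N) (Fin N) R)ˣ where
  carrier := {u | ∃ a : Matrix (Fin N) (Fin N) R,
    (u : Matrix (Fin N) (Fin N) R) = 1 + ((p : R) ^ i) • a}
  mul_mem' := by
    rintro u v ⟨a, ha⟩ ⟨b, hb⟩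
    refine ⟨a + b + ((p : R) ^ i) • (a * b), ?_⟩
    rw [Units.val_mul, ha, hb, add_mul, mul_add, mul_add, one_mul, mul_one, one_mul, smul_add,
      smul_add, Matrix.smul_mul, Matrix.mul_smul]
    abel
  one_mem' := ⟨0, by simp⟩
  inv_mem' := by
    rintro u ⟨a, ha⟩
    refine ⟨-(a * (u⁻¹ : (Matrix (Fin N) (Fin N) R)ˣ)), ?_⟩
    have h1 : (u : Matrix (Fin N) (Fin N) R) * (u⁻¹ : (Matrix (Fin N) (Fin N) R)ˣ) = 1 :=
      Units.mul_inv u
    rw [smul_neg, ← Matrix.smul_mul]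
    have h2 : ((p : R) ^ i) • a = (u : Matrix (Fin N) (Fin N) R) - 1 := by rw [ha]; abel
    rw [h2, sub_mul, h1, one_mul]
    abel

theorem mem_cg {R : Type} [CommRing R] {N p i : ℕ} {u : (Matrix (Fin N) (Fin N) R)ˣ} :
    u ∈ cg R N p i ↔ ∃ a : Matrix (Fin N) (Fin N) R,
      (u : Matrix (Fin N) (Fin N) R) = 1 + ((p : R) ^ i) • a := Iff.rfl

/-- rings like `ℤ_p` and `ℤ_p[Y] / Y ^ M`: no `p`-torsion, `1 + p c` is always a unit, and the
elements `y l` (`l : Fin M`) form a basis modulo `p` over the prime field -/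
structure GoodRing (p : ℕ) (R : Type) [CommRing R] (M : ℕ) where
  y : Fin M → R
  tf : ∀ c : R, (p : R) * c = 0 → c = 0
  unit : ∀ c : R, IsUnit (1 + (p : R) * c)
  span : ∀ c : R, ∃ n : Fin M → ℕ, (p : R) ∣ c - ∑ l, (n l : R) * y l
  indep : ∀ n : Fin M → ℤ, (p : R) ∣ ∑ l, (n l : R) * y l → ∀ l, (p : ℤ) ∣ n l

/-- a tower on the group `cg R N p e` with the expected subgroups and generators -/
structure GLTower {p : ℕ} {R : Type} [CommRing R] {M : ℕ} (G : GoodRing p R M) (N e : ℕ) where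
  T : UTower p e (Fin M × Fin N × Fin N) (cg R N p e)
  hL : ∀ i, T.L i = (cg R N p (e + i)).subgroupOf (cg R N p e)
  hx : ∀ l j k, (((T.x (l, j, k) : cg R N p e) : (Matrix (Fin N) (Fin N) R)ˣ) :
    Matrix (Fin N) (Fin N) R) = 1 + Matrix.single j k ((p : R) ^ e * G.y l)

end Pool.Agent.IWA
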