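import Mathlib
import Pool.Agent.IWA.GLDefs

/-!
# IWA / Inst : the rings `ℤ_p` and `ℤ_p[Y] / Y ^ M` (MP_05b873_al)

Paper proofs. `ℤ_p`: no torsion (integral domain of characteristic `0`), `1 + p c` has norm `1`
(`PadicInt.isUnit_iff`), every element is congruent to a natural number modulo `p`
(`PadicInt.exists_mem_range`, `PadicInt.appr` or `PadicInt.toZMod`), `p ∣ n` in `ℤ_p` iff `p ∣ n` in
`ℤ`.

`ℤ_p[Y] / (Y ^ M)`, `y l = Y ^ l`: elements are represented by polynomials `f`, and `f ∈ (Y ^ M)` iff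
the coefficients of index `< M` vanish (`Polynomial.X_pow_dvd_iff`). No torsion: `p f ∈ (Y ^ M)`
implies `f ∈ (Y ^ M)`. `1 + p c`: the class of `f` with constant term `a = 1 + p c_0`, a unit of
`ℤ_p`; `f = a + Y g` and `Y` is nilpotent, `IsNilpotent.isUnit_add_left_of_commute` or similar.
`span`: choose natural numbers `n l ≡ f_l` modulo `p` for `l < M`. `indep`: if `∑ n l Y ^ l = p g`
modulo `Y ^ M` then `n l = p g_l` in `ℤ_p` for `l < M`.
-/

namespace Pool.Agent.IWA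

open Polynomial

/-- the ring `ℤ_p[Y] / Y ^ M` -/
abbrev RM (p : ℕ) [Fact p.Prime] (M : ℕ) : Type :=
  ℤ_[p][X] ⧸ Ideal.span {(X : ℤ_[p][X]) ^ M}

private theorem Inst_p_ne (p : ℕ) [Fact p.Prime] : (p : ℤ_[p]) ≠ 0 :=
  Nat.cast_ne_zero.mpr (Fact.out : p.Prime).ne_zero

private theorem Inst_unit (p : ℕ) [Fact p.Prime] (c : ℤ_[p]) : IsUnit (1 + (p : ℤ_[p]) * c) := by
  by_contra h
  rw [PadicInt.isUnit_iff] at h
  have h1 : ‖1 + (p : ℤ_[p]) * c‖ < 1 := lt_of_le_of_ne (PadicInt.norm_le_one _) h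
  rw [PadicInt.norm_lt_one_iff_dvd] at h1
  have h2 : (p : ℤ_[p]) ∣ 1 := by
    have := dvd_sub h1 (dvd_mul_right (p : ℤ_[p]) c)
    simpa using this
  exact PadicInt.prime_p.not_isUnit (isUnit_of_dvd_one h2)

private theorem Inst_range (p : ℕ) [Fact p.Prime] (c : ℤ_[p]) :
    ∃ n : ℕ, (p : ℤ_[p]) ∣ c - n := by
  obtain ⟨n, _, hn⟩ := PadicInt.exists_mem_range c
  refine ⟨n, ?_⟩
  rwa [PadicInt.maximalIdeal_eq_span_p, Ideal.mem_span_singleton] at hn

private theorem Inst_dvd (p : ℕ) [Fact p.Prime] (n : ℤ) (h : (p : ℤ_[p]) ∣ (n : ℤ_[p])) :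
    (p : ℤ) ∣ n := by
  rw [← PadicInt.norm_lt_one_iff_dvd] at h
  exact (PadicInt.norm_intCast_lt_one_iff).mp h

theorem exists_good_Zp (p : ℕ) [Fact p.Prime] :
    ∃ G : GoodRing p ℤ_[p] 1, G.y = fun _ => 1 := by
  refine ⟨⟨fun _ => 1, ?_, Inst_unit p, ?_, ?_⟩, rfl⟩
  · intro c hc
    rcases mul_eq_zero.mp hc with h | h
    · exact absurd h (Inst_p_ne p)
    · exact h
  · intro c
    obtain ⟨n, hn⟩ := Inst_range p c
    refine ⟨fun _ => n, ?_⟩
    simpa using hn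
  · intro n hn l
    have h1 : ∑ l : Fin 1, (n l : ℤ_[p]) * 1 = (n l : ℤ_[p]) := by
      rw [Fin.sum_univ_one, mul_one, Subsingleton.elim l 0]
    rw [h1] at hn
    exact Inst_dvd p _ hn

private theorem Inst_coeff_sum {p : ℕ} [Fact p.Prime] {M : ℕ} (a : Fin M → ℤ_[p]) (l : Fin M) :
    (∑ i : Fin M, C (a i) * X ^ (i : ℕ)).coeff (l : ℕ) = a l := by
  rw [finsetSum_coeff]
  simp only [coeff_C_mul_X_pow]
  rw [Finset.sum_eq_single l]
  · rw [if_pos rfl]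
  · intro b _ hb
    rw [if_neg]
    intro h
    exact hb (Fin.ext h.symm)
  · intro h
    exact absurd (Finset.mem_univ l) h

private theorem Inst_mk_zero {p : ℕ} [Fact p.Prime] {M : ℕ} (f : ℤ_[p][X]) :
    Ideal.Quotient.mk (Ideal.span {(X : ℤ_[p][X]) ^ M}) f = 0 ↔ ∀ l < M, f.coeff l = 0 := by
  rw [Ideal.Quotient.eq_zero_iff_mem, Ideal.mem_span_singleton, X_pow_dvd_iff]

theorem exists_good_RM (p : ℕ) [Fact p.Prime] (M : ℕ) :
    ∃ G : GoodRing p (RM p M) M, G.y = fun l : Fin M =>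
      Ideal.Quotient.mk (Ideal.span {(X : ℤ_[p][X]) ^ M}) (X ^ (l : ℕ)) := by
  have hp : ((p : ℕ) : RM p M) =
      Ideal.Quotient.mk (Ideal.span {(X : ℤ_[p][X]) ^ M}) (C (p : ℤ_[p])) := by
    rw [C_eq_natCast, map_natCast]
  refine ⟨⟨fun l : Fin M => Ideal.Quotient.mk (Ideal.span {(X : ℤ_[p][X]) ^ M}) (X ^ (l : ℕ)),
    ?_, ?_, ?_, ?_⟩, rfl⟩
  · intro c hc
    obtain ⟨f, rfl⟩ := Ideal.Quotient.mk_surjective c
    rw [hp, ← map_mul, Inst_mk_zero] at hc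
    rw [Inst_mk_zero]
    intro l hl
    have h := hc l hl
    rw [coeff_C_mul] at h
    rcases mul_eq_zero.mp h with h | h
    · exact absurd h (Inst_p_ne p)
    · exact h
  · intro c
    obtain ⟨f, rfl⟩ := Ideal.Quotient.mk_surjective c
    have h1 : 1 + ((p : ℕ) : RM p M) * Ideal.Quotient.mk (Ideal.span {(X : ℤ_[p][X]) ^ M}) f =
        Ideal.Quotient.mk (Ideal.span {(X : ℤ_[p][X]) ^ M}) (C (1 + (p : ℤ_[p]) * f.coeff 0)) +
        Ideal.Quotient.mk (Ideal.span {(X : ℤ_[p][X]) ^ M}) (C (p : ℤ_[p]) * (X * f.divX)) := by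
      rw [hp, ← map_mul, ← map_one (Ideal.Quotient.mk (Ideal.span {(X : ℤ_[p][X]) ^ M})),
        ← map_add, ← map_add]
      congr 1
      have h2 := X_mul_divX_add f
      calc (1 : ℤ_[p][X]) + C (p : ℤ_[p]) * f
          = 1 + C (p : ℤ_[p]) * (X * f.divX + C (f.coeff 0)) := by rw [h2]
        _ = C (1 + (p : ℤ_[p]) * f.coeff 0) + C (p : ℤ_[p]) * (X * f.divX) := by
            rw [C_add, C_mul, C_1]
            ring
    rw [h1]
    apply IsNilpotent.isUnit_add_left_of_commute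
    · refine ⟨M, ?_⟩
      rw [← map_pow, Inst_mk_zero, ← X_pow_dvd_iff]
      refine ⟨(C (p : ℤ_[p]) * f.divX) ^ M, ?_⟩
      ring
    · exact ((Inst_unit p (f.coeff 0)).map C).map (Ideal.Quotient.mk _)
    · exact Commute.all _ _
  · intro c
    obtain ⟨f, rfl⟩ := Ideal.Quotient.mk_surjective c
    have h := fun l : Fin M => Inst_range p (f.coeff l)
    choose n hn using h
    have h2 : ∀ l : Fin M, ∃ g : ℤ_[p], f.coeff l - n l = p * g := hn
    choose g hg using h2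
    refine ⟨n, ⟨Ideal.Quotient.mk (Ideal.span {(X : ℤ_[p][X]) ^ M})
      (∑ i : Fin M, C (g i) * X ^ (i : ℕ)), ?_⟩⟩
    have h3 : ∑ l : Fin M, ((n l : ℕ) : RM p M) *
        Ideal.Quotient.mk (Ideal.span {(X : ℤ_[p][X]) ^ M}) (X ^ (l : ℕ)) =
        Ideal.Quotient.mk (Ideal.span {(X : ℤ_[p][X]) ^ M})
          (∑ l : Fin M, C ((n l : ℕ) : ℤ_[p]) * X ^ (l : ℕ)) := by
      rw [map_sum]
      apply Finset.sum_congr rfl
      intro l _
      rw [map_mul, C_eq_natCast, map_natCast]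
    rw [h3, hp, ← map_mul, ← sub_eq_zero, ← map_sub, ← map_sub, Inst_mk_zero]
    intro l hl
    rw [coeff_sub, coeff_sub, coeff_C_mul]
    have h4 := Inst_coeff_sum g ⟨l, hl⟩
    have h5 := Inst_coeff_sum (fun i => ((n i : ℕ) : ℤ_[p])) ⟨l, hl⟩
    simp only at h4 h5
    rw [h4, h5, ← hg ⟨l, hl⟩, sub_self]
  · intro n hn l
    obtain ⟨c, hc⟩ := hn
    obtain ⟨f, rfl⟩ := Ideal.Quotient.mk_surjective c
    have h3 : ∑ l : Fin M, ((n l : ℤ) : RM p M) *
        Ideal.Quotient.mk (Ideal.span {(X : ℤ_[p][X]) ^ M}) (X ^ (l : ℕ)) =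
        Ideal.Quotient.mk (Ideal.span {(X : ℤ_[p][X]) ^ M})
          (∑ l : Fin M, C ((n l : ℤ) : ℤ_[p]) * X ^ (l : ℕ)) := by
      rw [map_sum]
      apply Finset.sum_congr rfl
      intro l _
      rw [map_mul]
      congr 1
    rw [h3, hp, ← map_mul, ← sub_eq_zero, ← map_sub, Inst_mk_zero] at hc
    have h4 := hc l l.2
    have h5 := Inst_coeff_sum (fun i => ((n i : ℤ) : ℤ_[p])) l
    rw [coeff_sub, h5, coeff_C_mul, sub_eq_zero] at h4
    exact Inst_dvd p _ ⟨_, h4⟩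

end Pool.Agent.IWA
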