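import Mathlib
import Pool.Agent.IWA.Defs

/-!
# IWA / ThetaDefs : homomorphisms between levels of two towers (MP_05b873_al)

In the application `P` consists of matrices over `ℤ_p[Y] / Y ^ M` congruent to `1` modulo `p ^ e`,
`P'` of matrices over `ℤ_p`, and `θ` is induced by `Y ↦ p ^ k ζ` (which makes sense modulo
`p ^ (k M)`), `z` is a natural number congruent to `ζ` modulo `p`.
-/

namespace Pool.Agent.IWA

variable {p e : ℕ} {M : ℕ} {κ : Type} [Fintype κ] {P P' : Type} [Group P] [Group P']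

/-- the ring homomorphism of level `J` induced by `θ` -/
noncomputable def thLift (T : UTower p e (Fin M × κ) P) (T' : UTower p e κ P') (J : ℕ)
    (θ : P →* P' ⧸ T'.L J) (h : ∀ g ∈ T.L J, θ g = 1) : T.R J →+* T'.R J :=
  MonoidAlgebra.mapDomainRingHom (ZMod p) (QuotientGroup.lift (T.L J) θ h)

/-- the generators `x (l, b)` are mapped to `x' b ^ (p ^ (k l) z ^ l)` modulo `L' (k l + 1)` -/
structure IsTheta (T : UTower p e (Fin M × κ) P) (T' : UTower p e κ P') (J k z : ℕ)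
    (θ : P →* P' ⧸ T'.L J) : Prop where
  ker : ∀ g ∈ T.L J, θ g = 1
  gen : ∀ (l : Fin M) (b : κ), ∃ y ∈ T'.L (k * l), θ (T.x (l, b)) = (y : P' ⧸ T'.L J) ∧
    (T'.x b ^ (p ^ (k * (l : ℕ)) * z ^ (l : ℕ)))⁻¹ * y ∈ T'.L (k * l + 1)

end Pool.Agent.IWA
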