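import Mathlib
import Pool.Agent.IWA.GLDefs
import Pool.Agent.IWA.Inst
import Pool.Agent.IWA.ThetaDefs

/-!
# IWA / FamDefs : families of representations, specialisations, formal congruence subgroups
(MP_05b873_al)
-/

namespace Pool.Agent.IWA

open Polynomial

section Reindex

variable {p e : ℕ} {ι κ : Type} [Fintype ι] [Fintype κ] {P : Type} [Group P]

/-- the same tower with another index set of the generators -/
def UTower.reindex (T : UTower p e ι P) (E : ι ≃ κ) : UTower p e κ P where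
  L := T.L
  x b := T.x (E.symm b)
  ord := T.ord.map E
  nodup := T.nodup.map E.injective
  complete b := by
    rw [List.mem_map]
    exact ⟨E.symm b, T.complete _, E.apply_symm_apply b⟩
  normal := T.normal
  L_zero := T.L_zero
  anti := T.anti
  index J := by rw [← Fintype.card_congr E]; exact T.index J
  gen i g hg := by
    obtain ⟨n, hn⟩ := T.gen i g hg
    refine ⟨fun b => n (E.symm b), ?_⟩
    rw [List.map_map]
    simpa [Function.comp_def] using hn
  comm := T.comm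
  pow i b := T.pow i (E.symm b)
  he := T.he
  pos := by rw [← Fintype.card_congr E]; exact T.pos

end Reindex

variable {p : ℕ} [Fact p.Prime] {G : Type} [Group G] {N : ℕ}

/-- the representation obtained from a ring homomorphism of the coefficients -/
noncomputable def spec {R : Type} [CommRing R] (ρ : G →* Matrix (Fin N) (Fin N) ℤ_[p][X])
    (ψ : ℤ_[p][X] →+* R) : G →* (Matrix (Fin N) (Fin N) R)ˣ :=
  ((ψ.mapMatrix (m := Fin N)).toMonoidHom.comp ρ).toHomUnits

theorem spec_val {R : Type} [CommRing R] (ρ : G →* Matrix (Fin N) (Fin N) ℤ_[p][X])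
    (ψ : ℤ_[p][X] →+* R) (g : G) :
    ((spec ρ ψ g : (Matrix (Fin N) (Fin N) R)ˣ) : Matrix (Fin N) (Fin N) R) = (ρ g).map ψ := rfl

/-- the representation is trivial modulo the variable -/
def TrivMod (ρ : G →* Matrix (Fin N) (Fin N) ℤ_[p][X]) : Prop :=
  ∀ g, ∃ σ : Matrix (Fin N) (Fin N) ℤ_[p][X], ρ g = 1 + (X : ℤ_[p][X]) • σ

theorem spec_mem {R : Type} [CommRing R] {ρ : G →* Matrix (Fin N) (Fin N) ℤ_[p][X]}
    (h1 : TrivMod ρ) {e : ℕ} {ψ : ℤ_[p][X] →+* R} (hψ : ∃ c, ψ X = (p : R) ^ e * c) (g : G) :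
    spec ρ ψ g ∈ cg R N p e := by
  obtain ⟨σ, hσ⟩ := h1 g
  obtain ⟨c, hc⟩ := hψ
  refine ⟨c • σ.map ψ, ?_⟩
  rw [spec_val, hσ]
  ext i j
  simp only [Matrix.map_apply, Matrix.add_apply, Matrix.smul_apply, smul_eq_mul, map_add, map_mul,
    hc, Matrix.one_apply]
  split_ifs <;> simp [mul_assoc]

/-- the specialisation as a homomorphism to the group `cg R N p e` -/
noncomputable def specE {R : Type} [CommRing R] {ρ : G →* Matrix (Fin N) (Fin N) ℤ_[p][X]}
    (h1 : TrivMod ρ) {e : ℕ} {ψ : ℤ_[p][X] →+* R} (hψ : ∃ c, ψ X = (p : R) ^ e * c) :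
    G →* cg R N p e :=
  (spec ρ ψ).codRestrict (cg R N p e) (spec_mem h1 hψ)

theorem specE_val {R : Type} [CommRing R] {ρ : G →* Matrix (Fin N) (Fin N) ℤ_[p][X]}
    (h1 : TrivMod ρ) {e : ℕ} {ψ : ℤ_[p][X] →+* R} (hψ : ∃ c, ψ X = (p : R) ^ e * c) (g : G) :
    (((specE h1 hψ g : cg R N p e) : (Matrix (Fin N) (Fin N) R)ˣ) : Matrix (Fin N) (Fin N) R) =
      (ρ g).map ψ := rfl

/-- the congruence subgroup of level `k` of the specialisation at `l` -/
noncomputable def congSub (ρ : G →* Matrix (Fin N) (Fin N) ℤ_[p][X]) (l : ℤ_[p]) (k : ℕ) :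
    Subgroup G := (cg ℤ_[p] N p k).comap (spec ρ (Polynomial.evalRingHom l))

/-- the substitution `X ↦ p ^ e (μ + X)` followed by the reduction modulo `X ^ M` -/
noncomputable def psi (p : ℕ) [Fact p.Prime] (e M : ℕ) (μ : ℤ_[p]) : ℤ_[p][X] →+* RM p M :=
  (Ideal.Quotient.mk (Ideal.span {(X : ℤ_[p][X]) ^ M})).comp
    (Polynomial.compRingHom (C ((p : ℤ_[p]) ^ e) * (C μ + X)))

theorem psi_X (e M : ℕ) (μ : ℤ_[p]) :
    ∃ c, psi p e M μ X = ((p : RM p M)) ^ e * c := by
  refine ⟨Ideal.Quotient.mk _ (C μ + X), ?_⟩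
  unfold psi
  rw [RingHom.comp_apply, Polynomial.coe_compRingHom_apply, X_comp, map_mul]
  simp

theorem eval_X (e : ℕ) (μ : ℤ_[p]) :
    ∃ c, Polynomial.evalRingHom ((p : ℤ_[p]) ^ e * μ) X = (p : ℤ_[p]) ^ e * c :=
  ⟨μ, by simp⟩

/-- the kernel of the specialisation over `ℤ_p[Y] / Y ^ M` at level `k` -/
noncomputable def congSubM (ρ : G →* Matrix (Fin N) (Fin N) ℤ_[p][X]) (e M : ℕ) (μ : ℤ_[p])
    (k : ℕ) : Subgroup G := (cg (RM p M) N p k).comap (spec ρ (psi p e M μ))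

/-- the formal congruence subgroups: all coefficients of index `< j` of the entries of `ρ g - 1` are
divisible by `p ^ j` -/
def formSub (ρ : G →* Matrix (Fin N) (Fin N) ℤ_[p][X]) (j : ℕ) : Set G :=
  {g | ∀ r s, ∀ i < j, (p : ℤ_[p]) ^ j ∣ ((ρ g - 1) r s).coeff i}

end Pool.Agent.IWA
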