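import Mathlib
import Pool.Agent.IWA.FamDefs

/-!
# IWA / Cong : comparison of congruence subgroups (MP_05b873_al)

Paper proofs. Write `h = (ρ g - 1) r s = ∑ h_i X ^ i` for an entry.
* `formSub_le_congSub`: `h (p ^ e μ) = ∑ h_i (p ^ e μ) ^ i`; for `i < j` the coefficient `h_i` is
  divisible by `p ^ j`, for `i ≥ j` the power `(p ^ e) ^ i` is (`e ≥ 1`).
* `formSub_le_congSubM`: the same for the image of `h` under `psi`: `X ↦ p ^ e (μ + Y)`.
* `congSubM_le_formSub`: `g ∈ congSubM ρ e M μ k` means that the coefficients `b_s` of `Y ^ s`,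
  `s < M`, of the polynomial `B(Y) = h (p ^ e (μ + Y))` are divisible by `p ^ k` (membership in the
  ideal generated by `Y ^ M` and `p ^ k`; `Polynomial.X_pow_dvd_iff`); for `s ≥ M` the coefficient
  `b_s` is divisible by `p ^ (e M)` (it is a combination of the `h_i p ^ (e i)`, `i ≥ s`). On the
  other hand `h (p ^ e t) = B (t - μ)`, so
  `p ^ (e i) h_i = ∑_{s ≥ i} b_s (s choose i) (-μ) ^ (s - i)` is divisible by
  `p ^ (min k (e M))`. So for `i < j₀`, `h_i` is divisible by `p ^ (min k (e M) - e i)`, hence by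
  `p ^ j₀` if `min k (e M) ≥ j₀ + e j₀`.
-/

namespace Pool.Agent.IWA

open Polynomial

variable {p : ℕ} [Fact p.Prime] {G : Type} [Group G] {N : ℕ}

private theorem Cong_entry {R : Type} [CommRing R] (ρ : G →* Matrix (Fin N) (Fin N) ℤ_[p][X])
    (ψ : ℤ_[p][X] →+* R) (g : G) (r s : Fin N) :
    ψ ((ρ g - 1) r s) = ((ρ g).map ψ - 1) r s := by
  rw [Matrix.sub_apply, Matrix.sub_apply, map_sub, Matrix.map_apply, Matrix.one_apply,
    Matrix.one_apply]
  split_ifs <;> simp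

private theorem Cong_mem {R : Type} [CommRing R] {ρ : G →* Matrix (Fin N) (Fin N) ℤ_[p][X]}
    {ψ : ℤ_[p][X] →+* R} {g : G} {k : ℕ} :
    spec ρ ψ g ∈ cg R N p k ↔ ∀ r s, (p : R) ^ k ∣ ψ ((ρ g - 1) r s) := by
  rw [mem_cg, spec_val]
  constructor
  · rintro ⟨a, ha⟩ r s
    rw [Cong_entry, ha, add_sub_cancel_left, Matrix.smul_apply, smul_eq_mul]
    exact dvd_mul_right _ _
  · intro h
    choose a ha using h
    refine ⟨Matrix.of fun r s => a r s, ?_⟩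
    ext r s
    have h1 := Cong_entry ρ ψ g r s
    rw [ha r s, Matrix.sub_apply] at h1
    rw [Matrix.add_apply, Matrix.smul_apply, Matrix.of_apply, smul_eq_mul, h1]
    ring

private theorem Cong_dvd {R : Type} [CommRing R] {ψ : ℤ_[p][X] →+* R} {e : ℕ} (he : 1 ≤ e)
    (hψ : ∃ c, ψ X = (p : R) ^ e * c) {h : ℤ_[p][X]} {j : ℕ}
    (hh : ∀ i < j, (p : ℤ_[p]) ^ j ∣ h.coeff i) : (p : R) ^ j ∣ ψ h := by
  obtain ⟨c, hc⟩ := hψ
  rw [h.as_sum_range_C_mul_X_pow, map_sum]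
  refine Finset.dvd_sum fun i _ => ?_
  rw [map_mul, map_pow, hc]
  by_cases hi : i < j
  · obtain ⟨d, hd⟩ := hh i hi
    rw [hd, C_mul, map_mul, C_pow, map_pow]
    have : ψ (C ((p : ℕ) : ℤ_[p])) = (p : R) := by
      rw [← map_natCast ψ p]
      congr 1
    rw [this, mul_assoc]
    exact dvd_mul_right _ _
  · refine Dvd.dvd.mul_left ?_ _
    rw [mul_pow, ← pow_mul]
    refine Dvd.dvd.mul_right (pow_dvd_pow _ ?_) _
    have : i ≤ e * i := Nat.le_mul_of_pos_left i he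
    omega

theorem formSub_le_congSub (ρ : G →* Matrix (Fin N) (Fin N) ℤ_[p][X]) {e : ℕ} (he : 1 ≤ e)
    (μ : ℤ_[p]) (j : ℕ) {g : G} (hg : g ∈ formSub ρ j) :
    g ∈ congSub ρ ((p : ℤ_[p]) ^ e * μ) j := by
  unfold congSub
  rw [Subgroup.mem_comap, Cong_mem]
  intro r s
  exact Cong_dvd he (eval_X e μ) (hg r s)

theorem formSub_le_congSubM (ρ : G →* Matrix (Fin N) (Fin N) ℤ_[p][X]) {e : ℕ} (he : 1 ≤ e)
    (M : ℕ) (μ : ℤ_[p]) (j : ℕ) {g : G} (hg : g ∈ formSub ρ j) :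
    g ∈ congSubM ρ e M μ j := by
  unfold congSubM
  rw [Subgroup.mem_comap, Cong_mem]
  intro r s
  exact Cong_dvd he (psi_X e M μ) (hg r s)

theorem congSubM_le_formSub (ρ : G →* Matrix (Fin N) (Fin N) ℤ_[p][X]) {e : ℕ} (he : 1 ≤ e)
    (M : ℕ) (μ : ℤ_[p]) (k j₀ : ℕ) (hk : j₀ + e * j₀ ≤ k) (hM : j₀ + e * j₀ ≤ e * M) {g : G}
    (hg : g ∈ congSubM ρ e M μ k) : g ∈ formSub ρ j₀ := by
  unfold congSubM at hg
  rw [Subgroup.mem_comap, Cong_mem] at hg
  intro r s i hi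
  have h1 := hg r s
  obtain ⟨h, hh⟩ : ∃ h, h = (ρ g - 1) r s := ⟨_, rfl⟩
  rw [← hh] at h1 ⊢
  obtain ⟨f, hf⟩ : ∃ f, f = h.comp (C ((p : ℤ_[p]) ^ e) * X) := ⟨_, rfl⟩
  have hfc : ∀ n, f.coeff n = h.coeff n * ((p : ℤ_[p]) ^ e) ^ n := by
    intro n
    rw [hf, comp_C_mul_X_coeff]
  obtain ⟨B, hB⟩ : ∃ B, B = h.comp (C ((p : ℤ_[p]) ^ e) * (C μ + X)) := ⟨_, rfl⟩
  have hB2 : B = f.comp (X + C μ) := by
    rw [hB, hf, comp_assoc]
    congr 1
    rw [mul_comp, C_comp, X_comp]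
    ring
  -- all coefficients of `B` are divisible
  have hBd : ∀ n, (p : ℤ_[p]) ^ (j₀ + e * j₀) ∣ B.coeff n := by
    intro n
    by_cases hn : n < M
    · refine (pow_dvd_pow _ hk).trans ?_
      obtain ⟨c, hc⟩ := h1
      obtain ⟨b, rfl⟩ := Ideal.Quotient.mk_surjective c
      have h2 : Ideal.Quotient.mk (Ideal.span {(X : ℤ_[p][X]) ^ M}) B =
          Ideal.Quotient.mk (Ideal.span {(X : ℤ_[p][X]) ^ M}) ((p : ℤ_[p][X]) ^ k * b) := by
        rw [map_mul, map_pow, map_natCast, ← hc, hB]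
        rfl
      rw [Ideal.Quotient.eq, Ideal.mem_span_singleton, X_pow_dvd_iff] at h2
      have h3 := h2 n hn
      have h4 : ((p : ℤ_[p][X]) ^ k * b) = C ((p : ℤ_[p]) ^ k) * b := by
        rw [C_pow]
        congr 2
      rw [coeff_sub, h4, coeff_C_mul, sub_eq_zero] at h3
      rw [h3]
      exact dvd_mul_right _ _
    · refine (pow_dvd_pow _ hM).trans ?_
      rw [hB2, comp_eq_sum_left, Polynomial.sum, finsetSum_coeff]
      refine Finset.dvd_sum fun l _ => ?_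
      rw [coeff_C_mul, coeff_X_add_C_pow]
      by_cases hl : l < n
      · rw [Nat.choose_eq_zero_of_lt hl]
        simp
      · refine Dvd.dvd.mul_right ?_ _
        rw [hfc, ← pow_mul]
        refine Dvd.dvd.mul_left (pow_dvd_pow _ (Nat.mul_le_mul_left e ?_)) _
        omega
  have hBC : C ((p : ℤ_[p]) ^ (j₀ + e * j₀)) ∣ B := C_dvd_iff_dvd_coeff _ _ |>.2 hBd
  obtain ⟨b, hb⟩ := hBC
  have hfb : f = C ((p : ℤ_[p]) ^ (j₀ + e * j₀)) * b.comp (X - C μ) := by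
    have h2 : B.comp (X - C μ) = f := by
      rw [hB2, comp_assoc]
      have : (X + C μ : ℤ_[p][X]).comp (X - C μ) = X := by
        rw [add_comp, X_comp, C_comp]
        ring
      rw [this, comp_X]
    rw [← h2, hb, mul_comp, C_comp]
  have hp : (p : ℤ_[p]) ≠ 0 := by
    have := (Fact.out : p.Prime).ne_zero
    exact_mod_cast this
  have h5 := hfc i
  rw [hfb, coeff_C_mul] at h5
  have h6 : (p : ℤ_[p]) ^ (j₀ + e * j₀) = (p : ℤ_[p]) ^ j₀ * (p : ℤ_[p]) ^ (e * (j₀ - i)) *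
      ((p : ℤ_[p]) ^ e) ^ i := by
    rw [← pow_mul, ← pow_add, ← pow_add]
    congr 1
    have : e * j₀ = e * (j₀ - i) + e * i := by
      rw [← Nat.mul_add]
      congr 1
      omega
    omega
  rw [h6] at h5
  have h7 : h.coeff i = (p : ℤ_[p]) ^ j₀ * (p : ℤ_[p]) ^ (e * (j₀ - i)) *
      (b.comp (X - C μ)).coeff i := by
    apply mul_right_cancel₀ (pow_ne_zero i (pow_ne_zero e hp))
    rw [← h5]
    ring
  rw [h7, mul_assoc]
  exact dvd_mul_right _ _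

end Pool.Agent.IWA
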