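import Mathlib
import Pool.Agent.IWA.FamDefs
import Pool.Agent.CIR.Crit2

/-!
# IWA / FormRok : the formal congruence subgroups form a Rokhlin sequence (MP_05b873_al)

Paper proof. Use `rokSeq_of_amenQuot`. Let `H ≠ ⊥` be a finitely generated subgroup of `G`. Since `ρ`
is injective and trivial modulo `X`, there is a smallest `i ≥ 1` such that some `h ∈ H` has a nonzero
coefficient matrix of `X ^ i` in `ρ h - 1`. For all `h ∈ H`, `ρ h = 1 + X ^ i (c h + X ...)` where
`c h` is the matrix of the coefficients of index `i`, and `c (h h') = c h + c h'` (`i ≥ 1`). So `c` is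
a homomorphism from `H` to the additive group of matrices over `ℤ_p`, which is torsion free. Let `N'`
be its kernel. `H ⧸ N'` is isomorphic to the image of `c`, abelian (`foelner_of_commutator_le`),
finitely generated, torsion free and not trivial, hence infinite, so it maps onto the integers
(`exists_onto_int`). If `h = n d` with `n ∈ N'`, `d ∈ D k`, `k > i`, then `c h = c d` is divisible by
`p ^ k`; since `c h ≠ 0` for `h ∉ N'`, this is false for large `k`.
-/

namespace Pool.Agent.IWA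

open Polynomial Pool.Agent.CIR

variable {p : ℕ} [Fact p.Prime] {G : Type} [Group G] {N : ℕ}

/-- the coefficient of index `i` of `ρ h - 1` -/
private noncomputable def FormRok_c (ρ : G →* Matrix (Fin N) (Fin N) ℤ_[p][X]) (i : ℕ) (g : G) :
    Fin N → Fin N → ℤ_[p] := fun r s => ((ρ g - 1) r s).coeff i

private theorem FormRok_dvd {f : ℤ_[p][X]} {i : ℕ} (h : ∀ j < i, f.coeff j = 0) :
    (X : ℤ_[p][X]) ^ i ∣ f := X_pow_dvd_iff.mpr h

private theorem FormRok_mul (ρ : G →* Matrix (Fin N) (Fin N) ℤ_[p][X]) {i : ℕ} (hi : 1 ≤ i)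
    {g h : G} (hg : ∀ j < i, FormRok_c ρ j g = 0) (hh : ∀ j < i, FormRok_c ρ j h = 0) :
    FormRok_c ρ i (g * h) = FormRok_c ρ i g + FormRok_c ρ i h := by
  funext r s
  show ((ρ (g * h) - 1) r s).coeff i = ((ρ g - 1) r s).coeff i + ((ρ h - 1) r s).coeff i
  have h1 : ρ (g * h) - 1 = (ρ g - 1) + (ρ h - 1) + (ρ g - 1) * (ρ h - 1) := by
    rw [map_mul]
    noncomm_ring
  rw [h1, Matrix.add_apply, Matrix.add_apply, coeff_add, coeff_add, Matrix.mul_apply]
  have h2 : (X : ℤ_[p][X]) ^ (i + i) ∣ ∑ j, (ρ g - 1) r j * (ρ h - 1) j s := by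
    apply Finset.dvd_sum
    intro j _
    rw [pow_add]
    apply mul_dvd_mul
    · exact FormRok_dvd fun k hk => congrFun (congrFun (hg k hk) r) j
    · exact FormRok_dvd fun k hk => congrFun (congrFun (hh k hk) j) s
  rw [X_pow_dvd_iff.mp h2 i (by omega), add_zero]

private theorem FormRok_one (ρ : G →* Matrix (Fin N) (Fin N) ℤ_[p][X]) (i : ℕ) :
    FormRok_c ρ i 1 = 0 := by
  funext r s
  show ((ρ 1 - 1) r s).coeff i = 0
  rw [map_one, sub_self]
  simp

/-- the homomorphism `c` -/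
private noncomputable def FormRok_hom (ρ : G →* Matrix (Fin N) (Fin N) ℤ_[p][X]) {i : ℕ}
    (hi : 1 ≤ i) (H : Subgroup G) (hH : ∀ h ∈ H, ∀ j < i, FormRok_c ρ j h = 0) :
    H →* Multiplicative (Fin N → Fin N → ℤ_[p]) where
  toFun h := Multiplicative.ofAdd (FormRok_c ρ i h)
  map_one' := by
    show Multiplicative.ofAdd (FormRok_c ρ i ((1 : H) : G)) = 1
    rw [Subgroup.coe_one, FormRok_one]
    rfl
  map_mul' g h := by
    show Multiplicative.ofAdd (FormRok_c ρ i ((g * h : H) : G)) = _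
    rw [Subgroup.coe_mul, FormRok_mul ρ hi (hH g g.2) (hH h h.2)]
    rfl

private theorem FormRok_norm {x y : ℤ_[p]} {k : ℕ} (h : x = (p : ℤ_[p]) ^ k * y) :
    ‖x‖ ≤ ((p : ℝ)⁻¹) ^ k := by
  rw [h, norm_mul, norm_pow, PadicInt.norm_p]
  have h1 : 0 ≤ ((p : ℝ)⁻¹) ^ k := by positivity
  calc ((p : ℝ)⁻¹) ^ k * ‖y‖ ≤ ((p : ℝ)⁻¹) ^ k * 1 :=
        mul_le_mul_of_nonneg_left (PadicInt.norm_le_one y) h1
    _ = _ := mul_one _

theorem rokSeq_formal (ρ : G →* Matrix (Fin N) (Fin N) ℤ_[p][X]) (h1 : TrivMod ρ)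
    (hinj : Function.Injective ρ) (D : ℕ → Subgroup G) (hD : ∀ j g, g ∈ D j ↔ g ∈ formSub ρ j)
    (hn : ∀ j, (D j).Normal) (hf : ∀ j, (D j).FiniteIndex) : RokSeq D := by
  classical
  apply rokSeq_of_amenQuot hn hf
  intro H hH hH1
  left
  -- the smallest index
  have hex : ∃ i, ∃ h ∈ H, FormRok_c ρ i h ≠ 0 := by
    obtain ⟨h, hh, hne⟩ := Subgroup.ne_bot_iff_exists_ne_one.mp hH1 |>.elim
      fun a ha => (⟨(a : G), a.2, fun h0 => ha (Subtype.ext h0)⟩ :
        ∃ h : G, ∃ _ : h ∈ H, h ≠ 1)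
    have h2 : ρ h - 1 ≠ 0 := by
      intro h3
      apply hne
      apply hinj
      rw [map_one]
      exact sub_eq_zero.mp h3
    by_contra hcon
    push Not at hcon
    apply h2
    ext r s i
    have h4 : ((ρ h - 1) r s).coeff i = 0 := congrFun (congrFun (hcon i h hh) r) s
    rw [h4]
    simp
  set i := Nat.find hex with hidef
  obtain ⟨h₀, hh₀, hne₀⟩ := Nat.find_spec hex
  have hlt : ∀ h ∈ H, ∀ j < i, FormRok_c ρ j h = 0 := by
    intro h hh j hj
    by_contra hcon
    exact Nat.find_min hex hj ⟨h, hh, hcon⟩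
  have hi : 1 ≤ i := by
    by_contra hcon
    have h0 : i = 0 := by omega
    apply hne₀
    rw [← hidef, h0]
    funext r s
    obtain ⟨σ, hσ⟩ := h1 h₀
    show ((ρ h₀ - 1) r s).coeff 0 = 0
    rw [hσ, add_sub_cancel_left, Matrix.smul_apply, smul_eq_mul, coeff_X_mul_zero]
  let c := FormRok_hom ρ hi H hlt
  have hc : ∀ h : H, h ∈ c.ker ↔ FormRok_c ρ i h = 0 := by
    intro h
    rw [MonoidHom.mem_ker]
    constructor
    · intro h2
      exact Multiplicative.ofAdd.injective h2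
    · intro h2
      show Multiplicative.ofAdd (FormRok_c ρ i h) = 1
      rw [h2]
      rfl
  have hcomm : commutator H ≤ c.ker := Abelianization.commutator_subset_ker c
  have hidx : c.ker.index = 0 := by
    by_contra hne
    set h' : H := ⟨h₀, hh₀⟩
    have h2 : h' ^ c.ker.index ∈ c.ker := Subgroup.pow_index_mem c.ker h'
    rw [MonoidHom.mem_ker, map_pow] at h2
    have h3 : c.ker.index • FormRok_c ρ i h₀ = 0 := Multiplicative.ofAdd.injective h2
    apply hne₀
    funext r s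
    have h4 : c.ker.index • (FormRok_c ρ i h₀ r s) = 0 := congrFun (congrFun h3 r) s
    rcases smul_eq_zero.mp h4 with h5 | h5
    · exact absurd h5 hne
    · exact h5
  refine ⟨c.ker, inferInstance, foelner_of_commutator_le _ hcomm,
    exists_onto_int ((Group.fg_iff_subgroup_fg H).2 hH) _ hcomm hidx, ?_⟩
  intro h hh
  have h2 : FormRok_c ρ i h ≠ 0 := fun h3 => hh ((hc h).mpr h3)
  obtain ⟨r, s, hrs⟩ : ∃ r s, FormRok_c ρ i h r s ≠ 0 := by
    by_contra hcon
    push Not at hcon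
    exact h2 (funext fun r => funext fun s => hcon r s)
  have hp1 : (p : ℝ)⁻¹ < 1 := inv_lt_one_of_one_lt₀
    (by exact_mod_cast (Fact.out : p.Prime).one_lt)
  have hp0 : 0 ≤ (p : ℝ)⁻¹ := by positivity
  obtain ⟨K, hK⟩ := exists_pow_lt_of_lt_one (norm_pos_iff.mpr hrs) hp1
  filter_upwards [Filter.eventually_ge_atTop (max K (i + 1))] with k hk hmem
  have hkK : K ≤ k := le_trans (le_max_left _ _) hk
  have hki : i < k := le_trans (le_max_right _ _) hk
  obtain ⟨n, hn', d, hd, hnd⟩ := Subgroup.mem_sup_of_normal_left.mp hmem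
  have hd' : (d : G) ∈ D k := hd
  have h3 : FormRok_c ρ i h = FormRok_c ρ i d := by
    have h4 : c h = c d := by
      rw [← hnd, map_mul, MonoidHom.mem_ker.mp hn', one_mul]
    exact Multiplicative.ofAdd.injective h4
  have h5 := (hD k d).mp hd' r s i hki
  obtain ⟨y, hy⟩ := h5
  have h6 : FormRok_c ρ i h r s = (p : ℤ_[p]) ^ k * y := by
    rw [h3]
    exact hy
  have h7 := FormRok_norm h6
  have h8 : ((p : ℝ)⁻¹) ^ k ≤ ((p : ℝ)⁻¹) ^ K := pow_le_pow_of_le_one hp0 hp1.le hkK
  linarith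

end Pool.Agent.IWA
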