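import Mathlib
import Pool.Agent.IWA.FamDefs

/-!
# IWA / FormSub : the formal congruence subgroups (MP_05b873_al)

Paper proof. Let `S_j = ℤ_p[X] / (X ^ j, p ^ j)` (or the quotient by
`Ideal.span {X ^ j, C p ^ j}`); a polynomial lies in this ideal iff its coefficients of index `< j`
are divisible by `p ^ j`. So `formSub ρ j` is the kernel of `G → GL_N (S_j)`, a normal subgroup
(it can also be checked directly: products and conjugates of matrices congruent to `1` modulo an
ideal). The ring `S_j` is finite with `p ^ (j * j)` elements (the coefficients modulo `p ^ j`;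
`ℤ_p / p ^ j` is `ZMod (p ^ j)`), so the index is finite. The index is a power of `p`: the image
consists of matrices `1 + X a` over `S_j` and `X` is nilpotent. For instance: every element `g` of
`G` satisfies `ρ g = 1 + X σ`, so `(ρ g) ^ (p ^ n) = 1 + ∑_{s ≥ 1} (p ^ n choose s) X ^ s σ ^ s`; for
`s ≥ j` the term is divisible by `X ^ j`; for `1 ≤ s < j` the binomial coefficient is divisible by
`p ^ j` if `n` is large (`p ^ n / gcd(p ^ n, s)` divides it, e.g. `n = 2 j`: `p ^ (n - v_p(s))`).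
Hence every element of the finite group `G ⧸ D j` has `p`-power order (`IsPGroup`), and the index is
a power of `p` (`IsPGroup.iff_card`).
-/

set_option linter.all false
namespace Pool.Agent.IWA

open Polynomial

variable {p : ℕ} [Fact p.Prime] {G : Type} [Group G] {N : ℕ}

/-- polynomials whose coefficients of index `< j` are divisible by `p ^ j` -/
private noncomputable def FormSub_I (p : ℕ) [Fact p.Prime] (j : ℕ) : Ideal ℤ_[p][X] where
  carrier := {f | ∀ i < j, (p : ℤ_[p]) ^ j ∣ f.coeff i}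
  add_mem' := by
    intro f g hf hg i hi
    rw [coeff_add]
    exact dvd_add (hf i hi) (hg i hi)
  zero_mem' := by
    intro i _
    rw [coeff_zero]
    exact dvd_zero _
  smul_mem' := by
    intro f g hg i hi
    rw [smul_eq_mul, coeff_mul]
    refine Finset.dvd_sum fun ab hab => ?_
    rw [Finset.HasAntidiagonal.mem_antidiagonal] at hab
    exact Dvd.dvd.mul_left (hg ab.2 (by omega)) _

private theorem FormSub_mem_I {j : ℕ} {f : ℤ_[p][X]} :
    f ∈ FormSub_I p j ↔ ∀ i < j, (p : ℤ_[p]) ^ j ∣ f.coeff i := Iff.rfl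

/-- polynomials whose coefficient of index `i` is divisible by `p ^ (n - i)` -/
private noncomputable def FormSub_W (p : ℕ) [Fact p.Prime] (n : ℕ) : Ideal ℤ_[p][X] where
  carrier := {f | ∀ i, (p : ℤ_[p]) ^ (n - i) ∣ f.coeff i}
  add_mem' := by
    intro f g hf hg i
    rw [coeff_add]
    exact dvd_add (hf i) (hg i)
  zero_mem' := by
    intro i
    rw [coeff_zero]
    exact dvd_zero _
  smul_mem' := by
    intro f g hg i
    rw [smul_eq_mul, coeff_mul]
    refine Finset.dvd_sum fun ab hab => ?_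
    rw [Finset.HasAntidiagonal.mem_antidiagonal] at hab
    exact Dvd.dvd.mul_left ((pow_dvd_pow _ (by omega)).trans (hg ab.2)) _

private theorem FormSub_mem_W {n : ℕ} {f : ℤ_[p][X]} :
    f ∈ FormSub_W p n ↔ ∀ i, (p : ℤ_[p]) ^ (n - i) ∣ f.coeff i := Iff.rfl

private theorem FormSub_W_mul {a b : ℕ} {f g : ℤ_[p][X]} (hf : f ∈ FormSub_W p a)
    (hg : g ∈ FormSub_W p b) : f * g ∈ FormSub_W p (a + b) := by
  intro i
  rw [coeff_mul]
  refine Finset.dvd_sum fun ab hab => ?_
  rw [Finset.HasAntidiagonal.mem_antidiagonal] at hab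
  refine (pow_dvd_pow _ (by omega : a + b - i ≤ (a - ab.1) + (b - ab.2))).trans ?_
  rw [pow_add]
  exact mul_dvd_mul (hf ab.1) (hg ab.2)

private theorem FormSub_W_anti {a b : ℕ} (h : a ≤ b) {f : ℤ_[p][X]} (hf : f ∈ FormSub_W p b) :
    f ∈ FormSub_W p a := fun i => (pow_dvd_pow _ (by omega)).trans (hf i)

private theorem FormSub_X_mem : (X : ℤ_[p][X]) ∈ FormSub_W p 1 := by
  intro i
  rcases Nat.eq_zero_or_pos i with h | h
  · subst h
    rw [coeff_X_zero]
    exact dvd_zero _
  · rw [Nat.sub_eq_zero_of_le h, pow_zero]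
    exact one_dvd _

private theorem FormSub_p_mem : (p : ℤ_[p][X]) ∈ FormSub_W p 1 := by
  intro i
  rcases Nat.eq_zero_or_pos i with h | h
  · subst h
    have : ((p : ℤ_[p][X])).coeff 0 = (p : ℤ_[p]) := by
      rw [← C_eq_natCast, coeff_C_zero]
    rw [this, Nat.sub_zero, pow_one]
  · rw [Nat.sub_eq_zero_of_le h, pow_zero]
    exact one_dvd _

private theorem FormSub_pow_sub_one {n : ℕ} (B : Matrix (Fin N) (Fin N) ℤ_[p][X])
    (hB : ∀ r s, B r s ∈ FormSub_W p n) (m : ℕ) (r s : Fin N) :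
    (((1 + B) ^ m - 1) r s) ∈ FormSub_W p n := by
  have h : (1 + B) ^ m - 1 = (∑ i ∈ Finset.range m, (1 + B) ^ i) * B := by
    have := geom_sum_mul (1 + B) m
    rw [add_sub_cancel_left] at this
    exact this.symm
  rw [h, Matrix.mul_apply]
  exact Ideal.sum_mem _ fun a _ => Ideal.mul_mem_left _ _ (hB a s)

private theorem FormSub_pow_p {n : ℕ} (B : Matrix (Fin N) (Fin N) ℤ_[p][X])
    (hB : ∀ r s, B r s ∈ FormSub_W p (n + 1)) (r s : Fin N) :
    (((1 + B) ^ p - 1) r s) ∈ FormSub_W p (n + 1 + 1) := by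
  have h : (1 + B) ^ p - 1 = (∑ i ∈ Finset.range p, (1 + B) ^ i) * B := by
    have := geom_sum_mul (1 + B) p
    rw [add_sub_cancel_left] at this
    exact this.symm
  have h2 : ∀ r s, ((∑ i ∈ Finset.range p, (1 + B) ^ i) r s) ∈ FormSub_W p 1 := by
    intro r s
    have h3 : ∑ i ∈ Finset.range p, (1 + B) ^ i =
        ∑ i ∈ Finset.range p, ((1 + B) ^ i - 1) + (p : Matrix (Fin N) (Fin N) ℤ_[p][X]) := by
      rw [Finset.sum_sub_distrib]
      simp
    rw [h3, Matrix.add_apply, Matrix.sum_apply]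
    refine Ideal.add_mem _ (Ideal.sum_mem _ fun i _ =>
      FormSub_W_anti (by omega) (FormSub_pow_sub_one B hB i r s)) ?_
    have h4 : (p : Matrix (Fin N) (Fin N) ℤ_[p][X]) r s =
        (p : ℤ_[p][X]) * (1 : Matrix (Fin N) (Fin N) ℤ_[p][X]) r s := by
      have : (p : Matrix (Fin N) (Fin N) ℤ_[p][X]) = (p : ℤ_[p][X]) • 1 := by
        rw [Nat.cast_smul_eq_nsmul, nsmul_eq_mul, mul_one]
      rw [this, Matrix.smul_apply, smul_eq_mul]
    rw [h4]
    exact Ideal.mul_mem_right _ _ FormSub_p_mem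
  rw [h, Matrix.mul_apply]
  refine Ideal.sum_mem _ fun a _ => ?_
  rw [add_comm (n + 1) 1]
  exact FormSub_W_mul (h2 r a) (hB a s)

private theorem FormSub_pow_pow (A : Matrix (Fin N) (Fin N) ℤ_[p][X])
    (hA : ∀ r s, (A - 1) r s ∈ FormSub_W p 1) (n : ℕ) :
    ∀ r s, (A ^ p ^ n - 1) r s ∈ FormSub_W p (n + 1) := by
  induction n with
  | zero => simpa using hA
  | succ n ih =>
    intro r s
    have h := FormSub_pow_p (A ^ p ^ n - 1) ih r s
    rwa [add_sub_cancel, ← pow_mul, ← pow_succ] at h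

private theorem FormSub_finite (j : ℕ) : Finite (ℤ_[p][X] ⧸ FormSub_I p j) := by
  let φ : ℤ_[p][X] ⧸ FormSub_I p j → (Fin j → ZMod (p ^ j)) := fun s i =>
    PadicInt.toZModPow j ((Quotient.out s : ℤ_[p][X]).coeff i)
  haveI : NeZero (p ^ j) := ⟨pow_ne_zero _ (Fact.out : p.Prime).ne_zero⟩
  refine Finite.of_injective φ fun s t hst => ?_
  have h1 : (Quotient.out s : ℤ_[p][X]) - Quotient.out t ∈ FormSub_I p j := by
    intro i hi
    have h2 := congrFun hst ⟨i, hi⟩
    have h3 : PadicInt.toZModPow j (((Quotient.out s : ℤ_[p][X]) - Quotient.out t).coeff i) = 0 := by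
      rw [coeff_sub, map_sub]
      exact sub_eq_zero.2 h2
    have h4 : ((Quotient.out s : ℤ_[p][X]) - Quotient.out t).coeff i ∈
        RingHom.ker (PadicInt.toZModPow (p := p) j) := h3
    rw [PadicInt.ker_toZModPow, Ideal.mem_span_singleton] at h4
    exact h4
  have h5 := (Ideal.Quotient.eq (I := FormSub_I p j)).2 h1
  have h6 : Ideal.Quotient.mk (FormSub_I p j) (Quotient.out s) = s := Quotient.out_eq s
  have h7 : Ideal.Quotient.mk (FormSub_I p j) (Quotient.out t) = t := Quotient.out_eq t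
  rw [← h6, ← h7, h5]

theorem exists_formal (ρ : G →* Matrix (Fin N) (Fin N) ℤ_[p][X]) (h1 : TrivMod ρ) :
    ∃ D : ℕ → Subgroup G, (∀ j g, g ∈ D j ↔ g ∈ formSub ρ j) ∧ (∀ j, (D j).Normal) ∧
      (∀ j, (D j).FiniteIndex) ∧ (∀ j, ∃ a, (D j).index = p ^ a) ∧ Antitone D := by
  let D : ℕ → Subgroup G := fun j => (spec ρ (Ideal.Quotient.mk (FormSub_I p j))).ker
  have hmem : ∀ j g, g ∈ D j ↔ g ∈ formSub ρ j := by
    intro j g
    have e1 : g ∈ D j ↔ (ρ g).map (Ideal.Quotient.mk (FormSub_I p j)) = 1 := by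
      show g ∈ (spec ρ (Ideal.Quotient.mk (FormSub_I p j))).ker ↔ _
      rw [MonoidHom.mem_ker, Units.ext_iff, spec_val, Units.val_one]
    rw [e1]
    have e2 : (1 : Matrix (Fin N) (Fin N) (ℤ_[p][X] ⧸ FormSub_I p j)) =
        (1 : Matrix (Fin N) (Fin N) ℤ_[p][X]).map (Ideal.Quotient.mk (FormSub_I p j)) := by
      rw [Matrix.map_one] <;> simp
    rw [e2]
    constructor
    · intro h r s
      have h2 := congrFun (congrFun h r) s
      rw [Matrix.map_apply, Matrix.map_apply, Ideal.Quotient.eq] at h2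
      exact h2
    · intro h
      ext r s
      rw [Matrix.map_apply, Matrix.map_apply, Ideal.Quotient.eq]
      exact h r s
  have hfin : ∀ j, (D j).FiniteIndex := by
    intro j
    haveI := FormSub_finite (p := p) j
    haveI : Finite (Matrix (Fin N) (Fin N) (ℤ_[p][X] ⧸ FormSub_I p j)) :=
      inferInstanceAs (Finite (Fin N → Fin N → _))
    haveI : Finite (Matrix (Fin N) (Fin N) (ℤ_[p][X] ⧸ FormSub_I p j))ˣ := inferInstance
    exact Subgroup.finiteIndex_ker _
  have hnorm : ∀ j, (D j).Normal := fun j => MonoidHom.normal_ker _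
  refine ⟨D, hmem, hnorm, hfin, fun j => ?_, fun a b hab g hg => ?_⟩
  · haveI := hnorm j
    haveI := hfin j
    have hP : IsPGroup p (G ⧸ D j) := by
      intro x
      obtain ⟨g, rfl⟩ := QuotientGroup.mk_surjective x
      refine ⟨2 * j, ?_⟩
      rw [← QuotientGroup.mk_pow, QuotientGroup.eq_one_iff, hmem]
      intro r s i hi
      obtain ⟨σ, hσ⟩ := h1 g
      have h2 := FormSub_pow_pow (ρ g) (fun r s => by
        rw [hσ, add_sub_cancel_left, Matrix.smul_apply, smul_eq_mul]
        exact Ideal.mul_mem_right _ _ FormSub_X_mem) (2 * j) r s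
      rw [map_pow]
      exact (pow_dvd_pow _ (by omega)).trans (h2 i)
    haveI : Finite (G ⧸ D j) := Subgroup.finite_quotient_of_finiteIndex
    obtain ⟨n, hn⟩ := IsPGroup.iff_card.1 hP
    exact ⟨n, hn⟩
  · rw [hmem] at hg ⊢
    intro r s i hi
    exact (pow_dvd_pow _ hab).trans (hg r s i (hi.trans_le hab))

end Pool.Agent.IWA
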