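import Mathlib

/-!
# IWA / Pow : powers of matrices congruent to `1` (MP_05b873_al)

Paper proofs. `pow_cg`: binomial theorem. `3 ≤ p ^ e` means `p ≥ 3` or `e ≥ 2` (and `e ≥ 1`); the
terms with index `2 ≤ s < p` are divisible by `p * p ^ (2(e+i))` (and `2(e+i)+1 ≥ e+i+2` since
`e ≥ 1`), the term with `s = p` is divisible by `p ^ (p(e+i))` and `p(e+i) ≥ e+i+2` (if `p ≥ 3`:
`2(e+i) ≥ 2`; if `p = 2`, `e ≥ 2`: `e+i ≥ 2`). For `p = 2` the only term with `s ≥ 2` is `s = p`.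

`pow_mul_cg`: induction on `i` with `pow_cg` for `n = 1` (if `g = 1 + p ^ (e+i) a'` with
`a' = a + p b'`, then `g ^ p = 1 + p ^ (e+i+1) a' + ... = 1 + p ^ (e+i+1) a` modulo
`p ^ (e+i+2)`), then induction on `n` (`e ≥ 1`, so products of two terms `p ^ (e+i) c` are
divisible by `p ^ (e+i+1)`).
-/

namespace Pool.Agent.IWA

private theorem Pow_comm {p : ℕ} [Fact p.Prime] {S : Type*} [CommRing S] {e i : ℕ} (he : 3 ≤ p ^ e)
    (he1 : 1 ≤ e) (a : S) : ∃ b : S,
      (1 + (p : S) ^ (e + i) * a) ^ p = 1 + (p : S) ^ (e + i + 1) * a +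
        (p : S) ^ (e + i + 2) * b := by
  have hp : p.Prime := Fact.out
  have hp2 : 2 ≤ p := hp.two_le
  have h1 : (p : S) ^ (e + i + 2) ∣ ∑ m ∈ Finset.Ico 2 (p + 1),
      ((p : S) ^ (e + i) * a) ^ m * (p.choose m : S) := by
    refine Finset.dvd_sum fun m hm => ?_
    rw [Finset.mem_Ico] at hm
    rw [mul_pow, ← pow_mul]
    rcases Nat.lt_or_ge m p with h | h
    · obtain ⟨c, hc⟩ := hp.dvd_choose_self (by omega : m ≠ 0) h
      rw [hc, Nat.cast_mul]
      have h2 : (p : S) ^ ((e + i) * m) * a ^ m * ((p : S) * (c : S)) =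
          (p : S) ^ ((e + i) * m + 1) * (a ^ m * (c : S)) := by
        rw [pow_succ]
        ring
      rw [h2]
      refine Dvd.dvd.mul_right (pow_dvd_pow _ ?_) _
      nlinarith [hm.1]
    · have hmp : m = p := by omega
      subst hmp
      rw [mul_assoc]
      refine Dvd.dvd.mul_right (pow_dvd_pow _ ?_) _
      rcases Nat.lt_or_ge m 3 with h3 | h3
      · have hm2 : m = 2 := by omega
        subst hm2
        have he2 : 2 ≤ e := by
          by_contra hcon
          have : e = 1 := by omega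
          subst this
          norm_num at he
        omega
      · nlinarith
  obtain ⟨b, hb⟩ := h1
  refine ⟨b, ?_⟩
  rw [← hb, add_comm (1 : S), add_pow]
  simp only [one_pow, mul_one]
  rw [Finset.range_eq_Ico, Finset.sum_eq_sum_Ico_succ_bot (by omega),
    Finset.sum_eq_sum_Ico_succ_bot (by omega)]
  simp only [pow_zero, Nat.choose_zero_right, Nat.cast_one, mul_one, zero_add, pow_one,
    Nat.choose_one_right, Nat.reduceAdd]
  rw [pow_succ (p : S) (e + i)]
  ring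

private theorem Pow_comm_one {p : ℕ} [Fact p.Prime] {S : Type*} [CommRing S] {e : ℕ}
    (he : 3 ≤ p ^ e) (he1 : 1 ≤ e) (a : S) (i : ℕ) : ∃ b : S,
      (1 + (p : S) ^ e * a) ^ (p ^ i) =
        1 + (p : S) ^ (e + i) * a + (p : S) ^ (e + i + 1) * b := by
  induction i with
  | zero => exact ⟨0, by simp⟩
  | succ i ih =>
    obtain ⟨b, hb⟩ := ih
    obtain ⟨c, hc⟩ := Pow_comm (i := i) he he1 (a + p * b)
    refine ⟨b + c, ?_⟩
    rw [pow_succ p i, pow_mul, hb]
    have h1 : (1 : S) + (p : S) ^ (e + i) * a + (p : S) ^ (e + i + 1) * b =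
        1 + (p : S) ^ (e + i) * (a + p * b) := by
      rw [pow_succ]
      ring
    rw [h1, hc]
    ring

private theorem Pow_comm_mul {p : ℕ} [Fact p.Prime] {S : Type*} [CommRing S] {e : ℕ}
    (he : 3 ≤ p ^ e) (he1 : 1 ≤ e) (a : S) (i n : ℕ) : ∃ b : S,
      (1 + (p : S) ^ e * a) ^ (p ^ i * n) =
        1 + (p : S) ^ (e + i) * ((n : S) * a) + (p : S) ^ (e + i + 1) * b := by
  obtain ⟨b, hb⟩ := Pow_comm_one he he1 a i
  obtain ⟨f, rfl⟩ : ∃ f, e = f + 1 := ⟨e - 1, by omega⟩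
  have h1 : ∀ n : ℕ, ∃ c : S, (1 + (p : S) ^ (f + 1 + i) * (a + p * b)) ^ n =
      1 + (p : S) ^ (f + 1 + i) * ((n : S) * (a + p * b)) + (p : S) ^ (f + 1 + i + 1) * c := by
    intro n
    induction n with
    | zero => exact ⟨0, by simp⟩
    | succ n ih =>
      obtain ⟨c, hc⟩ := ih
      refine ⟨c + (p : S) ^ (f + i) * ((n : S) * (a + p * b)) * (a + p * b) +
        (p : S) ^ (f + 1 + i) * c * (a + p * b), ?_⟩
      rw [pow_succ, hc]
      push_cast
      ring
  obtain ⟨c, hc⟩ := h1 n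
  refine ⟨(n : S) * b + c, ?_⟩
  rw [pow_mul, hb]
  have h2 : (1 : S) + (p : S) ^ (f + 1 + i) * a + (p : S) ^ (f + 1 + i + 1) * b =
      1 + (p : S) ^ (f + 1 + i) * (a + p * b) := by
    ring
  rw [h2, hc]
  ring

private theorem Pow_aeval {R : Type} [CommRing R] {N : ℕ} (a : Matrix (Fin N) (Fin N) R) (c : R)
    (q : Polynomial R) :
    Polynomial.aeval a (Polynomial.C c * q) = c • Polynomial.aeval a q := by
  rw [← Polynomial.smul_eq_C_mul, map_smul]

theorem pow_cg {p : ℕ} [Fact p.Prime] {R : Type} [CommRing R] {N e i : ℕ} (he : 3 ≤ p ^ e)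
    (he1 : 1 ≤ e) (a : Matrix (Fin N) (Fin N) R) : ∃ b : Matrix (Fin N) (Fin N) R,
      (1 + ((p : R) ^ (e + i)) • a) ^ p = 1 + ((p : R) ^ (e + i + 1)) • a +
        ((p : R) ^ (e + i + 2)) • b := by
  obtain ⟨b, hb⟩ := Pow_comm (i := i) he he1 (Polynomial.X : Polynomial R)
  refine ⟨Polynomial.aeval a b, ?_⟩
  have hC : ∀ k : ℕ, ((p : Polynomial R)) ^ k = Polynomial.C ((p : R) ^ k) := by
    intro k
    simp
  rw [hC, hC, hC] at hb
  have h := congrArg (Polynomial.aeval a) hb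
  rw [map_pow, map_add, map_add, map_add, map_one, Pow_aeval, Pow_aeval, Pow_aeval,
    Polynomial.aeval_X] at h
  exact h

theorem pow_mul_cg {p : ℕ} [Fact p.Prime] {R : Type} [CommRing R] {N e : ℕ} (he : 3 ≤ p ^ e)
    (he1 : 1 ≤ e) (a : Matrix (Fin N) (Fin N) R) (i n : ℕ) : ∃ b : Matrix (Fin N) (Fin N) R,
      (1 + ((p : R) ^ e) • a) ^ (p ^ i * n) =
        1 + ((p : R) ^ (e + i)) • ((n : R) • a) + ((p : R) ^ (e + i + 1)) • b := by
  obtain ⟨b, hb⟩ := Pow_comm_mul he he1 (Polynomial.X : Polynomial R) i n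
  refine ⟨Polynomial.aeval a b, ?_⟩
  have hC : ∀ k : ℕ, ((p : Polynomial R)) ^ k = Polynomial.C ((p : R) ^ k) := by
    intro k
    simp
  have hn : (n : Polynomial R) = Polynomial.C (n : R) := by simp
  rw [hC, hC, hC, hn] at hb
  have h := congrArg (Polynomial.aeval a) hb
  rw [map_pow, map_add, map_add, map_add, map_one, Pow_aeval, Pow_aeval, Pow_aeval, Pow_aeval,
    Polynomial.aeval_X] at h
  exact h

end Pool.Agent.IWA
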