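import Mathlib
import Pool.Agent.IWA.GLDefs
import Pool.Agent.IWA.Pow

/-!
# IWA / GLTow : congruence subgroups form a uniform tower (MP_05b873_al)

Paper proof. Every matrix `1 + p ^ i a`, `i ≥ 1`, is invertible (`isUnit_one_add`): its determinant
is `1` modulo `p`, so of the form `1 + p c` (reduce modulo `p`, or `Matrix.det_one_add_smul`), a unit
by `GoodRing.unit`. Define `x (l, j, k)` as the unit with value `1 + single j k (p ^ e y l)`.

* `normal`: conjugation `v (1 + p ^ (e+i) a) v⁻¹ = 1 + p ^ (e+i) v a v⁻¹`.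
* `comm`: for `g = 1 + p ^ (e+i) a`, `h = 1 + p ^ (e+j) b`:
  `g h - h g = p ^ (2e+i+j) (a b - b a)`, hence
  `g h g⁻¹ h⁻¹ = 1 + (g h - h g) g⁻¹ h⁻¹ = 1 + p ^ (e + (i+j+e)) (...)`.
* powers: by `pow_mul_cg` (module `Pow`), `x b ^ (p ^ i n) ≡ 1 + single j k (p ^ (e+i) n y l)` modulo
  `p ^ (e+i+1)`; this gives `pow` and is used in `gen`.
* `gen`: `g = 1 + p ^ (e+i) a`, write the entries `a j k ≡ ∑ l, n (l,j,k) y l` modulo `p`
  (`GoodRing.span`). The ordered product of the `x b ^ (p ^ i n b)` is congruent to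
  `1 + p ^ (e+i) ∑ n b y l single j k` modulo `p ^ (e+i+1)` (multiplying elements of the form
  `1 + p ^ (e+i) c`, `1 + p ^ (e+i) c'` adds `c`, `c'` modulo `p`), so the quotient lies in
  `cg (e+i+1)`.
* `index`: the map `L i → (Fin M × Fin N × Fin N → ZMod p)`, `1 + p ^ (e+i) a ↦` the coordinates of
  `a` modulo `p` is a surjective homomorphism with kernel `L (i+1)` (well defined since `R` has no
  `p`-torsion (`tf`), coordinates are unique by `indep`), so `L (i+1)` has index `p ^ D` in `L i`,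
  `D = M N ^ 2`; then induction (`Subgroup.relIndex_mul_index`). (Alternatively count cosets with
  `gen` and uniqueness of the `n b` modulo `p`.)
* `pos`: `0 < M`, `0 < N`. `ord`: `Finset.univ.toList`.
-/

namespace Pool.Agent.IWA

theorem isUnit_one_add {p : ℕ} {R : Type} [CommRing R] {M : ℕ} (G : GoodRing p R M) {N : ℕ}
    (i : ℕ) (hi : 1 ≤ i) (a : Matrix (Fin N) (Fin N) R) : IsUnit (1 + ((p : R) ^ i) • a) := by
  rw [Matrix.isUnit_iff_isUnit_det, Matrix.det_one_add_smul]
  obtain ⟨j, rfl⟩ : ∃ j, i = j + 1 := ⟨i - 1, by omega⟩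
  set t := a.trace
  set w := (Matrix.det (1 + (Polynomial.X : Polynomial R) • a.map Polynomial.C)).divX.divX.eval
    ((p : R) ^ (j + 1)) with hw
  have h1 : 1 + t * (p : R) ^ (j + 1) + w * ((p : R) ^ (j + 1)) ^ 2 =
      1 + (p : R) * (t * (p : R) ^ j + w * (p : R) ^ j * (p : R) ^ (j + 1)) := by
    rw [pow_succ]
    ring
  rw [h1]
  exact G.unit _

section

variable {p : ℕ} {R : Type} [CommRing R] {M : ℕ} {N : ℕ}

/-- the unit `1 + p ^ i a` -/
private noncomputable def GLTow_u (G : GoodRing p R M) (i : ℕ) (hi : 1 ≤ i)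
    (a : Matrix (Fin N) (Fin N) R) : (Matrix (Fin N) (Fin N) R)ˣ :=
  (isUnit_one_add G i hi a).unit

private theorem GLTow_u_val (G : GoodRing p R M) (i : ℕ) (hi : 1 ≤ i)
    (a : Matrix (Fin N) (Fin N) R) :
    (GLTow_u G i hi a : Matrix (Fin N) (Fin N) R) = 1 + ((p : R) ^ i) • a := rfl

private theorem GLTow_mono {i j : ℕ} (h : i ≤ j) : cg R N p j ≤ cg R N p i := by
  rintro u ⟨a, ha⟩
  obtain ⟨d, rfl⟩ := Nat.exists_eq_add_of_le h
  refine ⟨((p : R) ^ d) • a, ?_⟩
  rw [ha, smul_smul, pow_add]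

private theorem GLTow_tf (G : GoodRing p R M) (k : ℕ) (c : R) (h : (p : R) ^ k * c = 0) :
    c = 0 := by
  induction k with
  | zero => simpa using h
  | succ k ih =>
    apply ih
    apply G.tf
    rw [← mul_assoc, ← pow_succ']
    exact h

private theorem GLTow_inj (G : GoodRing p R M) (k : ℕ) {a b : Matrix (Fin N) (Fin N) R}
    (h : 1 + ((p : R) ^ k) • a = 1 + ((p : R) ^ k) • b) : a = b := by
  have h1 : ((p : R) ^ k) • (a - b) = 0 := by
    rw [smul_sub]
    exact sub_eq_zero.2 (add_left_cancel h)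
  ext i j
  have h2 := congrFun (congrFun h1 i) j
  rw [Matrix.smul_apply, smul_eq_mul, Matrix.zero_apply, Matrix.sub_apply] at h2
  exact sub_eq_zero.1 (GLTow_tf G k _ h2)

private theorem GLTow_normal (i : ℕ) : (cg R N p i).Normal := by
  constructor
  rintro u ⟨a, ha⟩ v
  refine ⟨(v : Matrix (Fin N) (Fin N) R) * a * (v⁻¹ : (Matrix (Fin N) (Fin N) R)ˣ), ?_⟩
  rw [Units.val_mul, Units.val_mul, ha, mul_add, mul_one, add_mul, Units.mul_inv,
    Matrix.mul_smul, Matrix.smul_mul]

private theorem GLTow_comm {i j : ℕ} {g h : (Matrix (Fin N) (Fin N) R)ˣ}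
    (hg : g ∈ cg R N p i) (hh : h ∈ cg R N p j) : g * h * g⁻¹ * h⁻¹ ∈ cg R N p (i + j) := by
  obtain ⟨a, ha⟩ := hg
  obtain ⟨b, hb⟩ := hh
  refine ⟨(a * b - b * a) * (g⁻¹ : (Matrix (Fin N) (Fin N) R)ˣ) *
    (h⁻¹ : (Matrix (Fin N) (Fin N) R)ˣ), ?_⟩
  have h1 : (g : Matrix (Fin N) (Fin N) R) * h - h * g =
      ((p : R) ^ (i + j)) • (a * b - b * a) := by
    rw [ha, hb, pow_add, smul_sub, mul_comm ((p : R) ^ i), ← smul_smul, ← smul_smul]
    simp only [add_mul, mul_add, one_mul, mul_one, Matrix.smul_mul, Matrix.mul_smul]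
    rw [smul_comm ((p : R) ^ i) ((p : R) ^ j) (b * a)]
    abel
  have h2 : (g : Matrix (Fin N) (Fin N) R) * h * (g⁻¹ : (Matrix (Fin N) (Fin N) R)ˣ) *
      (h⁻¹ : (Matrix (Fin N) (Fin N) R)ˣ) =
      1 + ((g : Matrix (Fin N) (Fin N) R) * h - h * g) * (g⁻¹ : (Matrix (Fin N) (Fin N) R)ˣ) *
      (h⁻¹ : (Matrix (Fin N) (Fin N) R)ˣ) := by
    rw [sub_mul, sub_mul, mul_assoc (h : Matrix (Fin N) (Fin N) R) g, Units.mul_inv, mul_one,
      Units.mul_inv]
    abel
  rw [Units.val_mul, Units.val_mul, Units.val_mul, h2, h1, Matrix.smul_mul, Matrix.smul_mul]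

/-- ordered products modulo `p ^ (k+1)` -/
private theorem GLTow_prod {ι : Type} {k : ℕ} (hk : 1 ≤ k) (f : ι → (Matrix (Fin N) (Fin N) R)ˣ)
    (a c : ι → Matrix (Fin N) (Fin N) R)
    (h : ∀ b, (f b : Matrix (Fin N) (Fin N) R) = 1 + ((p : R) ^ k) • a b +
      ((p : R) ^ (k + 1)) • c b) (l : List ι) :
    ∃ d : Matrix (Fin N) (Fin N) R, (((l.map f).prod : (Matrix (Fin N) (Fin N) R)ˣ) :
      Matrix (Fin N) (Fin N) R) = 1 + ((p : R) ^ k) • (l.map a).sum +
      ((p : R) ^ (k + 1)) • d := by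
  induction l with
  | nil => exact ⟨0, by simp⟩
  | cons b l ih =>
    obtain ⟨d, hd⟩ := ih
    obtain ⟨k', rfl⟩ : ∃ k', k = k' + 1 := ⟨k - 1, by omega⟩
    refine ⟨c b + d + ((p : R) ^ k') • (a b * (l.map a).sum) +
      ((p : R) ^ (k' + 1)) • (a b * d) + ((p : R) ^ (k' + 1)) • (c b * (l.map a).sum) +
      ((p : R) ^ (k' + 1 + 1)) • (c b * d), ?_⟩
    rw [List.map_cons, List.prod_cons, Units.val_mul, hd, h b, List.map_cons, List.sum_cons]
    ext i j
    simp only [add_mul, mul_add, one_mul, mul_one, Matrix.smul_mul, Matrix.mul_smul,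
      Matrix.add_apply, Matrix.smul_apply, smul_eq_mul]
    ring

/-- the coordinates modulo `p` -/
private noncomputable def GLTow_co (G : GoodRing p R M) (c : R) (l : Fin M) : ZMod p :=
  ((Classical.choose (G.span c) l : ℕ) : ZMod p)

private theorem GLTow_co_eq (G : GoodRing p R M) {c : R} {z : Fin M → ℤ}
    (h : (p : R) ∣ c - ∑ l, (z l : R) * G.y l) (l : Fin M) : GLTow_co G c l = (z l : ZMod p) := by
  have h1 := Classical.choose_spec (G.span c)
  set n := Classical.choose (G.span c) with hn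
  have h2 : (p : R) ∣ ∑ l, (((z l - (n l : ℤ)) : ℤ) : R) * G.y l := by
    have h3 := dvd_sub h1 h
    have h4 : c - ∑ l, (n l : R) * G.y l - (c - ∑ l, (z l : R) * G.y l) =
        ∑ l, (((z l - (n l : ℤ)) : ℤ) : R) * G.y l := by
      rw [sub_sub_sub_cancel_left, ← Finset.sum_sub_distrib]
      refine Finset.sum_congr rfl fun l _ => ?_
      push_cast
      ring
    rw [h4] at h3
    exact h3
  have h5 := G.indep _ h2 l
  unfold GLTow_co
  rw [← hn]
  have h6 : (((n l : ℕ) : ℤ) : ZMod p) = (z l : ZMod p) :=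
    (ZMod.intCast_eq_intCast_iff_dvd_sub _ _ p).2 h5
  rw [← h6]
  push_cast
  rfl

private theorem GLTow_co_add (G : GoodRing p R M) (c d : R) (l : Fin M) :
    GLTow_co G (c + d) l = GLTow_co G c l + GLTow_co G d l := by
  have h1 := Classical.choose_spec (G.span c)
  have h2 := Classical.choose_spec (G.span d)
  set n := Classical.choose (G.span c) with hn
  set n' := Classical.choose (G.span d) with hn'
  rw [GLTow_co_eq G (c := c + d) (z := fun l => (n l : ℤ) + (n' l : ℤ))]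
  · unfold GLTow_co
    rw [← hn, ← hn']
    push_cast
    rfl
  · have h3 := dvd_add h1 h2
    have h4 : c - ∑ l, (n l : R) * G.y l + (d - ∑ l, (n' l : R) * G.y l) =
        c + d - ∑ l, ((((n l : ℤ) + (n' l : ℤ)) : ℤ) : R) * G.y l := by
      have : ∑ l, ((((n l : ℤ) + (n' l : ℤ)) : ℤ) : R) * G.y l =
          ∑ l, (n l : R) * G.y l + ∑ l, (n' l : R) * G.y l := by
        rw [← Finset.sum_add_distrib]
        refine Finset.sum_congr rfl fun l _ => ?_
        push_cast
        ring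
      rw [this]
      ring
    rw [h4] at h3
    exact h3

private theorem GLTow_co_zero (G : GoodRing p R M) (c : R) :
    (∀ l, GLTow_co G c l = 0) ↔ (p : R) ∣ c := by
  constructor
  · intro h
    have h1 := Classical.choose_spec (G.span c)
    set n := Classical.choose (G.span c) with hn
    have h2 : (p : R) ∣ ∑ l, (n l : R) * G.y l := by
      refine Finset.dvd_sum fun l _ => ?_
      have h3 : ((n l : ℕ) : ZMod p) = 0 := h l
      rw [ZMod.natCast_eq_zero_iff] at h3
      obtain ⟨t, ht⟩ := h3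
      rw [ht]
      push_cast
      exact ⟨(t : R) * G.y l, by ring⟩
    have := dvd_add h1 h2
    rwa [sub_add_cancel] at this
  · intro h l
    rw [GLTow_co_eq G (c := c) (z := fun _ => 0)]
    · simp
    · simpa using h

/-- the matrix `a` with `g = 1 + p ^ k a` -/
private noncomputable def GLTow_A {k : ℕ} {g : (Matrix (Fin N) (Fin N) R)ˣ}
    (hg : g ∈ cg R N p k) : Matrix (Fin N) (Fin N) R := Classical.choose hg

private theorem GLTow_A_spec {k : ℕ} {g : (Matrix (Fin N) (Fin N) R)ˣ} (hg : g ∈ cg R N p k) :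
    (g : Matrix (Fin N) (Fin N) R) = 1 + ((p : R) ^ k) • GLTow_A hg := Classical.choose_spec hg

/-- the homomorphism to the coordinates -/
private noncomputable def GLTow_hom (G : GoodRing p R M) {k : ℕ} (hk : 1 ≤ k) :
    cg R N p k →* Multiplicative (Fin M × Fin N × Fin N → ZMod p) :=
  MonoidHom.mk' (fun g => Multiplicative.ofAdd fun b =>
    GLTow_co G (GLTow_A g.2 b.2.1 b.2.2) b.1) (by
    rintro ⟨g, hg⟩ ⟨h, hh⟩
    apply Multiplicative.toAdd.injective
    funext b
    have h1 : GLTow_A (mul_mem hg hh) = GLTow_A hg + GLTow_A hh +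
        ((p : R) ^ k) • (GLTow_A hg * GLTow_A hh) := by
      apply GLTow_inj G k
      rw [← GLTow_A_spec (mul_mem hg hh), Units.val_mul, GLTow_A_spec hg, GLTow_A_spec hh,
        add_mul, mul_add, mul_add, one_mul, mul_one, one_mul, smul_add, smul_add,
        Matrix.smul_mul, Matrix.mul_smul]
      abel
    have h2 : GLTow_co G ((((p : R) ^ k) • (GLTow_A hg * GLTow_A hh)) b.2.1 b.2.2) b.1 = 0 := by
      apply (GLTow_co_zero G _).2
      rw [Matrix.smul_apply, smul_eq_mul]
      exact Dvd.dvd.mul_right (dvd_pow_self _ (by omega)) _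
    show GLTow_co G (GLTow_A (mul_mem hg hh) b.2.1 b.2.2) b.1 =
      GLTow_co G (GLTow_A hg b.2.1 b.2.2) b.1 + GLTow_co G (GLTow_A hh b.2.1 b.2.2) b.1
    rw [h1, Matrix.add_apply, Matrix.add_apply, GLTow_co_add, GLTow_co_add, h2, add_zero])

private theorem GLTow_ker (G : GoodRing p R M) {k : ℕ} (hk : 1 ≤ k) (g : cg R N p k) :
    GLTow_hom G hk g = 1 ↔ (g : (Matrix (Fin N) (Fin N) R)ˣ) ∈ cg R N p (k + 1) := by
  obtain ⟨g, hg⟩ := g
  have h0 : GLTow_hom G hk ⟨g, hg⟩ = 1 ↔
      ∀ b : Fin M × Fin N × Fin N, GLTow_co G (GLTow_A hg b.2.1 b.2.2) b.1 = 0 := by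
    constructor
    · intro h b
      exact congrFun (congrArg Multiplicative.toAdd h) b
    · intro h
      apply Multiplicative.toAdd.injective
      funext b
      exact h b
  rw [h0]
  constructor
  · intro h
    have h1 : ∀ i j, ∃ c : R, GLTow_A hg i j = (p : R) * c := by
      intro i j
      exact (GLTow_co_zero G _).1 fun l => h (l, i, j)
    choose c hc using h1
    refine ⟨Matrix.of fun i j => c i j, ?_⟩
    show (g : Matrix (Fin N) (Fin N) R) = _
    rw [GLTow_A_spec hg]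
    congr 1
    ext i j
    rw [Matrix.smul_apply, Matrix.smul_apply, hc, Matrix.of_apply, smul_eq_mul, smul_eq_mul,
      pow_succ, mul_assoc]
  · rintro ⟨a, ha⟩ b
    have h1 : GLTow_A hg = (p : R) • a := by
      apply GLTow_inj G k
      rw [← GLTow_A_spec hg]
      refine ha.trans ?_
      rw [smul_smul, pow_succ]
    rw [h1]
    refine (GLTow_co_zero G _).2 ?_ b.1
    rw [Matrix.smul_apply, smul_eq_mul]
    exact Dvd.intro _ rfl

private theorem GLTow_surj [Fact p.Prime] (G : GoodRing p R M) {k : ℕ} (hk : 1 ≤ k) :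
    Function.Surjective (GLTow_hom (N := N) G hk) := by
  intro v
  let a : Matrix (Fin N) (Fin N) R := Matrix.of fun j k =>
    ∑ l, (((Multiplicative.toAdd v (l, j, k)).val : ℕ) : R) * G.y l
  refine ⟨⟨GLTow_u G k hk a, ⟨a, rfl⟩⟩, ?_⟩
  apply Multiplicative.toAdd.injective
  funext b
  have hm : GLTow_u G k hk a ∈ cg R N p k := ⟨a, rfl⟩
  show GLTow_co G (GLTow_A hm b.2.1 b.2.2) b.1 = Multiplicative.toAdd v b
  have h1 : GLTow_A hm = a := by
    apply GLTow_inj G k
    rw [← GLTow_A_spec hm]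
    rfl
  rw [h1, GLTow_co_eq G (c := a b.2.1 b.2.2)
    (z := fun l => (((Multiplicative.toAdd v (l, b.2.1, b.2.2)).val : ℕ) : ℤ))]
  · push_cast
    rw [ZMod.natCast_zmod_val]
  · have : a b.2.1 b.2.2 - ∑ l, ((((((Multiplicative.toAdd v (l, b.2.1, b.2.2)).val : ℕ) : ℤ)) : ℤ) :
        R) * G.y l = 0 := by
      simp only [a, Matrix.of_apply]
      rw [sub_eq_zero]
      refine Finset.sum_congr rfl fun l _ => ?_
      push_cast
      rfl
    rw [this]
    exact dvd_zero _

private theorem GLTow_relIndex [Fact p.Prime] (G : GoodRing p R M) {k : ℕ} (hk : 1 ≤ k) :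
    (cg R N p (k + 1)).relIndex (cg R N p k) =
      p ^ Fintype.card (Fin M × Fin N × Fin N) := by
  have h1 : (cg R N p (k + 1)).subgroupOf (cg R N p k) = (GLTow_hom G hk).ker := by
    ext g
    rw [Subgroup.mem_subgroupOf, MonoidHom.mem_ker, GLTow_ker]
  rw [Subgroup.relIndex, h1, Subgroup.index_ker, MonoidHom.range_eq_top.2 (GLTow_surj G hk)]
  rw [Nat.card_congr (Subgroup.topEquiv).toEquiv, Nat.card_congr Multiplicative.toAdd,
    Nat.card_eq_fintype_card, Fintype.card_fun, ZMod.card]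

private theorem GLTow_gen [Fact p.Prime] (G : GoodRing p R M) {k : ℕ} (hk : 1 ≤ k)
    (f : (Fin M × Fin N × Fin N → ℕ) → Fin M × Fin N × Fin N → (Matrix (Fin N) (Fin N) R)ˣ)
    (hf : ∀ n b, ∃ c : Matrix (Fin N) (Fin N) R, (f n b : Matrix (Fin N) (Fin N) R) =
      1 + ((p : R) ^ k) • ((n b : R) • Matrix.single b.2.1 b.2.2 (G.y b.1)) +
        ((p : R) ^ (k + 1)) • c) {g : (Matrix (Fin N) (Fin N) R)ˣ} (hg : g ∈ cg R N p k) :
    ∃ n : Fin M × Fin N × Fin N → ℕ,
      (((Finset.univ.toList : List (Fin M × Fin N × Fin N)).map (f n)).prod)⁻¹ * g ∈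
        cg R N p (k + 1) := by
  obtain ⟨a, ha⟩ := hg
  have h1 : ∀ i j, ∃ n : Fin M → ℕ, (p : R) ∣ a i j - ∑ l, (n l : R) * G.y l := fun i j =>
    G.span _
  choose n hn using h1
  choose t ht using hn
  refine ⟨fun b => n b.2.1 b.2.2 b.1, ?_⟩
  choose c hc using hf (fun b => n b.2.1 b.2.2 b.1)
  obtain ⟨d, hd⟩ := GLTow_prod hk (f fun b => n b.2.1 b.2.2 b.1)
    (fun b => ((n b.2.1 b.2.2 b.1 : ℕ) : R) • Matrix.single b.2.1 b.2.2 (G.y b.1)) c hc
    (Finset.univ.toList : List (Fin M × Fin N × Fin N))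
  set P := ((Finset.univ.toList : List (Fin M × Fin N × Fin N)).map
    (f fun b => n b.2.1 b.2.2 b.1)).prod with hP
  have hsum : ((Finset.univ.toList : List (Fin M × Fin N × Fin N)).map (fun b =>
      ((n b.2.1 b.2.2 b.1 : ℕ) : R) • Matrix.single b.2.1 b.2.2 (G.y b.1))).sum =
      Matrix.of fun i j => ∑ l, (n i j l : R) * G.y l := by
    rw [Finset.sum_map_toList]
    ext i j
    rw [Matrix.sum_apply, Fintype.sum_prod_type, Matrix.of_apply]
    refine Finset.sum_congr rfl fun l _ => ?_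
    rw [Fintype.sum_prod_type, Finset.sum_eq_single i, Finset.sum_eq_single j]
    · rw [Matrix.smul_apply, Matrix.single_apply_same, smul_eq_mul]
    · intro j' _ hj'
      rw [Matrix.smul_apply, Matrix.single_apply_of_ne _ _ _ _ _ (by
        rintro ⟨-, h⟩
        exact hj' h), smul_zero]
    · intro h
      exact absurd (Finset.mem_univ _) h
    · intro i' _ hi'
      refine Finset.sum_eq_zero fun j' _ => ?_
      rw [Matrix.smul_apply, Matrix.single_apply_of_ne _ _ _ _ _ (by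
        rintro ⟨h, -⟩
        exact hi' h), smul_zero]
    · intro h
      exact absurd (Finset.mem_univ _) h
  have ha2 : a = (Matrix.of fun i j => ∑ l, (n i j l : R) * G.y l) +
      (p : R) • Matrix.of t := by
    ext i j
    rw [Matrix.add_apply, Matrix.smul_apply, Matrix.of_apply, Matrix.of_apply, smul_eq_mul, ← ht]
    ring
  refine ⟨(P⁻¹ : (Matrix (Fin N) (Fin N) R)ˣ) * (Matrix.of t - d), ?_⟩
  have h2 : (g : Matrix (Fin N) (Fin N) R) - P = ((p : R) ^ (k + 1)) • (Matrix.of t - d) := by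
    rw [ha, hd, hsum, ha2, smul_add, smul_smul, smul_sub, pow_succ]
    abel
  rw [Units.val_mul, ← Matrix.mul_smul, ← h2, mul_sub, Units.inv_mul]
  abel

end

theorem exists_GLTower {p : ℕ} [Fact p.Prime] {R : Type} [CommRing R] {M : ℕ}
    (G : GoodRing p R M) (N e : ℕ) (he : 3 ≤ p ^ e) (he1 : 1 ≤ e) (hM : 0 < M) (hN : 0 < N) :
    Nonempty (GLTower G N e) := by
  let a0 : Fin M × Fin N × Fin N → Matrix (Fin N) (Fin N) R := fun b =>
    Matrix.single b.2.1 b.2.2 (G.y b.1)
  let x : Fin M × Fin N × Fin N → cg R N p e := fun b =>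
    ⟨GLTow_u G e he1 (a0 b), ⟨a0 b, rfl⟩⟩
  have hxv : ∀ b, ((x b : (Matrix (Fin N) (Fin N) R)ˣ) : Matrix (Fin N) (Fin N) R) =
      1 + ((p : R) ^ e) • a0 b := fun b => rfl
  have hpow : ∀ (i m : ℕ) (b : Fin M × Fin N × Fin N), ∃ c : Matrix (Fin N) (Fin N) R,
      (((x b : (Matrix (Fin N) (Fin N) R)ˣ) ^ (p ^ i * m) : (Matrix (Fin N) (Fin N) R)ˣ) :
        Matrix (Fin N) (Fin N) R) = 1 + ((p : R) ^ (e + i)) • ((m : R) • a0 b) +
          ((p : R) ^ (e + i + 1)) • c := by
    intro i m b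
    obtain ⟨c, hc⟩ := pow_mul_cg he he1 (a0 b) i m
    refine ⟨c, ?_⟩
    rw [Units.val_pow_eq_pow_val, hxv, hc]
  have hLn : ∀ i, ((cg R N p (e + i)).subgroupOf (cg R N p e)).Normal := by
    intro i
    haveI := GLTow_normal (R := R) (N := N) (p := p) (e + i)
    exact Subgroup.normal_subgroupOf
  refine ⟨⟨{
    L := fun i => (cg R N p (e + i)).subgroupOf (cg R N p e)
    x := x
    ord := Finset.univ.toList
    nodup := Finset.nodup_toList _
    complete := fun b => by simp
    normal := hLn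
    L_zero := by
      rw [add_zero]
      exact Subgroup.subgroupOf_self _
    anti := ?_
    index := ?_
    gen := ?_
    comm := ?_
    pow := ?_
    he := he
    pos := ?_ }, fun i => rfl, ?_⟩⟩
  · intro i j hij
    exact Subgroup.comap_mono (GLTow_mono (by omega))
  · intro J
    induction J with
    | zero =>
      rw [add_zero, Subgroup.subgroupOf_self, zero_mul, pow_zero]
      exact Subgroup.index_top
    | succ J ih =>
      have h1 : (cg R N p (e + (J + 1))).subgroupOf (cg R N p e) ≤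
          (cg R N p (e + J)).subgroupOf (cg R N p e) :=
        Subgroup.comap_mono (GLTow_mono (by omega))
      rw [← Subgroup.relIndex_mul_index h1, ih]
      have h2 : ((cg R N p (e + (J + 1))).subgroupOf (cg R N p e)).relIndex
          ((cg R N p (e + J)).subgroupOf (cg R N p e)) =
          (cg R N p (e + J + 1)).relIndex (cg R N p (e + J)) := by
        rw [Subgroup.relIndex_subgroupOf (GLTow_mono (by omega))]
        rfl
      rw [h2, GLTow_relIndex G (by omega : 1 ≤ e + J), ← pow_add]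
      congr 1
      ring
  · intro i g hg
    obtain ⟨n, hn⟩ := GLTow_gen G (by omega : 1 ≤ e + i)
      (fun n b => (x b : (Matrix (Fin N) (Fin N) R)ˣ) ^ (p ^ i * n b))
      (fun n b => hpow i (n b) b) (g := (g : (Matrix (Fin N) (Fin N) R)ˣ)) hg
    refine ⟨n, ?_⟩
    rw [Subgroup.mem_subgroupOf]
    have h1 : ((((Finset.univ.toList : List (Fin M × Fin N × Fin N)).map fun b =>
        x b ^ (p ^ i * n b)).prod : cg R N p e) : (Matrix (Fin N) (Fin N) R)ˣ) =
        ((Finset.univ.toList : List (Fin M × Fin N × Fin N)).map fun b =>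
          (x b : (Matrix (Fin N) (Fin N) R)ˣ) ^ (p ^ i * n b)).prod := by
      rw [Subgroup.val_list_prod, List.map_map]
      rfl
    rw [Subgroup.coe_mul, Subgroup.coe_inv, h1]
    exact hn
  · intro i j g hg h hh
    rw [Subgroup.mem_subgroupOf] at hg hh ⊢
    have h1 := GLTow_comm hg hh
    have h2 : e + (i + j + e) = e + i + (e + j) := by ring
    rw [h2]
    exact h1
  · intro i b
    rw [Subgroup.mem_subgroupOf]
    obtain ⟨c, hc⟩ := hpow i 1 b
    refine ⟨a0 b + (p : R) • c, ?_⟩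
    rw [mul_one] at hc
    rw [Subgroup.coe_pow, hc, Nat.cast_one, one_smul, smul_add, smul_smul, pow_succ _ (e + i),
      add_assoc]
  · haveI : Nonempty (Fin M × Fin N × Fin N) := ⟨(⟨0, hM⟩, ⟨0, hN⟩, ⟨0, hN⟩)⟩
    exact Fintype.card_pos
  · intro l j k
    show 1 + ((p : R) ^ e) • Matrix.single j k (G.y l) = _
    rw [Matrix.smul_single, smul_eq_mul]

end Pool.Agent.IWA
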