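import Mathlib
import Pool.Agent.IWA.Trans
import Pool.Agent.IWA.ThetaDefs
import Pool.Agent.IWA.Bridge

/-!
# IWA / HatHom : from group algebras to completed group algebras (MP_05b873_al)

Paper proofs. `hatHom T a` sends `x` to the family of its images in the group algebras of
`P ⧸ L J`. `nrk_tower`: `rkR_div_card_eq_nrk` for `Q = P ⧸ L J`, `φ = mk ∘ a`, with kernel `D`;
`Nat.card Q = (L J).index = p ^ (J * D)`. `nrk_theta`: `thLift` composed with the map induced by
`mk ∘ a` is induced by `θ ∘ a = mk ∘ a'`; then `rkR_div_card_eq_nrk` for `Q = P' ⧸ L' J`.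
-/

namespace Pool.Agent.IWA

open Pool.Agent.CIR

variable {p e : ℕ} [Fact p.Prime] {ι : Type} [Fintype ι] {P : Type} [Group P] {G : Type} [Group G]

/-- the homomorphism from the group algebra of `G` to the completed group algebra -/
noncomputable def hatHom (T : UTower p e ι P) (a : G →* P) :
    MonoidAlgebra (ZMod p) G →+* T.Hat :=
  (RingHom.pi fun J => MonoidAlgebra.mapDomainRingHom (ZMod p)
    ((QuotientGroup.mk' (T.L J)).comp a)).codRestrict T.Hat (by
      intro x J
      have h : (T.tr (Nat.le_succ J)).comp (MonoidAlgebra.mapDomainRingHom (ZMod p)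
          ((QuotientGroup.mk' (T.L (J + 1))).comp a)) = MonoidAlgebra.mapDomainRingHom (ZMod p)
          ((QuotientGroup.mk' (T.L J)).comp a) := by
        apply MonoidAlgebra.ringHom_ext
        · intro r
          simp [UTower.tr]
        · intro g
          simp [UTower.tr]
      exact congrArg (fun f => f x) h)

theorem proj_hatHom (T : UTower p e ι P) (a : G →* P) (J : ℕ) (x : MonoidAlgebra (ZMod p) G) :
    T.proj J (hatHom T a x) = MonoidAlgebra.mapDomainRingHom (ZMod p)
      ((QuotientGroup.mk' (T.L J)).comp a) x := rfl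

omit [Fact p.Prime] in
theorem hathom_card (T : UTower p e ι P) (J : ℕ) :
    Nat.card (P ⧸ T.L J) = p ^ (J * Fintype.card ι) := by
  rw [← Subgroup.index_eq_card, T.index]

theorem hathom_finite (T : UTower p e ι P) (J : ℕ) : Finite (P ⧸ T.L J) := by
  apply Nat.finite_of_card_ne_zero
  rw [hathom_card T J]
  exact pow_ne_zero _ (Fact.out : p.Prime).ne_zero

theorem hathom_nrk (T : UTower p e ι P) (a : G →* P) (J : ℕ) (D : Subgroup G)
    (hD : ∀ g, g ∈ D ↔ a g ∈ T.L J) {m n : ℕ}
    (A : Matrix (Fin m) (Fin n) (MonoidAlgebra (ZMod p) G)) :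
    nrk A D = (rkR (ZMod p) (A.map (MonoidAlgebra.mapDomainRingHom (ZMod p)
      ((QuotientGroup.mk' (T.L J)).comp a))) : ℝ) / p ^ (J * Fintype.card ι) := by
  have hker : ((QuotientGroup.mk' (T.L J)).comp a).ker = D := by
    ext g
    rw [MonoidHom.mem_ker, MonoidHom.comp_apply, QuotientGroup.mk'_apply,
      QuotientGroup.eq_one_iff, hD g]
  have hf : Finite (P ⧸ T.L J) := hathom_finite T J
  have hb := rkR_div_card_eq_nrk (K := ZMod p) ((QuotientGroup.mk' (T.L J)).comp a) A
  rw [hker, hathom_card T J, Nat.cast_pow] at hb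
  exact hb.symm

theorem nrk_tower (T : UTower p e ι P) (a : G →* P) (J : ℕ) (D : Subgroup G)
    (hD : ∀ g, g ∈ D ↔ a g ∈ T.L J) {m n : ℕ}
    (A : Matrix (Fin m) (Fin n) (MonoidAlgebra (ZMod p) G)) :
    nrk A D = (rkR (ZMod p) ((A.map (hatHom T a)).map (T.proj J)) : ℝ) /
      p ^ (J * Fintype.card ι) := by
  rw [hathom_nrk T a J D hD A]
  rfl

theorem nrk_theta {M : ℕ} {κ : Type} [Fintype κ] {P' : Type} [Group P']
    (T : UTower p e (Fin M × κ) P) (T' : UTower p e κ P') (J : ℕ) (θ : P →* P' ⧸ T'.L J)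
    (h : ∀ g ∈ T.L J, θ g = 1) (a : G →* P) (a' : G →* P')
    (haa : ∀ g, θ (a g) = (a' g : P' ⧸ T'.L J)) (D : Subgroup G)
    (hD : ∀ g, g ∈ D ↔ a' g ∈ T'.L J) {m n : ℕ}
    (A : Matrix (Fin m) (Fin n) (MonoidAlgebra (ZMod p) G)) :
    nrk A D = (rkR (ZMod p) ((A.map (hatHom T a)).map
      fun x => thLift T T' J θ h (T.proj J x)) : ℝ) / p ^ (J * Fintype.card κ) := by
  rw [hathom_nrk T' a' J D hD A]
  have hcomp : (thLift T T' J θ h).comp (MonoidAlgebra.mapDomainRingHom (ZMod p)
      ((QuotientGroup.mk' (T.L J)).comp a)) = MonoidAlgebra.mapDomainRingHom (ZMod p)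
      ((QuotientGroup.mk' (T'.L J)).comp a') := by
    apply MonoidAlgebra.ringHom_ext
    · intro r
      simp [thLift]
    · intro g
      simp [thLift, haa]
  have hmat : (A.map (hatHom T a)).map (fun x => thLift T T' J θ h (T.proj J x)) =
      A.map (MonoidAlgebra.mapDomainRingHom (ZMod p) ((QuotientGroup.mk' (T'.L J)).comp a')) := by
    ext i j
    rw [Matrix.map_apply, Matrix.map_apply, Matrix.map_apply, proj_hatHom, ← hcomp]
    rfl
  rw [hmat]

end Pool.Agent.IWA
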