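import Mathlib
import Pool.Agent.IWA.Trans

/-!
# IWA / HatDom : the completed group algebra is a domain (MP_05b873_al)

Paper proof. `a, b ≠ 0` have symbols `f, g ≠ 0` of degrees `u, v` at all levels
(`exists_hat_order`). Then `a b` has the symbol `f g ≠ 0` of degree `u + v` at all levels
(`Sym.mul`). Choose a monomial of `f g` and a level `J` such that its exponents are smaller than
`p ^ J`; then `proj J (a b) ≠ 0` by `Sym.ne_zero`. Nontriviality: level `0` (`R 0` is a nontrivial
group algebra).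
-/

namespace Pool.Agent.IWA

namespace UTower

variable {p e : ℕ} [Fact p.Prime] {ι : Type} [Fintype ι] {P : Type} [Group P]
  (T : UTower p e ι P)

/-- for a nonzero polynomial there is a level with a monomial in the box -/
theorem exists_level {f : MvPolynomial ι (ZMod p)} (hf : f ≠ 0) :
    ∃ J₀, ∀ J ≥ J₀, ∃ α ∈ f.support, ∀ b, α b < p ^ J := by
  obtain ⟨α, hα⟩ := MvPolynomial.support_nonempty.2 hf
  have hp : 1 < p := (Fact.out : p.Prime).one_lt
  refine ⟨∑ b, α b, fun J hJ => ⟨α, hα, fun b => ?_⟩⟩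
  have h1 : α b ≤ ∑ b, α b := Finset.single_le_sum (fun _ _ => Nat.zero_le _) (Finset.mem_univ b)
  calc α b ≤ J := h1.trans hJ
    _ < p ^ J := Nat.lt_pow_self hp

theorem hat_mul_ne_zero {a b : T.Hat} (ha : a ≠ 0) (hb : b ≠ 0) : a * b ≠ 0 := by
  obtain ⟨u, f, hf, hfa⟩ := T.exists_hat_order a ha
  obtain ⟨v, g, hg, hgb⟩ := T.exists_hat_order b hb
  obtain ⟨J, hJ⟩ := exists_level (p := p) (mul_ne_zero hf hg)
  obtain ⟨α, hα, hb⟩ := hJ J le_rfl
  have h1 := (hfa J).mul (hgb J)
  intro h0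
  rw [← map_mul, h0, map_zero] at h1
  exact h1.ne_zero ⟨α, hα, hb⟩ rfl

instance hat_noZeroDivisors : NoZeroDivisors T.Hat := by
  refine ⟨fun {a b} h => ?_⟩
  by_contra hc
  rw [not_or] at hc
  exact T.hat_mul_ne_zero hc.1 hc.2 h

instance hat_nontrivial : Nontrivial T.Hat := by
  refine ⟨0, 1, fun h => ?_⟩
  have h1 := congrArg (T.proj 0) h
  rw [map_zero, map_one] at h1
  exact zero_ne_one h1

end UTower

end Pool.Agent.IWA
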