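import Mathlib
import Pool.Agent.IWA.HatDom

/-!
# IWA / HatNoeth : the completed group algebra is left noetherian (MP_05b873_al)

Paper proof. Let `I` be a left ideal of `Hat`. Let `S` be the set of all polynomials `f` for which
there are `v` and `a ∈ I` with `Sym J v f (proj J a)` for all `J`. The ideal of
`MvPolynomial ι (ZMod p)` generated by `S` is finitely generated (Hilbert), hence by finitely many
`f_1, ..., f_s ∈ S` (a finitely generated span of a set is the span of a finite subset,
`Submodule.fg_span_iff_fg_span_finset_subset` or similar), belonging to `a_i ∈ I` and `v_i`.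
Claim: `I = span (a_i)`. Let `a ∈ I`.

Step (`noeth_step`): if `a ∈ I` and `proj J a ∈ F J v` for all `J`, then there are `c_i ∈ Hat` with
`proj J (a - ∑ c_i a_i) ∈ F J (v + 1)` for all `J`. Proof: `a` has a symbol `f` of degree `v` at all
levels (`exists_hat_sym`), `f ∈ S`, so `f = ∑ g_i f_i`; taking the homogeneous component of degree
`v` one can take `g_i` homogeneous of degree `v - v_i` if `v_i ≤ v` and `g_i = 0` otherwise. Put
`c_i = hPhi g_i` and use `Sym.mul`, `Sym_Phi`, `Sym.sum` (for `g_i = 0` the term vanishes).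

Iterating (`noeth_iter`): for each `v` there are `c_i` with `proj J (a - ∑ c_i a_i) ∈ F J v` for all
`J` (start with `F_zero`; the remainder stays in `I`).

Compactness: for each level `J` the set `S_J` of all tuples `c ∈ (R J)^s` with
`proj J a = ∑ c_i proj J a_i` is nonempty (choose `v` with `F J v = ⊥`), finite (`finite_R`), and
`tr` maps `S_(J+1)` to `S_J`. The inverse limit of nonempty finite sets is nonempty
(`nonempty_sections_of_finite_inverse_system`, or a direct Koenig argument). An element of the limit
is a tuple `c` in `Hat` with `a = ∑ c_i a_i`.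
-/

namespace Pool.Agent.IWA

namespace UTower

variable {p e : ℕ} [Fact p.Prime] {ι : Type} [Fintype ι] {P : Type} [Group P]
  (T : UTower p e ι P)

open CategoryTheory in
/-- compactness: a linear equation over `Hat` which is solvable at all levels is solvable -/
theorem exists_hat_solution {s : ℕ} (a : T.Hat) (b : Fin s → T.Hat)
    (h : ∀ J, ∃ c : Fin s → T.R J, T.proj J a = ∑ i, c i * T.proj J (b i)) :
    ∃ c : Fin s → T.Hat, a = ∑ i, c i * b i := by
  classical
  have trid : ∀ (J : ℕ) (x : T.R J), T.tr (le_refl J) x = x := by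
    intro J x
    have h1 : T.tr (le_refl J) = RingHom.id (T.R J) := by
      unfold tr
      have h2 : QuotientGroup.map (T.L J) (T.L J) (MonoidHom.id P) (T.anti (le_refl J))
          = MonoidHom.id _ := by
        apply QuotientGroup.monoidHom_ext
        ext x
        rfl
      rw [h2]
      apply MonoidAlgebra.ringHom_ext
      · intro r
        simp
      · intro g
        simp
    rw [h1]
    rfl
  have trtr : ∀ {J J' J'' : ℕ} (h1 : J ≤ J') (h2 : J' ≤ J'') (x : T.R J''),
      T.tr h1 (T.tr h2 x) = T.tr (h1.trans h2) x := by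
    intro J J' J'' h1 h2 x
    have h3 : (T.tr h1).comp (T.tr h2) = T.tr (h1.trans h2) := by
      unfold tr
      apply MonoidAlgebra.ringHom_ext
      · intro r
        simp
      · intro g
        obtain ⟨g, rfl⟩ := QuotientGroup.mk_surjective g
        simp only [RingHom.comp_apply, MonoidAlgebra.mapDomainRingHom_apply,
          MonoidAlgebra.mapDomain_single]
        rfl
    rw [← h3]
    rfl
  let S : (J : ℕ) → Type := fun J =>
    {c : Fin s → T.R J // T.proj J a = ∑ i, c i * T.proj J (b i)}
  let res : ∀ {J J' : ℕ}, J ≤ J' → S J' → S J := fun {J J'} hJ c =>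
    ⟨fun i => T.tr hJ (c.1 i), by
      have h1 := congrArg (T.tr hJ) c.2
      rw [T.tr_proj hJ, map_sum] at h1
      rw [h1]
      refine Finset.sum_congr rfl fun i _ => ?_
      rw [map_mul, T.tr_proj hJ]⟩
  let Fu : ℕᵒᵖ ⥤ Type :=
    { obj := fun J => S J.unop
      map := fun {_ _} g => ↾(res (CategoryTheory.leOfHom g.unop))
      map_id := by
        intro X
        apply ConcreteCategory.hom_ext
        intro x
        apply Subtype.ext
        funext i
        exact trid _ _
      map_comp := by
        intro X Y Z f g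
        apply ConcreteCategory.hom_ext
        intro x
        apply Subtype.ext
        funext i
        exact (trtr _ _ _).symm }
  have hfin : ∀ J : ℕᵒᵖ, Finite (Fu.obj J) := by
    intro J
    have := T.finite_R J.unop
    exact inferInstanceAs (Finite {c : Fin s → T.R J.unop // _})
  have hne : ∀ J : ℕᵒᵖ, Nonempty (Fu.obj J) := by
    intro J
    obtain ⟨c, hc⟩ := h J.unop
    exact ⟨⟨c, hc⟩⟩
  obtain ⟨u, hu⟩ := nonempty_sections_of_finite_inverse_system Fu
  have key : ∀ J (i : Fin s), T.tr (Nat.le_succ J) ((u (Opposite.op (J + 1))).1 i)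
      = (u (Opposite.op J)).1 i := by
    intro J i
    have := hu (CategoryTheory.homOfLE (Nat.le_succ J)).op
    rw [← this]
    rfl
  refine ⟨fun i => ⟨fun J => (u (Opposite.op J)).1 i, fun J => key J i⟩, ?_⟩
  apply T.Hat_ext
  intro J
  rw [map_sum]
  rw [(u (Opposite.op J)).2]
  refine Finset.sum_congr rfl fun i _ => ?_
  rw [map_mul]
  rfl

omit [Fintype ι] in
/-- the homogeneous component of a product with a homogeneous polynomial -/
theorem HatNoeth_comp_mul {g F : MvPolynomial ι (ZMod p)} {v w : ℕ} (hF : F.IsHomogeneous w) :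
    MvPolynomial.homogeneousComponent v (g * F) =
      if w ≤ v then MvPolynomial.homogeneousComponent (v - w) g * F else 0 := by
  classical
  have h1 : g * F = ∑ j ∈ Finset.range (g.totalDegree + 1),
      MvPolynomial.homogeneousComponent j g * F := by
    rw [← Finset.sum_mul, MvPolynomial.sum_homogeneousComponent]
  rw [h1, map_sum]
  have h2 : ∀ j ∈ Finset.range (g.totalDegree + 1),
      MvPolynomial.homogeneousComponent v (MvPolynomial.homogeneousComponent j g * F)
        = if v = j + w then MvPolynomial.homogeneousComponent j g * F else 0 := by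
    intro j _
    exact MvPolynomial.homogeneousComponent_of_mem
      ((MvPolynomial.homogeneousComponent_isHomogeneous j g).mul hF)
  rw [Finset.sum_congr rfl h2]
  split_ifs with hw
  · by_cases hd : v - w < g.totalDegree + 1
    · rw [Finset.sum_eq_single (v - w)]
      · rw [if_pos (by omega)]
      · intro j _ hj
        rw [if_neg (by omega)]
      · intro hj
        exact absurd (Finset.mem_range.2 hd) hj
    · rw [MvPolynomial.homogeneousComponent_eq_zero (v - w) g (by omega), zero_mul]
      refine Finset.sum_eq_zero fun j hj => ?_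
      have := Finset.mem_range.1 hj
      rw [if_neg (by omega)]
  · refine Finset.sum_eq_zero fun j hj => ?_
    rw [if_neg (by omega)]

theorem HatNoeth_step {n : ℕ} (v : Fin n → ℕ) (F : Fin n → MvPolynomial ι (ZMod p))
    (b : Fin n → T.Hat) (hb : ∀ i J, T.Sym J (v i) (F i) (T.proj J (b i)))
    (a : T.Hat) (w : ℕ) (f : MvPolynomial ι (ZMod p)) (hf : ∀ J, T.Sym J w f (T.proj J a))
    (hmem : ∃ g : Fin n → MvPolynomial ι (ZMod p), ∑ i, g i * F i = f) :
    ∃ c : Fin n → T.Hat, ∀ J, T.proj J (a - ∑ i, c i * b i) ∈ T.F J (w + 1) := by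
  classical
  obtain ⟨g, hg⟩ := hmem
  have hfc : f = ∑ i, (if v i ≤ w then
      MvPolynomial.homogeneousComponent (w - v i) (g i) * F i else 0) := by
    have h0 : MvPolynomial.homogeneousComponent w f = f :=
      MvPolynomial.homogeneousComponent_eq_self (hf 0).1
    rw [← hg, map_sum] at h0
    rw [← hg, ← h0]
    refine Finset.sum_congr rfl fun i _ => ?_
    exact HatNoeth_comp_mul (hb i 0).1
  refine ⟨fun i => if v i ≤ w then
    T.hPhi (MvPolynomial.homogeneousComponent (w - v i) (g i)) else 0, fun J => ?_⟩
  have hs : T.Sym J w f (T.proj J (∑ i, (if v i ≤ w then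
      T.hPhi (MvPolynomial.homogeneousComponent (w - v i) (g i)) else 0) * b i)) := by
    rw [hfc, map_sum]
    apply Sym.sum
    intro i _
    by_cases hi : v i ≤ w
    · rw [if_pos hi, if_pos hi, map_mul, T.proj_hPhi]
      have := (Sym_Phi (T := T) (J := J)
        (MvPolynomial.homogeneousComponent_isHomogeneous (w - v i) (g i))).mul (hb i J)
      rwa [Nat.sub_add_cancel hi] at this
    · rw [if_neg hi, if_neg hi, zero_mul, map_zero]
      exact Sym_zero (Submodule.zero_mem _)
  rw [map_sub]
  have h1 := (hf J).2
  have h2 := hs.2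
  have h3 := Submodule.sub_mem _ h1 h2
  rwa [sub_sub_sub_cancel_right] at h3

instance hat_noetherian : IsNoetherianRing T.Hat := by
  classical
  rw [isNoetherianRing_iff_ideal_fg]
  intro I
  let S : Set (MvPolynomial ι (ZMod p)) :=
    {f | ∃ v, ∃ a ∈ I, ∀ J, T.Sym J v f (T.proj J a)}
  have hfg : (Submodule.span (MvPolynomial ι (ZMod p)) S).FG := IsNoetherian.noetherian _
  obtain ⟨s', hs', hspan⟩ := (Submodule.fg_span_iff_fg_span_finset_subset S).1 hfg
  let n := s'.card
  let F : Fin n → MvPolynomial ι (ZMod p) := fun i => (s'.equivFin.symm i).1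
  have hF : ∀ i, F i ∈ S := fun i => hs' (s'.equivFin.symm i).2
  choose v b hbI hb using hF
  have hrange : Set.range F = (s' : Set (MvPolynomial ι (ZMod p))) := by
    ext x
    constructor
    · rintro ⟨i, rfl⟩
      exact (s'.equivFin.symm i).2
    · intro hx
      refine ⟨s'.equivFin ⟨x, hx⟩, ?_⟩
      change (s'.equivFin.symm (s'.equivFin ⟨x, hx⟩)).1 = x
      rw [Equiv.symm_apply_apply]
  have hcomb : ∀ f ∈ S, ∃ g : Fin n → MvPolynomial ι (ZMod p), ∑ i, g i * F i = f := by
    intro f hf
    have h1 : f ∈ Submodule.span (MvPolynomial ι (ZMod p)) (Set.range F) := by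
      rw [hrange, ← hspan]
      exact Submodule.subset_span hf
    obtain ⟨g, hg⟩ := (Submodule.mem_span_range_iff_exists_fun _).1 h1
    exact ⟨g, by simpa only [smul_eq_mul] using hg⟩
  have hstep : ∀ a ∈ I, ∀ w, (∀ J, T.proj J a ∈ T.F J w) →
      ∃ c : Fin n → T.Hat, ∀ J, T.proj J (a - ∑ i, c i * b i) ∈ T.F J (w + 1) := by
    intro a ha w hw
    obtain ⟨f, hf⟩ := T.exists_hat_sym a w hw
    exact T.HatNoeth_step v F b hb a w f hf (hcomb f ⟨w, a, ha, hf⟩)
  have hiter : ∀ a ∈ I, ∀ w, ∃ c : Fin n → T.Hat,
      ∀ J, T.proj J (a - ∑ i, c i * b i) ∈ T.F J w := by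
    intro a ha w
    induction w with
    | zero =>
      refine ⟨0, fun J => ?_⟩
      rw [T.F_zero]
      exact Submodule.mem_top
    | succ w ih =>
      obtain ⟨c, hc⟩ := ih
      have hsum : ∑ i, c i * b i ∈ I :=
        Submodule.sum_mem _ fun i _ => I.mul_mem_left _ (hbI i)
      obtain ⟨d, hd⟩ := hstep _ (I.sub_mem ha hsum) w hc
      refine ⟨fun i => c i + d i, fun J => ?_⟩
      have h1 : a - ∑ i, (c i + d i) * b i = (a - ∑ i, c i * b i) - ∑ i, d i * b i := by
        simp only [add_mul, Finset.sum_add_distrib]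
        rw [sub_sub]
      rw [h1]
      exact hd J
  refine ⟨Finset.univ.image b, ?_⟩
  apply le_antisymm
  · rw [Ideal.span_le] 
    intro x hx
    simp only [Finset.coe_image, Finset.coe_univ, Set.image_univ] at hx
    obtain ⟨i, rfl⟩ := hx
    exact hbI i
  · intro a ha
    obtain ⟨c, hc⟩ := T.exists_hat_solution a b (by
      intro J
      obtain ⟨w, hw⟩ := T.exists_F_eq_bot J
      obtain ⟨c, hc⟩ := hiter a ha w
      refine ⟨fun i => T.proj J (c i), ?_⟩
      have h1 := hc J
      rw [hw, Submodule.mem_bot, map_sub, sub_eq_zero, map_sum] at h1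
      rw [h1]
      refine Finset.sum_congr rfl fun i _ => ?_
      rw [map_mul])
    rw [hc]
    refine Submodule.sum_mem _ fun i _ => ?_
    apply Submodule.smul_mem
    apply Submodule.subset_span
    simp

end UTower

end Pool.Agent.IWA
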