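import Mathlib
import Pool.Agent.IWA.MonBasis

/-!
# IWA / RankLow : lower bound for the rank of the multiplication by an element (MP_05b873_al)

Paper proof of `rank_ge`. Put `q = p ^ J`, `D = card ι`. Replace `f` by its part `f'` supported in
the box (the other monomials are killed by `Phi J`, `mon_eq_zero`); then `Sym J v f' a`, `f' ≠ 0`.
Fix a monomial order (`MonomialOrder.lex` or `degLex` for some linear order on `ι`, for instance
transported from `Fin D`; or any `MonomialOrder ι`) and let `β` be the leading exponent of `f'`;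
`∑ b, β b = v` and `β` lies in the box. Claim: the elements `a * mon J γ`, for `γ` with
`γ b + β b < q` for all `b`, are linearly independent. Suppose `∑ c_γ (a * mon γ) = 0`, not all
`c_γ` zero, let `u` be the minimum of `|γ|` over all `γ` with `c_γ ≠ 0` and
`g = ∑_{|γ| = u} c_γ X^γ ≠ 0`. The element `∑ c_γ mon γ` has the symbol `g` of degree `u`, so `0` has
the symbol `f' * g` of degree `v + u` (`Sym.mul`), and by `Sym.mem_succ_iff` all monomials of
`f' * g` are outside of the box. But the leading exponent of `f' * g` is `β + γ*` with `γ*` the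
leading exponent of `g` (the coefficients form a field; `MonomialOrder.degree_mul`), and this is in
the box. Contradiction. The number of such `γ` is `∏ b, (q - β b) ≥ q ^ D - v q ^ (D - 1)`
(induction on the finset, all `β b < q`). All these elements lie in the range of the
multiplication by `a`.
-/

namespace Pool.Agent.IWA

open Module

namespace UTower

variable {p e : ℕ} [Fact p.Prime] {ι : Type} [Fintype ι] {P : Type} [Group P]
  (T : UTower p e ι P)

/-- `∏ (q - β b) ≥ q ^ D - (∑ β b) q ^ (D - 1)` -/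
theorem prod_sub_ge {κ : Type} (s : Finset κ) (q : ℕ) (β : κ → ℕ) (h : ∀ b ∈ s, β b ≤ q)
    (hs : s.Nonempty) :
    q ^ s.card ≤ ∏ b ∈ s, (q - β b) + (∑ b ∈ s, β b) * q ^ (s.card - 1) := by
  classical
  induction s using Finset.induction_on with
  | empty => exact absurd hs Finset.not_nonempty_empty
  | insert a s ha ih =>
    rw [Finset.card_insert_of_notMem ha, Finset.prod_insert ha, Finset.sum_insert ha,
      Nat.add_sub_cancel]
    have h1 : β a ≤ q := h a (Finset.mem_insert_self a s)
    rcases s.eq_empty_or_nonempty with rfl | hs'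
    · rw [Finset.card_empty, Finset.prod_empty, Finset.sum_empty]
      simp only [zero_add, pow_one, mul_one, add_zero, pow_zero]
      omega
    · have h2 := ih (fun b hb => h b (Finset.mem_insert_of_mem hb)) hs'
      obtain ⟨c, hc⟩ : ∃ c, s.card = c + 1 := ⟨s.card - 1, by
        have := Finset.card_pos.2 hs'
        omega⟩
      rw [hc, Nat.add_sub_cancel] at h2
      rw [hc]
      generalize hP : ∏ b ∈ s, (q - β b) = Q at h2 ⊢
      generalize hS : ∑ b ∈ s, β b = S at h2 ⊢
      obtain ⟨r, hr⟩ := Nat.exists_eq_add_of_le h1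
      have h3 : q - β a = r := by omega
      rw [h3]
      have h4 : r ≤ q := by omega
      calc q ^ (c + 1 + 1) = r * q ^ (c + 1) + β a * q ^ (c + 1) := by
            rw [pow_succ' q (c + 1), ← add_mul, add_comm r, ← hr]
        _ ≤ r * (Q + S * q ^ c) + β a * q ^ (c + 1) := by
            exact Nat.add_le_add_right (Nat.mul_le_mul_left r h2) _
        _ = r * Q + r * (S * q ^ c) + β a * q ^ (c + 1) := by rw [mul_add]
        _ ≤ r * Q + q * (S * q ^ c) + β a * q ^ (c + 1) := by
            exact Nat.add_le_add_right (Nat.add_le_add_left (Nat.mul_le_mul_right _ h4) _) _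
        _ = r * Q + (β a + S) * q ^ (c + 1) := by ring

private theorem RankLow_deg {f : MvPolynomial ι (ZMod p)} {v : ℕ} (hf : f.IsHomogeneous v)
    {α : ι →₀ ℕ} (hα : α ∈ f.support) : ∑ b, α b = v := by
  have h1 := hf (MvPolynomial.mem_support_iff.1 hα)
  have h2 : Finsupp.degree α = Finsupp.weight (1 : ι → ℕ) α := by
    rw [Finsupp.degree_eq_weight_one]
    rfl
  rw [← h1, ← h2, Finsupp.degree_eq_sum]

private theorem RankLow_hom (α : ι →₀ ℕ) (c : ZMod p) :
    (MvPolynomial.monomial α c).IsHomogeneous (∑ b, α b) := by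
  refine MvPolynomial.isHomogeneous_monomial c ?_
  rw [Finsupp.degree_eq_sum]

private theorem RankLow_Phi (J : ℕ) (f : MvPolynomial ι (ZMod p)) :
    T.Phi J f = ∑ α ∈ f.support, f.coeff α • T.mon J α := by
  conv_lhs => rw [← MvPolynomial.support_sum_monomial_coeff f]
  rw [map_sum]
  exact Finset.sum_congr rfl fun α _ => T.Phi_monomial J α _

variable {T} in
private theorem RankLow_box {J v : ℕ} {f : MvPolynomial ι (ZMod p)} {a : T.R J}
    (h : T.Sym J v f a) (h2 : ∃ α ∈ f.support, ∀ b, α b < p ^ J) :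
    ∃ f' : MvPolynomial ι (ZMod p), T.Sym J v f' a ∧ f' ≠ 0 ∧
      ∀ α ∈ f'.support, ∀ b, α b < p ^ J := by
  classical
  set s := f.support.filter (fun α : ι →₀ ℕ => ∀ b, α b < p ^ J) with hs
  set f' : MvPolynomial ι (ZMod p) := ∑ α ∈ s, MvPolynomial.monomial α (f.coeff α) with hf'
  have hco : ∀ β, f'.coeff β = if β ∈ s then f.coeff β else 0 := by
    intro β
    rw [hf', MvPolynomial.coeff_sum]
    simp only [MvPolynomial.coeff_monomial]
    rw [Finset.sum_ite_eq']
  refine ⟨f', ⟨?_, ?_⟩, ?_, ?_⟩
  · refine MvPolynomial.IsHomogeneous.sum _ _ _ fun α hα => ?_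
    have h3 := RankLow_hom α (f.coeff α)
    rwa [RankLow_deg h.1 (Finset.mem_filter.1 hα).1] at h3
  · have h3 : T.Phi J f' = T.Phi J f := by
      rw [T.RankLow_Phi J f, hf', map_sum]
      have h4 : ∀ α ∈ s, T.Phi J (MvPolynomial.monomial α (f.coeff α)) =
          f.coeff α • T.mon J α := fun α _ => T.Phi_monomial J α _
      rw [Finset.sum_congr rfl h4]
      refine Finset.sum_subset (Finset.filter_subset _ _) ?_
      intro α hα hn
      have h5 : ¬ ∀ b, α b < p ^ J := fun h6 => hn (Finset.mem_filter.2 ⟨hα, h6⟩)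
      push Not at h5
      obtain ⟨b, hb⟩ := h5
      rw [T.mon_eq_zero J α b hb, smul_zero]
    rw [h3]
    exact h.2
  · obtain ⟨α, hα, h3⟩ := h2
    intro h0
    have h4 := hco α
    rw [h0, MvPolynomial.coeff_zero, if_pos (Finset.mem_filter.2 ⟨hα, h3⟩)] at h4
    exact MvPolynomial.mem_support_iff.1 hα h4.symm
  · intro α hα
    by_contra hcon
    have h4 := hco α
    rw [if_neg (fun h6 => hcon (Finset.mem_filter.1 h6).2)] at h4
    exact MvPolynomial.mem_support_iff.1 hα h4

/-- the exponent with the entries `γ b` -/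
private noncomputable def RankLow_ex {κ : Type} [Fintype κ] {w : κ → ℕ}
    (γ : (b : κ) → Fin (w b)) : κ →₀ ℕ :=
  Finsupp.equivFunOnFinite.symm fun b => (γ b : ℕ)

private theorem RankLow_ex_inj {κ : Type} [Fintype κ] {w : κ → ℕ}
    {γ δ : (b : κ) → Fin (w b)} (h : RankLow_ex γ = RankLow_ex δ) : γ = δ := by
  funext b
  refine Fin.ext ?_
  exact DFunLike.congr_fun h b

variable {T} in
private theorem RankLow_li {J v : ℕ} {f : MvPolynomial ι (ZMod p)} {a : T.R J}
    (h : T.Sym J v f a) (m : MonomialOrder ι) (hf : f ≠ 0) (hb : ∀ b, m.degree f b < p ^ J) :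
    LinearIndependent (ZMod p) (fun γ : (b : ι) → Fin (p ^ J - m.degree f b) =>
      a * T.mon J (RankLow_ex γ)) := by
  classical
  rw [Fintype.linearIndependent_iff]
  intro c hc
  by_contra hcon
  push Not at hcon
  obtain ⟨γ0, hγ0⟩ := hcon
  obtain ⟨γ1, hγ1, hmin⟩ := Finset.exists_min_image
    (Finset.univ.filter fun γ : (b : ι) → Fin (p ^ J - m.degree f b) => c γ ≠ 0)
    (fun γ => ∑ b, RankLow_ex γ b) ⟨γ0, Finset.mem_filter.2 ⟨Finset.mem_univ _, hγ0⟩⟩
  set u := ∑ b, RankLow_ex γ1 b with hu
  have hsym : T.Sym J u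
      (∑ γ, if ∑ b, RankLow_ex γ b = u then MvPolynomial.monomial (RankLow_ex γ) (c γ) else 0)
      (∑ γ, c γ • T.mon J (RankLow_ex γ)) := by
    refine Sym.sum _ fun γ _ => ?_
    by_cases h0 : c γ = 0
    · rw [h0, zero_smul, map_zero, ite_self]
      exact Sym_zero (Submodule.zero_mem _)
    · have h1 : u ≤ ∑ b, RankLow_ex γ b := hmin γ (Finset.mem_filter.2 ⟨Finset.mem_univ _, h0⟩)
      split_ifs with h2
      · rw [← T.Phi_monomial J, ← h2]
        exact Sym_Phi (RankLow_hom _ _)
      · refine Sym_zero (Submodule.smul_mem _ _ ?_)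
        refine T.F_anti J ?_ (T.mon_mem J _)
        omega
  set g : MvPolynomial ι (ZMod p) := ∑ γ,
    if ∑ b, RankLow_ex γ b = u then MvPolynomial.monomial (RankLow_ex γ) (c γ) else 0 with hg
  have hg0 : g ≠ 0 := by
    intro h0
    have h1 : g.coeff (RankLow_ex γ1) = c γ1 := by
      rw [hg, MvPolynomial.coeff_sum, Finset.sum_eq_single γ1]
      · rw [if_pos rfl, MvPolynomial.coeff_monomial, if_pos rfl]
      · intro γ _ hne
        split_ifs with h2
        · rw [MvPolynomial.coeff_monomial, if_neg]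
          exact fun h3 => hne (RankLow_ex_inj h3)
        · rfl
      · intro h2
        exact absurd (Finset.mem_univ _) h2
    rw [h0, MvPolynomial.coeff_zero] at h1
    exact (Finset.mem_filter.1 hγ1).2 h1.symm
  have hay : a * ∑ γ, c γ • T.mon J (RankLow_ex γ) = 0 := by
    rw [Finset.mul_sum, ← hc]
    exact Finset.sum_congr rfl fun γ _ => mul_smul_comm _ _ _
  have h3 := h.mul hsym
  rw [hay] at h3
  have h4 := h3.mem_succ_iff.1 (Submodule.zero_mem _) (m.degree (f * g))
    ((m.degree_mem_support_iff _).2 (mul_ne_zero hf hg0))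
  obtain ⟨b, h5⟩ := h4
  rw [m.degree_mul hf hg0, Finsupp.add_apply] at h5
  have h6 : ∃ γ : (b : ι) → Fin (p ^ J - m.degree f b), m.degree g = RankLow_ex γ := by
    have h7 := MvPolynomial.support_sum ((m.degree_mem_support_iff g).2 hg0)
    rw [Finset.mem_biUnion] at h7
    obtain ⟨γ, -, h8⟩ := h7
    refine ⟨γ, ?_⟩
    split_ifs at h8 with h9
    · exact Finset.mem_singleton.1 (MvPolynomial.support_monomial_subset h8)
    · rw [MvPolynomial.support_zero] at h8
      exact absurd h8 (Finset.notMem_empty _)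
  obtain ⟨γ, h7⟩ := h6
  rw [h7] at h5
  have h8 : RankLow_ex γ b < p ^ J - m.degree f b := (γ b).2
  have h9 := hb b
  omega

variable {T} in
theorem Sym.rank_ge {J v : ℕ} {f : MvPolynomial ι (ZMod p)} {a : T.R J} (h : T.Sym J v f a)
    (h2 : ∃ α ∈ f.support, ∀ b, α b < p ^ J) :
    (p ^ J) ^ Fintype.card ι ≤ finrank (ZMod p) (LinearMap.range (LinearMap.mulLeft (ZMod p) a)) +
      v * (p ^ J) ^ (Fintype.card ι - 1) := by
  classical
  obtain ⟨f', h3, h4, h5⟩ := RankLow_box h h2
  let _ : LinearOrder ι := LinearOrder.lift' (Fintype.equivFin ι) (Fintype.equivFin ι).injective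
  let m : MonomialOrder ι := MonomialOrder.lex
  have hm := (m.degree_mem_support_iff f').2 h4
  have hb := h5 _ hm
  have hli := RankLow_li h3 m h4 hb
  have hfin : Finite (T.R J) := T.finite_R J
  have hli2 : LinearIndependent (ZMod p) (fun γ : (b : ι) → Fin (p ^ J - m.degree f' b) =>
      (⟨a * T.mon J (RankLow_ex γ), ⟨T.mon J (RankLow_ex γ), rfl⟩⟩ :
        LinearMap.range (LinearMap.mulLeft (ZMod p) a))) :=
    LinearIndependent.of_comp (LinearMap.range (LinearMap.mulLeft (ZMod p) a)).subtype hli
  have hcard := hli2.fintype_card_le_finrank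
  rw [Fintype.card_pi] at hcard
  simp only [Fintype.card_fin] at hcard
  have hne : (Finset.univ : Finset ι).Nonempty := by
    rw [← Finset.card_pos, Finset.card_univ]
    exact T.pos
  have h6 := prod_sub_ge Finset.univ (p ^ J) (fun b => m.degree f' b) (fun b _ => (hb b).le) hne
  rw [Finset.card_univ, RankLow_deg h3.1 hm] at h6
  exact h6.trans (Nat.add_le_add_right hcard _)

end UTower

end Pool.Agent.IWA
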