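import Mathlib
import Pool.Agent.IWA.Defs

/-!
# IWA / RkAlg : inequalities for ranks of matrices over finite dimensional algebras
(MP_05b873_al)

Paper proofs. `mvK (C * A) = mvK C ∘ mvK A` (`Matrix.mulVec_mulVec`), so
`rkR (C * A) ≤ rkR A` (rank of a composition, image of the range) and `rkR (C * A) ≤ rkR C`.
`rkR (fromRows A E) ≤ rkR A + rkR E`: the range of `mvK (fromRows A E)` embeds into the product of
the ranges. `rkR E ≤ (number of rows) * dim R`. `rkR (diagonal δ) = ∑ rank (mulLeft (δ l))`: the range
is the product of the ranges. `rkR_le_of_diag`: with `Δ = diagonal δ'`: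
`rkR A ≤ rkR (Δ * A) + dim ker (mvK Δ)` and `dim ker (mvK Δ) = ∑ (dim R - rank (mulLeft (δ' j)))`.
-/

namespace Pool.Agent.IWA

open Module Matrix

variable (K : Type*) [Field K] {R : Type*} [Ring R] [Algebra K R] [FiniteDimensional K R]

omit [FiniteDimensional K R] in
theorem mvK_mul {l m n : Type*} [Fintype m] [Fintype n] (C : Matrix l m R) (A : Matrix m n R) :
    mvK K (C * A) = (mvK K C).comp (mvK K A) := by
  ext1 v
  simp only [mvK, LinearMap.coe_comp, LinearMap.coe_mk, AddHom.coe_mk, Function.comp_apply]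
  exact (Matrix.mulVec_mulVec v C A).symm

theorem rkR_mul_le_right {l m n : Type*} [Fintype l] [Fintype m] [Fintype n] (C : Matrix l m R)
    (A : Matrix m n R) : rkR K (C * A) ≤ rkR K A := by
  rw [rkR, rkR, mvK_mul, LinearMap.range_comp]
  exact Submodule.finrank_map_le _ _

theorem rkR_mul_le_left {l m n : Type*} [Fintype l] [Fintype m] [Fintype n] (C : Matrix l m R)
    (A : Matrix m n R) : rkR K (C * A) ≤ rkR K C := by
  rw [rkR, rkR, mvK_mul]
  exact Submodule.finrank_mono (LinearMap.range_comp_le_range _ _)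

theorem rkR_fromRows_le {m m' n : Type*} [Fintype m] [Fintype m'] [Fintype n] (A : Matrix m n R)
    (E : Matrix m' n R) : rkR K (Matrix.fromRows A E) ≤ rkR K A + rkR K E := by
  classical
  set e : (m ⊕ m' → R) ≃ₗ[K] ((m → R) × (m' → R)) := LinearEquiv.sumArrowLequivProdArrow m m' K R
    with he
  set φ : ((LinearMap.range (mvK K A)) × (LinearMap.range (mvK K E))) →ₗ[K] (m ⊕ m' → R) :=
    e.symm.toLinearMap.comp
      (LinearMap.prodMap (LinearMap.range (mvK K A)).subtype (LinearMap.range (mvK K E)).subtype)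
    with hφ
  have h2 : LinearMap.range (mvK K (Matrix.fromRows A E)) ≤ LinearMap.range φ := by
    rintro x ⟨v, rfl⟩
    refine ⟨(⟨mvK K A v, ⟨v, rfl⟩⟩, ⟨mvK K E v, ⟨v, rfl⟩⟩), ?_⟩
    apply e.injective
    simp only [hφ, LinearMap.coe_comp, Function.comp_apply, LinearEquiv.coe_coe,
      LinearEquiv.apply_symm_apply, LinearMap.prodMap_apply, Submodule.subtype_apply]
    rfl
  refine (Submodule.finrank_mono h2).trans ?_
  refine (LinearMap.finrank_range_le φ).trans ?_
  rw [Module.finrank_prod]
  rfl

theorem rkR_le_rows {m n : Type*} [Fintype m] [Fintype n] (A : Matrix m n R) :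
    rkR K A ≤ Fintype.card m * finrank K R := by
  refine (Submodule.finrank_le _).trans ?_
  rw [Module.finrank_pi_fintype, Finset.sum_const, Finset.card_univ, smul_eq_mul]

theorem rkR_le_cols {m n : Type*} [Fintype m] [Fintype n] (A : Matrix m n R) :
    rkR K A ≤ Fintype.card n * finrank K R := by
  refine (LinearMap.finrank_range_le _).trans ?_
  rw [Module.finrank_pi_fintype, Finset.sum_const, Finset.card_univ, smul_eq_mul]

omit [FiniteDimensional K R] in
theorem mvK_diagonal_apply {n : Type*} [Fintype n] [DecidableEq n] (δ : n → R) (v : n → R)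
    (l : n) : mvK K (Matrix.diagonal δ) v l = δ l * v l := by
  simp only [mvK, LinearMap.coe_mk, AddHom.coe_mk]
  exact Matrix.mulVec_diagonal δ v l

theorem rkR_diagonal {n : Type*} [Fintype n] [DecidableEq n] (δ : n → R) :
    rkR K (Matrix.diagonal δ) = ∑ l, finrank K (LinearMap.range (LinearMap.mulLeft K (δ l))) := by
  have h1 : LinearMap.range (mvK K (Matrix.diagonal δ)) =
      Submodule.pi Set.univ (fun l => LinearMap.range (LinearMap.mulLeft K (δ l))) := by
    ext x
    constructor
    · rintro ⟨v, rfl⟩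
      intro l _
      exact ⟨v l, (mvK_diagonal_apply K δ v l).symm⟩
    · intro hx
      choose v hv using fun l => hx l (Set.mem_univ l)
      refine ⟨v, ?_⟩
      ext l
      rw [mvK_diagonal_apply]
      exact hv l
  set e : (Submodule.pi Set.univ (fun l => LinearMap.range (LinearMap.mulLeft K (δ l)))) ≃ₗ[K]
      ((l : n) → LinearMap.range (LinearMap.mulLeft K (δ l))) :=
    { toFun := fun x l => ⟨x.1 l, x.2 l (Set.mem_univ l)⟩
      invFun := fun y => ⟨fun l => (y l).1, fun l _ => (y l).2⟩
      left_inv := fun x => rfl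
      right_inv := fun y => rfl
      map_add' := fun x y => rfl
      map_smul' := fun c x => rfl }
  rw [rkR, h1, LinearEquiv.finrank_eq e, Module.finrank_pi_fintype]

theorem rkR_le_of_diag {m n : Type*} [Fintype m] [DecidableEq m] [Fintype n] (δ : m → R)
    (A : Matrix m n R) :
    rkR K A + ∑ j, finrank K (LinearMap.range (LinearMap.mulLeft K (δ j))) ≤
      rkR K (Matrix.diagonal δ * A) + Fintype.card m * finrank K R := by
  rw [← rkR_diagonal]
  set D := mvK K (Matrix.diagonal δ) with hD
  set f := D.domRestrict (LinearMap.range (mvK K A)) with hf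
  have h1 := LinearMap.finrank_range_add_finrank_ker f
  have h2 : LinearMap.range f = LinearMap.range (mvK K (Matrix.diagonal δ * A)) := by
    rw [mvK_mul, LinearMap.range_comp, hf, LinearMap.range_domRestrict]
  have h3 : finrank K (LinearMap.ker f) ≤ finrank K (LinearMap.ker D) := by
    have hmap : (LinearMap.ker f).map (LinearMap.range (mvK K A)).subtype ≤ LinearMap.ker D := by
      rintro x ⟨y, hy, rfl⟩
      exact hy
    have h4 := Submodule.finrank_mono hmap
    rwa [Submodule.finrank_map_subtype_eq] at h4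
  have h5 := LinearMap.finrank_range_add_finrank_ker D
  rw [Module.finrank_pi_fintype, Finset.sum_const, Finset.card_univ, smul_eq_mul] at h5
  rw [h2] at h1
  unfold rkR
  rw [← hD]
  omega

/-- lower bound from a certificate -/
theorem rkR_ge_of_cert {m n : ℕ} (A : Matrix (Fin m) (Fin n) R) (r : ℕ) (hr : r ≤ n)
    (E : Matrix (Fin (n - r)) (Fin n) R) (C : Matrix (Fin n) (Fin m ⊕ Fin (n - r)) R)
    (δ : Fin n → R) (h : C * Matrix.fromRows A E = Matrix.diagonal δ) :
    ∑ l, finrank K (LinearMap.range (LinearMap.mulLeft K (δ l))) ≤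
      rkR K A + (n - r) * finrank K R := by
  rw [← rkR_diagonal, ← h]
  refine (rkR_mul_le_right K C _).trans ?_
  refine (rkR_fromRows_le K A E).trans ?_
  have := rkR_le_rows K E
  rw [Fintype.card_fin] at this
  omega

/-- upper bound from a certificate -/
theorem rkR_le_of_cert {m n r : ℕ} (A : Matrix (Fin m) (Fin n) R)
    (A' : Matrix (Fin r) (Fin n) R) (C' : Matrix (Fin m) (Fin r) R) (δ' : Fin m → R)
    (h : Matrix.diagonal δ' * A = C' * A') :
    rkR K A + ∑ j, finrank K (LinearMap.range (LinearMap.mulLeft K (δ' j))) ≤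
      r * finrank K R + m * finrank K R := by
  have h1 := rkR_le_of_diag K δ' A
  rw [h, Fintype.card_fin] at h1
  have h2 := rkR_mul_le_left K C' A'
  have h3 := rkR_le_cols K C'
  rw [Fintype.card_fin] at h3
  omega

end Pool.Agent.IWA
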