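import Mathlib
import Pool.Agent.IWA.RkAlg
import Pool.Agent.IWA.Cert
import Pool.Agent.IWA.RankLow
import Pool.Agent.IWA.HatNoeth

/-!
# IWA / RkConv : convergence of the normalised ranks to an integer (MP_05b873_al)

Paper proof. `Hat` is a noetherian domain, so it satisfies the strong rank condition and
`exists_cert` gives `r`, `E`, `C`, `δ`, `A'`, `C'`, `δ'`. Every `δ l ≠ 0` has a symbol `f ≠ 0` of
some degree `v` at all levels (`exists_hat_order`); for large `J` a monomial of `f` lies in the box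
(`exists_level`), so `Sym.rank_ge` gives
`rank (mulLeft (proj J (δ l))) ≥ q ^ D - v q ^ (D - 1)`, `q = p ^ J`. Apply the ring homomorphism
`proj J` to the certificate (`Matrix.map_mul`, `Matrix.diagonal_map`, `Matrix.fromRows_map`) and use
`rkR_ge_of_cert`, `rkR_le_of_cert`, `finrank_R`:
`r q ^ D - V q ^ (D - 1) ≤ rkR (A at level J) ≤ r q ^ D + V q ^ (D - 1)`. Divide by
`q ^ D = p ^ (J * D)`: the error is `V / p ^ J → 0`.
-/

namespace Pool.Agent.IWA

open Module Filter Topology Matrix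

namespace UTower

variable {p e : ℕ} [Fact p.Prime] {ι : Type} [Fintype ι] {P : Type} [Group P]
  (T : UTower p e ι P)

/-- nonzero elements of the completed group algebra have asymptotically full rank -/
theorem exists_rank_ge (δ : T.Hat) (hδ : δ ≠ 0) : ∃ V J₀ : ℕ, ∀ J ≥ J₀,
    (p ^ J) ^ Fintype.card ι ≤
      finrank (ZMod p) (LinearMap.range (LinearMap.mulLeft (ZMod p) (T.proj J δ))) +
      V * (p ^ J) ^ (Fintype.card ι - 1) := by
  obtain ⟨v, f, hf, hfa⟩ := T.exists_hat_order δ hδ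
  obtain ⟨J₀, hJ⟩ := exists_level (p := p) hf
  exact ⟨v, J₀, fun J h => (hfa J).rank_ge (hJ J h)⟩

private theorem RkConv_sum {n : ℕ} (δ : Fin n → T.Hat) (hδ : ∀ l, δ l ≠ 0) :
    ∃ V J₀ : ℕ, ∀ J ≥ J₀, n * (p ^ J) ^ Fintype.card ι ≤
      ∑ l, finrank (ZMod p) (LinearMap.range (LinearMap.mulLeft (ZMod p) (T.proj J (δ l)))) +
      V * (p ^ J) ^ (Fintype.card ι - 1) := by
  choose V J₀ h using fun l => T.exists_rank_ge (δ l) (hδ l)
  refine ⟨∑ l, V l, ∑ l, J₀ l, fun J hJ => ?_⟩
  have h1 : ∀ l ∈ (Finset.univ : Finset (Fin n)), (p ^ J) ^ Fintype.card ι ≤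
      finrank (ZMod p) (LinearMap.range (LinearMap.mulLeft (ZMod p) (T.proj J (δ l)))) +
      V l * (p ^ J) ^ (Fintype.card ι - 1) := by
    intro l _
    apply h l J
    exact (Finset.single_le_sum (f := J₀) (fun _ _ => Nat.zero_le _) (Finset.mem_univ l)).trans hJ
  have h2 := Finset.sum_le_sum h1
  rw [Finset.sum_const, Finset.card_univ, Fintype.card_fin, smul_eq_mul, Finset.sum_add_distrib,
    ← Finset.sum_mul] at h2
  exact h2

theorem rk_bounds {m n : ℕ} (A : Matrix (Fin m) (Fin n) T.Hat) (r : ℕ) (hr : r ≤ n)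
    (E : Matrix (Fin (n - r)) (Fin n) T.Hat) (C : Matrix (Fin n) (Fin m ⊕ Fin (n - r)) T.Hat)
    (δ : Fin n → T.Hat) (hδ : ∀ l, δ l ≠ 0) (h : C * Matrix.fromRows A E = Matrix.diagonal δ)
    (A' : Matrix (Fin r) (Fin n) T.Hat) (C' : Matrix (Fin m) (Fin r) T.Hat) (δ' : Fin m → T.Hat)
    (hδ' : ∀ j, δ' j ≠ 0) (h' : Matrix.diagonal δ' * A = C' * A') :
    Tendsto (fun J => (rkR (ZMod p) (A.map (T.proj J)) : ℝ) / p ^ (J * Fintype.card ι)) atTop
      (𝓝 r) := by
  classical
  obtain ⟨V, J₁, hV⟩ := T.RkConv_sum δ hδ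
  obtain ⟨V', J₂, hV'⟩ := T.RkConv_sum δ' hδ'
  have hp1 : 1 < p := (Fact.out : p.Prime).one_lt
  have hpR : (1 : ℝ) < p := by exact_mod_cast hp1
  have hD := T.pos
  -- the two inequalities
  have key : ∀ J ≥ J₁ + J₂,
      r * (p ^ J) ^ Fintype.card ι ≤
        rkR (ZMod p) (A.map (T.proj J)) + V * (p ^ J) ^ (Fintype.card ι - 1) ∧
      rkR (ZMod p) (A.map (T.proj J)) ≤
        r * (p ^ J) ^ Fintype.card ι + V' * (p ^ J) ^ (Fintype.card ι - 1) := by
    intro J hJ
    have hfin : Finite (T.R J) := T.finite_R J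
    have hfd : FiniteDimensional (ZMod p) (T.R J) := Module.Finite.of_finite
    have e1 : C.map (T.proj J) * Matrix.fromRows (A.map (T.proj J)) (E.map (T.proj J)) =
        Matrix.diagonal (fun l => T.proj J (δ l)) := by
      have h1 := congrArg (fun M => M.map (T.proj J)) h
      simp only [Matrix.map_mul] at h1
      rw [Matrix.diagonal_map (map_zero _)] at h1
      rw [← h1]
      congr 1
      ext i j
      rcases i with i | i <;> rfl
    have e2 : Matrix.diagonal (fun j => T.proj J (δ' j)) * A.map (T.proj J) =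
        C'.map (T.proj J) * A'.map (T.proj J) := by
      have h1 := congrArg (fun M => M.map (T.proj J)) h'
      simp only [Matrix.map_mul] at h1
      rw [Matrix.diagonal_map (map_zero _)] at h1
      exact h1
    have i1 := rkR_ge_of_cert (ZMod p) (A.map (T.proj J)) r hr (E.map (T.proj J))
      (C.map (T.proj J)) (fun l => T.proj J (δ l)) e1
    have i2 := rkR_le_of_cert (ZMod p) (A.map (T.proj J)) (A'.map (T.proj J))
      (C'.map (T.proj J)) (fun j => T.proj J (δ' j)) e2
    have hfr : finrank (ZMod p) (T.R J) = (p ^ J) ^ Fintype.card ι := by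
      rw [T.finrank_R J, pow_mul]
    rw [hfr] at i1 i2
    have i3 := hV J (by omega)
    have i4 := hV' J (by omega)
    have i5 : n * (p ^ J) ^ Fintype.card ι =
        r * (p ^ J) ^ Fintype.card ι + (n - r) * (p ^ J) ^ Fintype.card ι := by
      rw [← add_mul, Nat.add_sub_cancel' hr]
    constructor
    · omega
    · omega
  have hlim : Tendsto (fun J : ℕ => (p : ℝ) ^ J) atTop atTop :=
    tendsto_pow_atTop_atTop_of_one_lt hpR
  have hl1 : Tendsto (fun J : ℕ => (r : ℝ) - V / (p : ℝ) ^ J) atTop (𝓝 r) := by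
    have := (tendsto_const_nhds (x := (r : ℝ))).sub (hlim.const_div_atTop (V : ℝ))
    simpa using this
  have hl2 : Tendsto (fun J : ℕ => (r : ℝ) + V' / (p : ℝ) ^ J) atTop (𝓝 r) := by
    have := (tendsto_const_nhds (x := (r : ℝ))).add (hlim.const_div_atTop (V' : ℝ))
    simpa using this
  have hpow : ∀ J : ℕ, ((p : ℝ) ^ J) ^ Fintype.card ι =
      (p : ℝ) ^ J * ((p : ℝ) ^ J) ^ (Fintype.card ι - 1) := by
    intro J
    rw [← pow_succ', Nat.sub_add_cancel hD]
  refine tendsto_of_tendsto_of_tendsto_of_le_of_le' hl1 hl2 ?_ ?_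
  · filter_upwards [eventually_ge_atTop (J₁ + J₂)] with J hJ
    have h1 : (r : ℝ) * ((p : ℝ) ^ J) ^ Fintype.card ι ≤
        rkR (ZMod p) (A.map (T.proj J)) + V * ((p : ℝ) ^ J) ^ (Fintype.card ι - 1) := by
      exact_mod_cast (key J hJ).1
    have hq : 0 < (p : ℝ) ^ J := by positivity
    have hq' : 0 < ((p : ℝ) ^ J) ^ (Fintype.card ι - 1) := by positivity
    rw [pow_mul, le_div_iff₀ (by positivity), sub_mul]
    have h2 : (V : ℝ) / (p : ℝ) ^ J * ((p : ℝ) ^ J) ^ Fintype.card ι =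
        V * ((p : ℝ) ^ J) ^ (Fintype.card ι - 1) := by
      rw [hpow]
      field_simp
    rw [h2]
    linarith
  · filter_upwards [eventually_ge_atTop (J₁ + J₂)] with J hJ
    have h1 : (rkR (ZMod p) (A.map (T.proj J)) : ℝ) ≤
        r * ((p : ℝ) ^ J) ^ Fintype.card ι + V' * ((p : ℝ) ^ J) ^ (Fintype.card ι - 1) := by
      exact_mod_cast (key J hJ).2
    have hq : 0 < (p : ℝ) ^ J := by positivity
    have hq' : 0 < ((p : ℝ) ^ J) ^ (Fintype.card ι - 1) := by positivity
    rw [pow_mul, div_le_iff₀ (by positivity), add_mul]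
    have h2 : (V' : ℝ) / (p : ℝ) ^ J * ((p : ℝ) ^ J) ^ Fintype.card ι =
        V' * ((p : ℝ) ^ J) ^ (Fintype.card ι - 1) := by
      rw [hpow]
      field_simp
    rw [h2]
    linarith

end UTower

end Pool.Agent.IWA
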