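import Mathlib

/-!
# IWA / LexMin : exponents with lexicographically minimal block degrees (MP_05b873_al)

Pure combinatorics. The exponents `α : Fin M × κ →₀ ℕ` have the block degrees
`bdeg α l = ∑ b, α (l, b)` and the weights `wt q α = ∑ l, q ^ l * bdeg α l`.

Paper proofs.
* `exists_lex_min`: the lexicographic order on `Fin M → ℕ` with the most significant entry
  `l = M - 1` is well founded (`Pi.Lex.wellFoundedLT` after reversing `Fin M` by `Fin.rev`, or
  induction on `M`).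
* `wt_lt`: let `l` be the highest index where the block degrees differ,
  `bdeg α* l + 1 ≤ bdeg α l`. Then `wt α - wt α* ≥ q ^ l - ∑_{l' < l} q ^ l' bdeg α* l'` and
  `∑_{l' < l} q ^ l' bdeg α* l' ≤ q ^ (l - 1) * (∑ bdeg α*) < q ^ l` for `l ≥ 1`
  (since `∑ bdeg α* < q`), and `= 0` for `l = 0`.
* `digits_inj`: all `α (l, b) < q`, uniqueness of the expansion in base `q` for each `b`.
-/

namespace Pool.Agent.IWA

variable {M : ℕ} {κ : Type} [Fintype κ]

/-- the block degrees -/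
def bdeg (α : Fin M × κ →₀ ℕ) (l : Fin M) : ℕ := ∑ b, α (l, b)

/-- the weight with base `q` -/
def wt (q : ℕ) (α : Fin M × κ →₀ ℕ) : ℕ := ∑ l : Fin M, q ^ (l : ℕ) * bdeg α l

theorem exists_lex_min (S : Set (Fin M × κ →₀ ℕ)) (hS : S.Nonempty) :
    ∃ α₀ ∈ S, ∀ α ∈ S, (∀ l, bdeg α l = bdeg α₀ l) ∨
      ∃ l, bdeg α₀ l < bdeg α l ∧ ∀ l', l < l' → bdeg α l' = bdeg α₀ l' := by
  classical
  set f : (Fin M × κ →₀ ℕ) → Lex (Fin M → ℕ) := fun α => toLex fun l => bdeg α (Fin.rev l) with hf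
  have hwf : WellFounded (fun a b : Lex (Fin M → ℕ) => a < b) := wellFounded_lt
  obtain ⟨α₀, hα₀, hmin⟩ := (InvImage.wf f hwf).has_min S hS
  refine ⟨α₀, hα₀, fun α hα => ?_⟩
  have h1 : ¬ f α < f α₀ := hmin α hα
  rcases lt_trichotomy (f α) (f α₀) with h | h | h
  · exact absurd h h1
  · left
    intro l
    have h2 := congrFun (congrArg ofLex h) (Fin.rev l)
    simp only [hf, ofLex_toLex, Fin.rev_rev] at h2
    exact h2
  · right
    obtain ⟨i, hi1, hi2⟩ := h
    refine ⟨Fin.rev i, ?_, ?_⟩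
    · simpa [hf] using hi2
    · intro l' hl'
      have h3 : Fin.rev l' < i := by
        have := Fin.rev_lt_rev.2 hl'
        rwa [Fin.rev_rev] at this
      have h4 : bdeg α₀ (Fin.rev (Fin.rev l')) = bdeg α (Fin.rev (Fin.rev l')) := hi1 _ h3
      rw [Fin.rev_rev] at h4
      exact h4.symm

theorem lexMin_low (q : ℕ) (b : Fin M → ℕ) (hq : ∑ l, b l < q) (l : Fin M) :
    ∑ l' ∈ Finset.univ.filter (fun l' => l' < l), q ^ (l' : ℕ) * b l' < q ^ (l : ℕ) := by
  have hq0 : 0 < q := lt_of_le_of_lt (Nat.zero_le _) hq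
  rcases Nat.eq_zero_or_pos (l : ℕ) with h0 | h0
  · rw [h0, pow_zero, Finset.filter_eq_empty_iff.2, Finset.sum_empty]
    · exact Nat.one_pos
    · intro l' _ hl'
      have : (l' : ℕ) < (l : ℕ) := hl'
      omega
  · calc ∑ l' ∈ Finset.univ.filter (fun l' => l' < l), q ^ (l' : ℕ) * b l'
        ≤ ∑ l' ∈ Finset.univ.filter (fun l' => l' < l), q ^ ((l : ℕ) - 1) * b l' := by
          refine Finset.sum_le_sum fun l' hl' => ?_
          have h1 : (l' : ℕ) < (l : ℕ) := (Finset.mem_filter.1 hl').2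
          exact Nat.mul_le_mul_right _ (Nat.pow_le_pow_right hq0 (by omega))
      _ = q ^ ((l : ℕ) - 1) * ∑ l' ∈ Finset.univ.filter (fun l' => l' < l), b l' := by
          rw [Finset.mul_sum]
      _ ≤ q ^ ((l : ℕ) - 1) * ∑ l', b l' :=
          Nat.mul_le_mul_left _ (Finset.sum_le_sum_of_subset (Finset.filter_subset _ _))
      _ < q ^ ((l : ℕ) - 1) * q := Nat.mul_lt_mul_of_pos_left hq (pow_pos hq0 _)
      _ = q ^ (l : ℕ) := by
          rw [← pow_succ]
          congr 1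
          omega

theorem lexMin_split (f : Fin M → ℕ) (l : Fin M) :
    ∑ l', f l' = ∑ l' ∈ Finset.univ.filter (fun l' => l' < l), f l' + f l +
      ∑ l' ∈ Finset.univ.filter (fun l' => l < l'), f l' := by
  classical
  have h1 : (Finset.univ : Finset (Fin M)) = (Finset.univ.filter (fun l' => l' < l) ∪ {l}) ∪
      Finset.univ.filter (fun l' => l < l') := by
    ext l'
    simp only [Finset.mem_univ, Finset.mem_union, Finset.mem_filter, true_and,
      Finset.mem_singleton, true_iff]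
    rcases lt_trichotomy l' l with h | h | h
    · exact Or.inl (Or.inl h)
    · exact Or.inl (Or.inr h)
    · exact Or.inr h
  conv_lhs => rw [h1]
  rw [Finset.sum_union, Finset.sum_union, Finset.sum_singleton]
  · rw [Finset.disjoint_singleton_right]
    intro h
    exact lt_irrefl _ (Finset.mem_filter.1 h).2
  · rw [Finset.disjoint_left]
    intro a ha hb
    have h2 : l < a := (Finset.mem_filter.1 hb).2
    rcases Finset.mem_union.1 ha with h | h
    · exact lt_asymm h2 (Finset.mem_filter.1 h).2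
    · rw [Finset.mem_singleton.1 h] at h2
      exact lt_irrefl _ h2

theorem wt_lt (q : ℕ) (α₀ α : Fin M × κ →₀ ℕ) (hq : ∑ l, bdeg α₀ l < q) (l : Fin M)
    (h : bdeg α₀ l < bdeg α l) (h2 : ∀ l', l < l' → bdeg α l' = bdeg α₀ l') :
    wt q α₀ < wt q α := by
  unfold wt
  rw [lexMin_split _ l, lexMin_split (fun l => q ^ (l : ℕ) * bdeg α l) l]
  have h1 := lexMin_low q (bdeg α₀) hq l
  have h3 : ∑ l' ∈ Finset.univ.filter (fun l' => l < l'), q ^ (l' : ℕ) * bdeg α l' =
      ∑ l' ∈ Finset.univ.filter (fun l' => l < l'), q ^ (l' : ℕ) * bdeg α₀ l' := by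
    refine Finset.sum_congr rfl fun l' hl' => ?_
    rw [h2 l' (Finset.mem_filter.1 hl').2]
  rw [h3]
  have h4 : q ^ (l : ℕ) * bdeg α₀ l + q ^ (l : ℕ) ≤ q ^ (l : ℕ) * bdeg α l := by
    have h5 : q ^ (l : ℕ) * (bdeg α₀ l + 1) ≤ q ^ (l : ℕ) * bdeg α l :=
      Nat.mul_le_mul_left _ h
    rw [mul_add, mul_one] at h5
    exact h5
  omega

theorem wt_eq (q : ℕ) (α₀ α : Fin M × κ →₀ ℕ) (h : ∀ l, bdeg α l = bdeg α₀ l) :
    wt q α = wt q α₀ := by
  unfold wt
  exact Finset.sum_congr rfl fun l _ => by rw [h l]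

/-- `wt q α ≤ (∑ bdeg) * q ^ (M - 1)` for `q ≥ 1` -/
theorem wt_le (q : ℕ) (hq : 1 ≤ q) (α : Fin M × κ →₀ ℕ) :
    wt q α ≤ (∑ l, bdeg α l) * q ^ (M - 1) := by
  unfold wt
  rw [Finset.sum_mul]
  refine Finset.sum_le_sum fun l _ => ?_
  rw [mul_comm]
  refine Nat.mul_le_mul_left _ (Nat.pow_le_pow_right hq ?_)
  have := l.2
  omega

/-- the exponents with the blocks merged in base `q` -/
noncomputable def merge (q : ℕ) (α : Fin M × κ →₀ ℕ) : κ →₀ ℕ :=
  Finsupp.equivFunOnFinite.symm fun b => ∑ l : Fin M, q ^ (l : ℕ) * α (l, b)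

theorem merge_apply (q : ℕ) (α : Fin M × κ →₀ ℕ) (b : κ) :
    merge q α b = ∑ l : Fin M, q ^ (l : ℕ) * α (l, b) := rfl

theorem sum_merge (q : ℕ) (α : Fin M × κ →₀ ℕ) : ∑ b, merge q α b = wt q α := by
  simp only [merge_apply]
  rw [Finset.sum_comm]
  unfold wt bdeg
  exact Finset.sum_congr rfl fun l _ => by rw [Finset.mul_sum]

theorem lexMin_le (α : Fin M × κ →₀ ℕ) (i : Fin M × κ) : α i ≤ ∑ l, bdeg α l := by
  have h1 : α i ≤ bdeg α i.1 := by
    unfold bdeg
    exact Finset.single_le_sum (f := fun b => α (i.1, b)) (fun _ _ => Nat.zero_le _)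
      (Finset.mem_univ i.2)
  exact h1.trans (Finset.single_le_sum (f := fun l => bdeg α l) (fun _ _ => Nat.zero_le _)
    (Finset.mem_univ i.1))

theorem lexMin_digits (q : ℕ) : ∀ (M : ℕ) (f g : Fin M → ℕ), (∀ l, f l < q) → (∀ l, g l < q) →
    ∑ l : Fin M, q ^ (l : ℕ) * f l = ∑ l : Fin M, q ^ (l : ℕ) * g l → f = g := by
  intro M
  induction M with
  | zero =>
    intro f g _ _ _
    funext l
    exact l.elim0
  | succ M ih =>
    intro f g hf hg h
    rw [Fin.sum_univ_succ, Fin.sum_univ_succ] at h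
    simp only [Fin.val_zero, pow_zero, one_mul, Fin.val_succ, pow_succ'] at h
    have e1 : ∀ k : Fin (M + 1) → ℕ, ∑ i : Fin M, q * q ^ (i : ℕ) * k i.succ =
        q * ∑ i : Fin M, q ^ (i : ℕ) * k i.succ := by
      intro k
      rw [Finset.mul_sum]
      exact Finset.sum_congr rfl fun i _ => mul_assoc _ _ _
    rw [e1, e1] at h
    have hq0 : 0 < q := lt_of_le_of_lt (Nat.zero_le _) (hf 0)
    have h0 : f 0 = g 0 := by
      have := congrArg (fun n => n % q) h
      simp only [Nat.add_mul_mod_self_left] at this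
      rwa [Nat.mod_eq_of_lt (hf 0), Nat.mod_eq_of_lt (hg 0)] at this
    rw [h0] at h
    have h1 := Nat.eq_of_mul_eq_mul_left hq0 (Nat.add_left_cancel h)
    have h2 := ih (fun i => f i.succ) (fun i => g i.succ) (fun l => hf _) (fun l => hg _) h1
    funext l
    refine Fin.cases h0 (fun i => congrFun h2 i) l

theorem digits_inj (q : ℕ) (α α' : Fin M × κ →₀ ℕ) (h : ∑ l, bdeg α l < q)
    (h' : ∑ l, bdeg α' l < q) (hm : merge q α = merge q α') : α = α' := by
  ext ⟨l, b⟩
  have h1 := congrArg (fun m : κ →₀ ℕ => m b) hm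
  simp only [merge_apply] at h1
  have h2 := lexMin_digits q M (fun l => α (l, b)) (fun l => α' (l, b))
    (fun l => lt_of_le_of_lt (lexMin_le α (l, b)) h)
    (fun l => lt_of_le_of_lt (lexMin_le α' (l, b)) h') h1
  exact congrFun h2 l

theorem merge_le (q : ℕ) (hq : 1 ≤ q) (α : Fin M × κ →₀ ℕ) (b : κ) :
    merge q α b ≤ (∑ l, bdeg α l) * q ^ (M - 1) := by
  refine le_trans ?_ (wt_le q hq α)
  rw [← sum_merge]
  exact Finset.single_le_sum (f := fun b => merge q α b) (fun _ _ => Nat.zero_le _)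
    (Finset.mem_univ b)

theorem le_sum_bdeg (α : Fin M × κ →₀ ℕ) (i : Fin M × κ) : α i ≤ ∑ l, bdeg α l :=
  lexMin_le α i

end Pool.Agent.IWA
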