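import Mathlib
import Pool.Agent.IWA.ThetaDefs
import Pool.Agent.IWA.LexMin
import Pool.Agent.IWA.Coef

/-!
# IWA / ThetaSym : symbols of images under `θ` (MP_05b873_al)

Paper proofs.
* `Sym_theta_gen`: `thLift` maps `el J (x (l, b)) - 1` to `el' J y - 1` with `y` from `IsTheta.gen`;
  write `y = x' b ^ (p ^ (k l) z ^ l) * h`, `h ∈ L' (k l + 1)`, and use `Sym_x` (with `n = z ^ l`),
  `Sym_sub_one_mul`, and `Sym_zero` for `h` (`el h - 1 ∈ F (p ^ (k l + 1)) ⊆ F (p ^ (k l) + 1)`).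
* `Sym_theta_mon`: `Sym.pow`, `Sym.list_prod` along `T.ord`; the sum (product) over the list is the
  sum (product) over `Fin M × κ`, because `T.ord` is complete and without duplicates.
* `exists_theta_sym`: let `c` be the coefficients of `δ` (`exists_coef`), not all zero (`Hat_ext`),
  `α₀` from `exists_lex_min` for the set of all `α` with `c α ≠ 0`, `A = ∑ l, bdeg α₀ l`,
  `C = A * p ^ e + 1`. Let `C < p ^ k`, `k M ≤ J + e`, `q = p ^ k`. The image of `proj J δ` is the
  sum over `α ∈ box (p ^ J)` of `c α • thLift (mon J α)`. For `α` with `c α ≠ 0` and other block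
  degrees than `α₀`, `wt q α > wt q α₀` (`wt_lt`), so `thLift (mon J α) ∈ F (wt q α₀ + 1)`. For the
  `α` with the same block degrees use `Sym_theta_mon`. So the image has the symbol
  `f = ∑_α c α z ^ (...) X ^ (merge q α)` of degree `w = wt q α₀ ≤ A * q ^ (M - 1)` (`wt_le`), the
  sum over the `α ∈ box (p ^ J)` with `c α ≠ 0` and the block degrees of `α₀`. By `digits_inj` the
  exponents `merge q α` are pairwise different, so the coefficient of `f` at `merge q α₀` is
  `c α₀ z ^ (...) ≠ 0` (`α₀` lies in the box: `α₀ i ≤ A`, and `A * q ^ (M - 1) < p ^ J` because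
  `A * q ^ (M - 1) * p ^ e < q ^ M ≤ p ^ J * p ^ e`), and `merge q α₀ b ≤ A q ^ (M - 1) < p ^ J`.
-/

namespace Pool.Agent.IWA

variable {p e : ℕ} [Fact p.Prime] {M : ℕ} {κ : Type} [Fintype κ] {P P' : Type} [Group P]
  [Group P'] (T : UTower p e (Fin M × κ) P) (T' : UTower p e κ P')

omit [Fact p.Prime] in
private theorem ThetaSym_list {R : Type} [CommMonoid R] (f : Fin M × κ → R) :
    (T.ord.map f).prod = ∏ i, f i := by
  classical
  rw [← List.prod_toFinset f T.nodup]
  congr 1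
  ext i
  simp [T.complete i]

omit [Fact p.Prime] in
private theorem ThetaSym_sum (f : Fin M × κ → ℕ) : (T.ord.map f).sum = ∑ i, f i := by
  classical
  rw [← List.sum_toFinset f T.nodup]
  congr 1
  ext i
  simp [T.complete i]

omit [Fact p.Prime] in
private theorem ThetaSym_el (J : ℕ) (θ : P →* P' ⧸ T'.L J) (h : ∀ g ∈ T.L J, θ g = 1) {g : P}
    {y : P'} (hy : θ g = (y : P' ⧸ T'.L J)) :
    thLift T T' J θ h (T.el J g) = T'.el J y := by
  simp only [thLift, UTower.el, MonoidHom.comp_apply, MonoidAlgebra.of_apply,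
    QuotientGroup.mk'_apply, MonoidAlgebra.mapDomainRingHom_apply, MonoidAlgebra.mapDomain_single]
  congr 1

private theorem ThetaSym_smul (J : ℕ) (θ : P →* P' ⧸ T'.L J) (h : ∀ g ∈ T.L J, θ g = 1)
    (c : ZMod p) (a : T.R J) : thLift T T' J θ h (c • a) = c • thLift T T' J θ h a := by
  unfold thLift
  exact MonoidAlgebra.mapDomain_smul _ _ _

theorem Sym_theta_gen {J k z : ℕ} {θ : P →* P' ⧸ T'.L J} (h : IsTheta T T' J k z θ) (l : Fin M)
    (b : κ) : T'.Sym J (p ^ (k * (l : ℕ)))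
      (MvPolynomial.C ((z : ZMod p) ^ (l : ℕ)) * MvPolynomial.X b ^ p ^ (k * (l : ℕ)))
      (thLift T T' J θ h.ker (T.el J (T.x (l, b)) - 1)) := by
  obtain ⟨y, hy, hθ, hgen⟩ := h.gen l b
  have hp : 1 < p := (Fact.out : p.Prime).one_lt
  rw [map_sub, map_one, ThetaSym_el T T' J θ h.ker hθ]
  obtain ⟨g, hg⟩ : ∃ g, g = T'.x b ^ (p ^ (k * (l : ℕ)) * z ^ (l : ℕ)) := ⟨_, rfl⟩
  rw [← hg] at hgen
  have hgL : g ∈ T'.L (k * l) := by
    rw [hg, pow_mul]
    exact Subgroup.pow_mem _ (T'.pow _ b) _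
  have hhL : g⁻¹ * y ∈ T'.L (k * l) := T'.anti (Nat.le_succ _) hgen
  have h1 := T'.Sym_x J (k * l) b (z ^ (l : ℕ))
  rw [← hg, Nat.cast_pow] at h1
  have h2 : T'.Sym J (p ^ (k * (l : ℕ))) 0 (T'.el J (g⁻¹ * y) - 1) := by
    apply UTower.Sym_zero
    apply T'.F_anti J _ (T'.el_sub_one_mem J (k * l + 1) hgen)
    rw [pow_succ]
    have : 0 < p ^ (k * (l : ℕ)) := pow_pos (by omega) _
    nlinarith
  have h3 := T'.Sym_sub_one_mul J (k * l) hgL hhL h1 h2
  rwa [add_zero, mul_inv_cancel_left] at h3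

private theorem ThetaSym_prod (q z : ℕ) (α : Fin M × κ →₀ ℕ) :
    ∏ i : Fin M × κ, (MvPolynomial.C ((z : ZMod p) ^ (i.1 : ℕ)) *
      MvPolynomial.X i.2 ^ q ^ (i.1 : ℕ)) ^ α i =
    MvPolynomial.monomial (merge q α) ((z : ZMod p) ^ (∑ l : Fin M, (l : ℕ) * bdeg α l)) := by
  have h1 : MvPolynomial.monomial (merge q α) ((z : ZMod p) ^ (∑ l : Fin M, (l : ℕ) * bdeg α l)) =
      MvPolynomial.C ((z : ZMod p) ^ (∑ l : Fin M, (l : ℕ) * bdeg α l)) *
        ∏ b : κ, (MvPolynomial.X b : MvPolynomial κ (ZMod p)) ^ (merge q α b) := by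
    rw [MvPolynomial.monomial_eq, Finsupp.prod_fintype]
    intro b
    rw [pow_zero]
  rw [h1, Fintype.prod_prod_type]
  have h2 : ∀ l : Fin M, ∏ b : κ, (MvPolynomial.C ((z : ZMod p) ^ (l : ℕ)) *
      (MvPolynomial.X b : MvPolynomial κ (ZMod p)) ^ q ^ (l : ℕ)) ^ α (l, b) =
      MvPolynomial.C ((z : ZMod p) ^ ((l : ℕ) * bdeg α l)) *
        ∏ b : κ, (MvPolynomial.X b : MvPolynomial κ (ZMod p)) ^ (q ^ (l : ℕ) * α (l, b)) := by
    intro l
    simp_rw [mul_pow]
    rw [Finset.prod_mul_distrib, Finset.prod_pow_eq_pow_sum]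
    congr 1
    · rw [← map_pow, ← pow_mul]
      rfl
    · apply Finset.prod_congr rfl
      intro b _
      rw [← pow_mul]
  simp_rw [h2]
  rw [Finset.prod_mul_distrib, ← map_prod, Finset.prod_pow_eq_pow_sum, Finset.prod_comm]
  congr 1
  apply Finset.prod_congr rfl
  intro b _
  rw [Finset.prod_pow_eq_pow_sum, merge_apply]

theorem Sym_theta_mon {J k z : ℕ} {θ : P →* P' ⧸ T'.L J} (h : IsTheta T T' J k z θ)
    (α : Fin M × κ →₀ ℕ) : T'.Sym J (wt (p ^ k) α)
      (MvPolynomial.monomial (merge (p ^ k) α) ((z : ZMod p) ^ (∑ l : Fin M, (l : ℕ) * bdeg α l)))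
      (thLift T T' J θ h.ker (T.mon J α)) := by
  have h1 : ∀ i ∈ T.ord, T'.Sym J (α i * p ^ (k * (i.1 : ℕ)))
      ((MvPolynomial.C ((z : ZMod p) ^ (i.1 : ℕ)) *
        MvPolynomial.X i.2 ^ p ^ (k * (i.1 : ℕ))) ^ α i)
      ((thLift T T' J θ h.ker (T.el J (T.x i) - 1)) ^ α i) := by
    intro i _
    exact (Sym_theta_gen T T' h i.1 i.2).pow (α i)
  have h2 := UTower.Sym.list_prod T.ord (fun i => α i * p ^ (k * (i.1 : ℕ))) _ _ h1
  have h3 : (T.ord.map fun i => α i * p ^ (k * (i.1 : ℕ))).sum = wt (p ^ k) α := by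
    rw [ThetaSym_sum, Fintype.sum_prod_type]
    unfold wt bdeg
    apply Finset.sum_congr rfl
    intro l _
    rw [Finset.mul_sum]
    apply Finset.sum_congr rfl
    intro b _
    rw [← pow_mul, mul_comm]
  have h4 : (T.ord.map fun i : Fin M × κ => (MvPolynomial.C ((z : ZMod p) ^ (i.1 : ℕ)) *
        (MvPolynomial.X i.2 : MvPolynomial κ (ZMod p)) ^ p ^ (k * (i.1 : ℕ))) ^ α i).prod =
      MvPolynomial.monomial (merge (p ^ k) α)
        ((z : ZMod p) ^ (∑ l : Fin M, (l : ℕ) * bdeg α l)) := by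
    rw [ThetaSym_list, ← ThetaSym_prod]
    apply Finset.prod_congr rfl
    intro i _
    rw [← pow_mul]
  have h5 : (T.ord.map fun i => (thLift T T' J θ h.ker (T.el J (T.x i) - 1)) ^ α i).prod =
      thLift T T' J θ h.ker (T.mon J α) := by
    unfold UTower.mon
    rw [map_list_prod, List.map_map]
    congr 1
    apply List.map_congr_left
    intro i _
    rw [Function.comp_apply, map_pow]
  rw [h3, h4, h5] at h2
  exact h2

theorem exists_theta_sym (δ : T.Hat) (hδ : δ ≠ 0) : ∃ C : ℕ, ∀ k J z : ℕ, C < p ^ k →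
    k * M ≤ J + e → ¬ p ∣ z → ∀ (θ : P →* P' ⧸ T'.L J) (h : IsTheta T T' J k z θ),
      ∃ w ≤ C * p ^ (k * (M - 1)), ∃ f, T'.Sym J w f (thLift T T' J θ h.ker (T.proj J δ)) ∧
        ∃ α ∈ f.support, ∀ b, α b < p ^ J := by
  classical
  have hp : p.Prime := Fact.out
  obtain ⟨c, hc⟩ := T.exists_coef δ
  have hne : ({α | c α ≠ 0} : Set (Fin M × κ →₀ ℕ)).Nonempty := by
    by_contra hcon
    rw [Set.not_nonempty_iff_eq_empty] at hcon
    have h1 : ∀ α, c α = 0 := by
      intro α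
      by_contra h
      have : α ∈ ({α | c α ≠ 0} : Set (Fin M × κ →₀ ℕ)) := h
      rw [hcon] at this
      exact this
    apply hδ
    apply T.Hat_ext
    intro J
    rw [hc J, map_zero]
    apply Finset.sum_eq_zero
    intro α _
    rw [h1, zero_smul]
  obtain ⟨α₀, hα₀, hmin⟩ := exists_lex_min _ hne
  have hcα₀ : c α₀ ≠ 0 := hα₀
  obtain ⟨A, hA⟩ : ∃ A, A = ∑ l, bdeg α₀ l := ⟨_, rfl⟩
  refine ⟨A * p ^ e + 1, ?_⟩
  intro k J z hk hkM hz θ h
  obtain ⟨q, hq⟩ : ∃ q, q = p ^ k := ⟨_, rfl⟩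
  have hq0 : 0 < q := by rw [hq]; exact pow_pos hp.pos k
  have hpe : 0 < p ^ e := pow_pos hp.pos e
  have hAq : A < q := by
    rw [hq]
    nlinarith
  have hAq' : ∑ l, bdeg α₀ l < q := by rw [← hA]; exact hAq
  have hwt : wt q α₀ ≤ A * q ^ (M - 1) := by
    rw [hA]
    exact wt_le q hq0 α₀
  have hbig : A * q ^ (M - 1) < p ^ J := by
    rcases Nat.eq_zero_or_pos A with h0 | h0
    · rw [h0, zero_mul]
      exact pow_pos hp.pos J
    · have hM : 0 < M := by
        rcases Nat.eq_zero_or_pos M with hM | hM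
        · exfalso
          subst hM
          rw [hA] at h0
          simp at h0
        · exact hM
      have h1 : A * p ^ e < q := by rw [hq]; omega
      have h2 : A * q ^ (M - 1) * p ^ e < p ^ J * p ^ e := by
        calc A * q ^ (M - 1) * p ^ e = (A * p ^ e) * q ^ (M - 1) := by ring
          _ < q * q ^ (M - 1) := Nat.mul_lt_mul_of_pos_right h1 (pow_pos hq0 _)
          _ = q ^ M := by rw [← pow_succ']; congr 1; omega
          _ = p ^ (k * M) := by rw [hq, pow_mul]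
          _ ≤ p ^ (J + e) := Nat.pow_le_pow_right hp.pos hkM
          _ = p ^ J * p ^ e := pow_add _ _ _
      exact Nat.lt_of_mul_lt_mul_right h2
  refine ⟨wt q α₀, ?_, ?_⟩
  · calc wt q α₀ ≤ A * q ^ (M - 1) := hwt
      _ ≤ (A * p ^ e + 1) * q ^ (M - 1) := by
          apply Nat.mul_le_mul_right
          nlinarith
      _ = (A * p ^ e + 1) * p ^ (k * (M - 1)) := by rw [hq, pow_mul]
  obtain ⟨S, hS⟩ : ∃ S : Finset (Fin M × κ →₀ ℕ), S = (box (Fin M × κ) (p ^ J)).filter
      (fun α => c α ≠ 0 ∧ ∀ l, bdeg α l = bdeg α₀ l) := ⟨_, rfl⟩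
  obtain ⟨zz, hzz⟩ : ∃ zz : (Fin M × κ →₀ ℕ) → ZMod p, zz = fun α =>
    (z : ZMod p) ^ (∑ l : Fin M, (l : ℕ) * bdeg α l) := ⟨_, rfl⟩
  have hmon : ∀ α, T'.Sym J (wt q α) (MvPolynomial.monomial (merge q α) (zz α))
      (thLift T T' J θ h.ker (T.mon J α)) := by
    intro α
    rw [hzz, hq]
    exact Sym_theta_mon T T' h α
  refine ⟨∑ α ∈ S, c α • MvPolynomial.monomial (merge q α) (zz α), ?_, ?_⟩
  · have h1 : T'.Sym J (wt q α₀) (∑ α ∈ S, c α • MvPolynomial.monomial (merge q α) (zz α))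
        (∑ α ∈ S, c α • thLift T T' J θ h.ker (T.mon J α)) := by
      apply UTower.Sym.sum
      intro α hα
      rw [hS, Finset.mem_filter] at hα
      apply UTower.Sym.smul
      rw [← wt_eq q α₀ α hα.2.2]
      exact hmon α
    refine h1.congr ?_
    have h2 : thLift T T' J θ h.ker (T.proj J δ) =
        ∑ α ∈ box (Fin M × κ) (p ^ J), c α • thLift T T' J θ h.ker (T.mon J α) := by
      rw [hc J, map_sum]
      apply Finset.sum_congr rfl
      intro α _
      rw [ThetaSym_smul]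
    have h3 : S ⊆ box (Fin M × κ) (p ^ J) := by
      rw [hS]
      exact Finset.filter_subset _ _
    rw [h2, ← Finset.sum_sdiff h3, add_sub_cancel_right]
    apply Submodule.sum_mem
    intro α hα
    rw [Finset.mem_sdiff, hS, Finset.mem_filter] at hα
    by_cases h0 : c α = 0
    · rw [h0, zero_smul]
      exact Submodule.zero_mem _
    · apply Submodule.smul_mem
      rcases hmin α h0 with h4 | ⟨l, h4, h5⟩
      · exact absurd ⟨hα.1, h0, h4⟩ hα.2
      · exact T'.F_anti J (wt_lt q α₀ α hAq' l h4 h5) (hmon α).mem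
  · refine ⟨merge q α₀, ?_, ?_⟩
    · rw [MvPolynomial.mem_support_iff, MvPolynomial.coeff_sum]
      have hα₀S : α₀ ∈ S := by
        rw [hS, Finset.mem_filter, mem_box]
        refine ⟨fun i => ?_, hcα₀, fun _ => rfl⟩
        have h1 := lexMin_le α₀ i
        rw [← hA] at h1
        have h2 : A ≤ A * q ^ (M - 1) := Nat.le_mul_of_pos_right _ (pow_pos hq0 _)
        omega
      rw [Finset.sum_eq_single α₀]
      · rw [MvPolynomial.coeff_smul, MvPolynomial.coeff_monomial, if_pos rfl, smul_eq_mul, hzz]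
        apply mul_ne_zero hcα₀
        apply pow_ne_zero
        rw [Ne, ZMod.natCast_eq_zero_iff]
        exact hz
      · intro α hα hne
        rw [hS, Finset.mem_filter] at hα
        rw [MvPolynomial.coeff_smul, MvPolynomial.coeff_monomial, if_neg, smul_zero]
        intro h1
        apply hne
        apply digits_inj q α α₀ _ hAq' h1
        rw [Finset.sum_congr rfl fun l _ => hα.2.2 l]
        exact hAq'
      · intro h1
        exact absurd hα₀S h1
    · intro b
      have h1 : merge q α₀ b ≤ ∑ b, merge q α₀ b :=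
        Finset.single_le_sum (f := fun b => merge q α₀ b) (fun _ _ => Nat.zero_le _)
          (Finset.mem_univ b)
      rw [sum_merge] at h1
      omega

end Pool.Agent.IWA
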