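import Mathlib
import Pool.Agent.IWA.RkConv
import Pool.Agent.IWA.ThetaSym

/-!
# IWA / RkTheta : uniform lower bound for the ranks of specialisations (MP_05b873_al)

Paper proof. `Hat` of the tower `T` is a noetherian domain, so `exists_cert` gives `r`, `E`, `C`,
`δ`, `A'`, `C'`, `δ'`; `rk_bounds` gives the convergence. Apply the ring homomorphism
`(thLift ...).comp (T.proj J)` to the certificate `C * fromRows A E = diagonal δ` and use
`rkR_ge_of_cert`. By `exists_theta_sym` and `Sym.rank_ge` (for the tower `T'`), with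
`D = card κ`, `q = p ^ J`:
`rank (mulLeft (image of δ l)) ≥ q ^ D - C_l p ^ (k (M - 1)) q ^ (D - 1)`, and
`p ^ (k (M - 1)) / q ≤ p ^ (k (M - 1)) p ^ e / p ^ (k M) = p ^ e / p ^ k`. Hence
`rkR ≥ (r - V p ^ e / p ^ k) q ^ D` for all `k` with `p ^ k` larger than all `C_l` (`V` is the sum of
the `C_l`). Choose `k₀` such that this is at least `r - ε`. (`M ≥ 1` because of `T.pos`.)
-/

namespace Pool.Agent.IWA

open Module Filter Topology Matrix

variable {p e : ℕ} [Fact p.Prime] {M : ℕ} {κ : Type} [Fintype κ] {P P' : Type} [Group P]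
  [Group P'] (T : UTower p e (Fin M × κ) P) (T' : UTower p e κ P')

/-- the certificate after a ring homomorphism to a finite level -/
private theorem RkTheta_cert {R : Type*} [Ring R] {ι : Type} [Fintype ι] {Q : Type} [Group Q]
    (U : UTower p e ι Q) (J : ℕ) (φ : R →+* U.R J) {m n : ℕ} (A : Matrix (Fin m) (Fin n) R) (r : ℕ)
    (hr : r ≤ n) (E : Matrix (Fin (n - r)) (Fin n) R)
    (C : Matrix (Fin n) (Fin m ⊕ Fin (n - r)) R) (δ : Fin n → R)
    (h : C * Matrix.fromRows A E = Matrix.diagonal δ) :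
    ∑ l, finrank (ZMod p) (LinearMap.range (LinearMap.mulLeft (ZMod p) (φ (δ l)))) ≤
      rkR (ZMod p) (A.map φ) + (n - r) * p ^ (J * Fintype.card ι) := by
  have := U.finite_R J
  have : FiniteDimensional (ZMod p) (U.R J) := Module.Finite.of_finite
  have h1 : C.map φ * Matrix.fromRows (A.map φ) (E.map φ) =
      Matrix.diagonal fun l => φ (δ l) := by
    have h2 : Matrix.fromRows (A.map φ) (E.map φ) = (Matrix.fromRows A E).map φ := by
      ext i j
      rcases i with i | i <;> rfl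
    rw [h2, ← Matrix.map_mul, h, Matrix.diagonal_map (map_zero φ)]
  have h3 := rkR_ge_of_cert (ZMod p) (A.map φ) r hr (E.map φ) (C.map φ) (fun l => φ (δ l)) h1
  rw [U.finrank_R] at h3
  exact h3

theorem exists_rank_theta {m n : ℕ} (A : Matrix (Fin m) (Fin n) T.Hat) : ∃ r : ℕ,
    Tendsto (fun J => (rkR (ZMod p) (A.map (T.proj J)) : ℝ) /
      p ^ (J * Fintype.card (Fin M × κ))) atTop (𝓝 r) ∧
    ∀ ε : ℝ, 0 < ε → ∃ k₀ : ℕ, ∀ k ≥ k₀, ∀ J z : ℕ, k * M ≤ J + e → ¬ p ∣ z →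
      ∀ (θ : P →* P' ⧸ T'.L J) (h : IsTheta T T' J k z θ),
        ((r : ℝ) - ε) * p ^ (J * Fintype.card κ) ≤
          rkR (ZMod p) (A.map fun a => thLift T T' J θ h.ker (T.proj J a)) := by
  obtain ⟨r, hr, ⟨E, C, δ, hδ, hC⟩, ⟨A', C', δ', hδ', hC'⟩⟩ := exists_cert A
  refine ⟨r, T.rk_bounds A r hr E C δ hδ hC A' C' δ' hδ' hC', fun ε hε => ?_⟩
  choose c hc using fun l : Fin n => exists_theta_sym T T' (δ l) (hδ l)
  have hp1 : 1 < p := (Fact.out : p.Prime).one_lt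
  have hpR : (1 : ℝ) < p := by exact_mod_cast hp1
  obtain ⟨k₀, hk₀⟩ := pow_unbounded_of_one_lt
    (max ((∑ l, c l : ℕ) : ℝ) (((∑ l, c l : ℕ) : ℝ) * p ^ e / ε)) hpR
  refine ⟨k₀, fun k hk J z hkJ hz θ h => ?_⟩
  have hk1 : (p : ℝ) ^ k₀ ≤ p ^ k := pow_le_pow_right₀ hpR.le hk
  have hk2 : ((∑ l, c l : ℕ) : ℝ) < p ^ k :=
    ((le_max_left _ _).trans_lt hk₀).trans_le hk1
  have hk3 : ((∑ l, c l : ℕ) : ℝ) * p ^ e / ε ≤ p ^ k :=
    ((le_max_right _ _).trans hk₀.le).trans hk1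
  have hk4 : ∑ l, c l < p ^ k := by exact_mod_cast hk2
  have hD : 0 < Fintype.card κ := T'.pos
  have hM : 0 < M := by
    have h1 := T.pos
    rw [Fintype.card_prod, Fintype.card_fin] at h1
    exact Nat.pos_of_mul_pos_right h1
  have h1 := RkTheta_cert T' J ((thLift T T' J θ h.ker).comp (T.proj J)) A r hr E C δ hC
  have h2 : ∀ l, (p ^ J) ^ Fintype.card κ ≤
      finrank (ZMod p) (LinearMap.range (LinearMap.mulLeft (ZMod p)
        (((thLift T T' J θ h.ker).comp (T.proj J)) (δ l)))) +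
      c l * (p ^ (k * (M - 1)) * (p ^ J) ^ (Fintype.card κ - 1)) := by
    intro l
    obtain ⟨w, hw, f, hf, hα⟩ := hc l k J z
      ((Finset.single_le_sum (f := c) (fun _ _ => Nat.zero_le _) (Finset.mem_univ l)).trans_lt hk4)
      hkJ hz θ h
    refine (hf.rank_ge hα).trans ?_
    refine Nat.add_le_add_left ?_ _
    rw [← mul_assoc]
    exact Nat.mul_le_mul_right _ hw
  have h3 := Finset.sum_le_sum fun l (_ : l ∈ Finset.univ) => h2 l
  rw [Finset.sum_const, Finset.card_univ, Fintype.card_fin, smul_eq_mul, Finset.sum_add_distrib,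
    ← Finset.sum_mul, ← pow_mul] at h3
  have h4 : n * p ^ (J * Fintype.card κ) ≤
      rkR (ZMod p) (A.map ((thLift T T' J θ h.ker).comp (T.proj J))) +
        (n - r) * p ^ (J * Fintype.card κ) +
      (∑ l, c l) * (p ^ (k * (M - 1)) * (p ^ J) ^ (Fintype.card κ - 1)) :=
    h3.trans (Nat.add_le_add_right h1 _)
  have h5 : p ^ k * (p ^ (k * (M - 1)) * (p ^ J) ^ (Fintype.card κ - 1)) ≤
      p ^ e * p ^ (J * Fintype.card κ) := by
    rw [← pow_mul, ← pow_add, ← pow_add, ← pow_add]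
    refine Nat.pow_le_pow_right hp1.le ?_
    obtain ⟨M', rfl⟩ : ∃ M', M = M' + 1 := ⟨M - 1, by omega⟩
    obtain ⟨D, hD'⟩ : ∃ D, Fintype.card κ = D + 1 := ⟨Fintype.card κ - 1, by omega⟩
    rw [hD', Nat.add_sub_cancel, Nat.add_sub_cancel]
    rw [Nat.mul_succ] at hkJ ⊢
    omega
  have h4' : (n : ℝ) * p ^ (J * Fintype.card κ) ≤
      rkR (ZMod p) (A.map fun a => thLift T T' J θ h.ker (T.proj J a)) +
        ((n : ℝ) - r) * p ^ (J * Fintype.card κ) +
      ((∑ l, c l : ℕ) : ℝ) * (p ^ (k * (M - 1)) * (p ^ J) ^ (Fintype.card κ - 1)) := by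
    have h6 := h4
    have h7 : ((n - r : ℕ) : ℝ) = (n : ℝ) - r := Nat.cast_sub hr
    rw [← h7]
    exact_mod_cast h6
  have h5' : (p : ℝ) ^ k * (p ^ (k * (M - 1)) * (p ^ J) ^ (Fintype.card κ - 1)) ≤
      p ^ e * p ^ (J * Fintype.card κ) := by exact_mod_cast h5
  have hpk : (0 : ℝ) < p ^ k := by positivity
  have h8 : ((∑ l, c l : ℕ) : ℝ) * (p ^ (k * (M - 1)) * (p ^ J) ^ (Fintype.card κ - 1)) ≤
      ε * p ^ (J * Fintype.card κ) := by
    have h9 : ((∑ l, c l : ℕ) : ℝ) * p ^ e ≤ ε * p ^ k := by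
      rw [div_le_iff₀ hε] at hk3
      linarith
    have h10 : (p : ℝ) ^ k *
        (((∑ l, c l : ℕ) : ℝ) * (p ^ (k * (M - 1)) * (p ^ J) ^ (Fintype.card κ - 1))) ≤
        p ^ k * (ε * p ^ (J * Fintype.card κ)) := by
      calc (p : ℝ) ^ k *
          (((∑ l, c l : ℕ) : ℝ) * (p ^ (k * (M - 1)) * (p ^ J) ^ (Fintype.card κ - 1)))
          = ((∑ l, c l : ℕ) : ℝ) *
            (p ^ k * (p ^ (k * (M - 1)) * (p ^ J) ^ (Fintype.card κ - 1))) := by ring
        _ ≤ ((∑ l, c l : ℕ) : ℝ) * (p ^ e * p ^ (J * Fintype.card κ)) :=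
          mul_le_mul_of_nonneg_left h5' (Nat.cast_nonneg _)
        _ = (((∑ l, c l : ℕ) : ℝ) * p ^ e) * p ^ (J * Fintype.card κ) := by ring
        _ ≤ (ε * p ^ k) * p ^ (J * Fintype.card κ) :=
          mul_le_mul_of_nonneg_right h9 (by positivity)
        _ = _ := by ring
    exact le_of_mul_le_mul_left h10 hpk
  linarith

/-- the version for one tower -/
theorem exists_rank {ι : Type} [Fintype ι] (T : UTower p e ι P) {m n : ℕ}
    (A : Matrix (Fin m) (Fin n) T.Hat) : ∃ r : ℕ,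
    Tendsto (fun J => (rkR (ZMod p) (A.map (T.proj J)) : ℝ) / p ^ (J * Fintype.card ι)) atTop
      (𝓝 r) := by
  obtain ⟨r, hr, ⟨E, C, δ, hδ, hC⟩, ⟨A', C', δ', hδ', hC'⟩⟩ := exists_cert A
  exact ⟨r, T.rk_bounds A r hr E C δ hδ hC A' C' δ' hδ' hC'⟩

end Pool.Agent.IWA
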