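import Mathlib
import Pool.Agent.IWA.GLTow
import Pool.Agent.IWA.RkTheta
import Pool.Agent.IWA.HatHom
import Pool.Agent.IWA.Cong
import Pool.Agent.IWA.FormSub
import Pool.Agent.CIR.Mono

/-!
# IWA / LimZp : limits along the chains of the specialisations (MP_05b873_al)

Paper proofs.
* `congSub_normal`, `congSub_anti`, `congSub_finiteIndex`, `exists_relIndex_pow`:
  `congSub ρ l k` is the preimage of the normal subgroup `cg ℤ_p N p k` (kernel of the reduction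
  modulo `p ^ k`). With `D` from `exists_formal`: `D j ≤ congSub ρ (p ^ e μ) j`
  (`formSub_le_congSub`), `(D j).index = p ^ a`, so every subgroup containing `D j` has `p`-power
  index, and relative indices divide `p ^ a` (`Nat.dvd_prime_pow`).
* `nrk_le_formal`: if `D j ≤ Δ`, then `nrk A Δ ≤ nrk A (D j)` (`nrk_mono`; the relative index of
  `D j` in `Δ` divides `p ^ a`), and `nrk A (D j) ≤ β` because `nrk A (D j)` is monotone in `j`
  (`nrk_mono`) with limit `β`.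
* `exists_lim_Zp`: take the tower from `exists_good_Zp` and `exists_GLTower`; `exists_rank` for the
  matrix `A.map (hatHom T a)` with `a = specE h1 (eval_X e μ)`; `nrk_tower` with
  `D = congSub ρ (p ^ e μ) (e + J)` (`g ∈ D ↔ a g ∈ T.L J` by `GLTower.hL`,
  `Subgroup.mem_subgroupOf`). This gives the convergence along `k = e + J`
  (`Filter.tendsto_add_atTop_iff_nat`).
-/

namespace Pool.Agent.IWA

open Polynomial Filter Topology Pool.Agent.CIR

variable {p : ℕ} [Fact p.Prime] {G : Type} [Group G] {N : ℕ}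

theorem limZp_cg_normal (R : Type) [CommRing R] (N p i : ℕ) : (cg R N p i).Normal := by
  constructor
  rintro u ⟨a, ha⟩ v
  refine ⟨(v : Matrix (Fin N) (Fin N) R) * a * (v⁻¹ : (Matrix (Fin N) (Fin N) R)ˣ), ?_⟩
  rw [Units.val_mul, Units.val_mul, ha, mul_add, mul_one, add_mul, Units.mul_inv,
    Matrix.mul_smul, Matrix.smul_mul]

theorem limZp_cg_anti (R : Type) [CommRing R] (N p : ℕ) : Antitone (cg R N p) := by
  intro i j hij u hu
  obtain ⟨a, ha⟩ := hu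
  refine ⟨((p : R) ^ (j - i)) • a, ?_⟩
  rw [ha, smul_smul, ← pow_add, Nat.add_sub_cancel' hij]

theorem congSub_normal (ρ : G →* Matrix (Fin N) (Fin N) ℤ_[p][X]) (l : ℤ_[p]) (k : ℕ) :
    (congSub ρ l k).Normal := by
  have := limZp_cg_normal ℤ_[p] N p k
  unfold congSub
  exact this.comap _

theorem congSub_anti (ρ : G →* Matrix (Fin N) (Fin N) ℤ_[p][X]) (l : ℤ_[p]) :
    Antitone (congSub ρ l) := by
  intro i j hij
  exact Subgroup.comap_mono (limZp_cg_anti ℤ_[p] N p hij)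

/-- every congruence subgroup contains a normal subgroup of index a power of `p` -/
theorem limZp_sub (ρ : G →* Matrix (Fin N) (Fin N) ℤ_[p][X]) (h1 : TrivMod ρ) {e : ℕ}
    (he : 1 ≤ e) (μ : ℤ_[p]) (k : ℕ) : ∃ D : Subgroup G,
      D ≤ congSub ρ ((p : ℤ_[p]) ^ e * μ) k ∧ D.Normal ∧ D.FiniteIndex ∧ ∃ a, D.index = p ^ a := by
  obtain ⟨D, hD, hn, hf, hp, _⟩ := exists_formal ρ h1
  refine ⟨D k, ?_, hn k, hf k, hp k⟩
  intro g hg
  exact formSub_le_congSub ρ he μ k ((hD k g).1 hg)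

theorem limZp_relIndex {D D' : Subgroup G} (h : D' ≤ D) {a : ℕ} {D₀ : Subgroup G} (h0 : D₀ ≤ D')
    (ha : D₀.index = p ^ a) : ∃ j, D'.relIndex D = p ^ j := by
  have h1 : D'.relIndex D ∣ D'.index := ⟨D.index, (Subgroup.relIndex_mul_index h).symm⟩
  have h2 : D'.index ∣ p ^ a := by
    rw [← ha]; exact Subgroup.index_dvd_of_le h0
  obtain ⟨j, _, hj⟩ := (Nat.dvd_prime_pow (Fact.out : p.Prime)).1 (h1.trans h2)
  exact ⟨j, hj⟩

theorem congSub_finiteIndex (ρ : G →* Matrix (Fin N) (Fin N) ℤ_[p][X]) (h1 : TrivMod ρ) {e : ℕ}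
    (he : 1 ≤ e) (μ : ℤ_[p]) (k : ℕ) : (congSub ρ ((p : ℤ_[p]) ^ e * μ) k).FiniteIndex := by
  obtain ⟨D, hD, _, hf, _⟩ := limZp_sub ρ h1 he μ k
  exact Subgroup.finiteIndex_of_le hD

/-- monotonicity along the chain -/
theorem nrk_congSub_mono (ρ : G →* Matrix (Fin N) (Fin N) ℤ_[p][X]) (h1 : TrivMod ρ) {e : ℕ}
    (he : 1 ≤ e) (μ : ℤ_[p]) {m n : ℕ} (A : Matrix (Fin m) (Fin n) (MonoidAlgebra (ZMod p) G)) :
    Monotone (fun k => nrk A (congSub ρ ((p : ℤ_[p]) ^ e * μ) k)) := by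
  intro i j hij
  have hle := congSub_anti ρ ((p : ℤ_[p]) ^ e * μ) hij
  obtain ⟨D, hD, _, _, a, ha⟩ := limZp_sub ρ h1 he μ j
  obtain ⟨b, hb⟩ := limZp_relIndex hle hD ha
  exact nrk_mono p A _ _ hle (congSub_normal ρ _ j) (congSub_finiteIndex ρ h1 he μ j) b hb

theorem nrk_le_formal (D : ℕ → Subgroup G) (hn : ∀ j, (D j).Normal)
    (hf : ∀ j, (D j).FiniteIndex) (hp : ∀ j, ∃ a, (D j).index = p ^ a) (ha : Antitone D)
    {m n : ℕ} (A : Matrix (Fin m) (Fin n) (MonoidAlgebra (ZMod p) G)) (β : ℝ)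
    (hβ : Tendsto (fun j => nrk A (D j)) atTop (𝓝 β)) (Δ : Subgroup G) (j : ℕ) (h : D j ≤ Δ) :
    nrk A Δ ≤ nrk A (D j) ∧ nrk A (D j) ≤ β := by
  constructor
  · obtain ⟨a, ha'⟩ := hp j
    obtain ⟨b, hb⟩ := limZp_relIndex h le_rfl ha'
    exact nrk_mono p A _ _ h (hn j) (hf j) b hb
  · have hmono : Monotone (fun j => nrk A (D j)) := by
      intro i k hik
      obtain ⟨a, ha'⟩ := hp k
      obtain ⟨b, hb⟩ := limZp_relIndex (ha hik) le_rfl ha'
      exact nrk_mono p A _ _ (ha hik) (hn k) (hf k) b hb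
    exact hmono.ge_of_tendsto hβ j

theorem exists_lim_Zp {ρ : G →* Matrix (Fin N) (Fin N) ℤ_[p][X]} (h1 : TrivMod ρ) {e : ℕ}
    (he3 : 3 ≤ p ^ e) (he : 1 ≤ e) (hN : 0 < N) (μ : ℤ_[p]) {m n : ℕ}
    (A : Matrix (Fin m) (Fin n) (MonoidAlgebra (ZMod p) G)) :
    ∃ r : ℕ, Tendsto (fun k => nrk A (congSub ρ ((p : ℤ_[p]) ^ e * μ) k)) atTop (𝓝 r) := by
  obtain ⟨G0, _⟩ := exists_good_Zp p
  obtain ⟨W⟩ := exists_GLTower G0 N e he3 he one_pos hN
  set a : G →* cg ℤ_[p] N p e := specE h1 (eval_X e μ) with hadef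
  obtain ⟨r, hr⟩ := exists_rank W.T (A.map (hatHom W.T a))
  refine ⟨r, ?_⟩
  rw [← tendsto_add_atTop_iff_nat e]
  refine hr.congr ?_
  intro J
  have hD : ∀ g, g ∈ congSub ρ ((p : ℤ_[p]) ^ e * μ) (J + e) ↔ a g ∈ W.T.L J := by
    intro g
    rw [W.hL J, Subgroup.mem_subgroupOf, Nat.add_comm J e]
    rfl
  exact (nrk_tower W.T a J _ hD A).symm

end Pool.Agent.IWA
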