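import Mathlib
import Pool.Agent.IWA.FamDefs
import Pool.Agent.IWA.Pow

/-!
# IWA / ThetaEx : the homomorphisms `θ` for the specialisation `Y ↦ p ^ k ζ` (MP_05b873_al)

Paper proof. Let `q = p ^ (k M)`. The ring homomorphism
`ev : ℤ_p[Y] / Y ^ M → ℤ_p / q`, `Y ↦ p ^ k ζ` is well defined (`Ideal.Quotient.lift`, since
`(p ^ k ζ) ^ M` is divisible by `q`). It induces `f : cg (RM p M) N p e → GL_N (ℤ_p / q)` (units of
matrices), and the reduction modulo `q` induces `g : cg ℤ_p N p e → GL_N (ℤ_p / q)` with kernel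
`(cg (k M)).subgroupOf (cg e) = L' J` since `J + e = k M`. Every `f u` is in the range of `g`:
`u = 1 + p ^ e a`, lift the entries of `a` to polynomials, evaluate them at `p ^ k ζ`, the matrix
`1 + p ^ e a(p ^ k ζ)` over `ℤ_p` is invertible (determinant `1` modulo `p`, `e ≥ 1`) and is mapped by
`g` to `f u`. So there is a unique homomorphism `θ` to `cg ℤ_p N p e ⧸ L' J` with
`θ u = mk v` whenever `f u = g v`.
* `ker`: if `u ∈ cg (e + J)`, then `f u = 1` since `q = p ^ (e + J)`.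
* `gen`: `f (x (l, j, k'))` is the class of `1 + single j k' (p ^ (e + k l) ζ ^ l)`, so
  `θ (x (l, b)) = mk y` with this `y ∈ cg (e + k l)`; modulo `p ^ (e + k l + 1)`,
  `x' b ^ (p ^ (k l) z ^ l) ≡ 1 + single b (p ^ (e + k l) z ^ l)` (powers: use `pow_mul_cg`) and `z ≡ ζ` modulo `p`.
* the last statement: `(ρ g).map psi` is mapped by `ev` to the class of `(ρ g)` evaluated at
  `p ^ e (μ + p ^ k ζ)`.
-/

namespace Pool.Agent.IWA

open Polynomial

/-- a matrix congruent to one modulo a positive power of `p` is invertible -/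
theorem thetaEx_unit {p : ℕ} [Fact p.Prime] {N i : ℕ} (hi : 1 ≤ i)
    (B : Matrix (Fin N) (Fin N) ℤ_[p]) : IsUnit (1 + ((p : ℤ_[p]) ^ i) • B) := by
  obtain ⟨G, -⟩ := exists_good_Zp p
  rw [Matrix.isUnit_iff_isUnit_det]
  have h1 : (Ideal.Quotient.mk (Ideal.span {(p : ℤ_[p])}))
      (Matrix.det (1 + ((p : ℤ_[p]) ^ i) • B)) = 1 := by
    rw [RingHom.map_det]
    have : (Ideal.Quotient.mk (Ideal.span {(p : ℤ_[p])})).mapMatrix
        (1 + ((p : ℤ_[p]) ^ i) • B) = 1 := by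
      rw [map_add, map_one]
      have h2 : (Ideal.Quotient.mk (Ideal.span {(p : ℤ_[p])})).mapMatrix
          (((p : ℤ_[p]) ^ i) • B) = 0 := by
        ext a b
        rw [RingHom.mapMatrix_apply, Matrix.map_apply, Matrix.smul_apply, smul_eq_mul,
          Matrix.zero_apply, Ideal.Quotient.eq_zero_iff_mem, Ideal.mem_span_singleton]
        exact Dvd.dvd.mul_right (dvd_pow_self _ (by omega)) _
      rw [h2, add_zero]
    rw [this, Matrix.det_one]
  have h3 : (p : ℤ_[p]) ∣ Matrix.det (1 + ((p : ℤ_[p]) ^ i) • B) - 1 := by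
    rw [← Ideal.mem_span_singleton, ← Ideal.Quotient.eq, h1, map_one]
  obtain ⟨c, hc⟩ := h3
  have h4 : Matrix.det (1 + ((p : ℤ_[p]) ^ i) • B) = 1 + (p : ℤ_[p]) * c := by
    rw [← hc]; ring
  rw [h4]
  exact G.unit c

/-- the evaluation at `p ^ k ζ` -/
noncomputable def thetaEx_ev (p : ℕ) [Fact p.Prime] (M k : ℕ) (ζ : ℤ_[p]) :
    RM p M →+* (ℤ_[p] ⧸ Ideal.span {(p : ℤ_[p]) ^ (k * M)}) :=
  Ideal.Quotient.lift _ ((Ideal.Quotient.mk (Ideal.span {(p : ℤ_[p]) ^ (k * M)})).comp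
    (Polynomial.evalRingHom ((p : ℤ_[p]) ^ k * ζ))) (by
      intro a ha
      rw [Ideal.mem_span_singleton] at ha
      obtain ⟨b, rfl⟩ := ha
      rw [RingHom.comp_apply, Polynomial.coe_evalRingHom, Ideal.Quotient.eq_zero_iff_mem,
        Ideal.mem_span_singleton, eval_mul, eval_pow, Polynomial.eval_X, mul_pow, ← pow_mul]
      exact Dvd.dvd.mul_right (Dvd.dvd.mul_right dvd_rfl _) _)

theorem thetaEx_ev_mk (p : ℕ) [Fact p.Prime] (M k : ℕ) (ζ : ℤ_[p]) (F : ℤ_[p][X]) :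
    thetaEx_ev p M k ζ (Ideal.Quotient.mk _ F) =
      Ideal.Quotient.mk _ (F.eval ((p : ℤ_[p]) ^ k * ζ)) := rfl

variable {p : ℕ} [Fact p.Prime] {G : Type} [Group G] {N : ℕ}

theorem thetaEx_close {i : ℕ} {u v : (Matrix (Fin N) (Fin N) ℤ_[p])ˣ}
    (h : ∃ d : Matrix (Fin N) (Fin N) ℤ_[p],
      (v : Matrix (Fin N) (Fin N) ℤ_[p]) = u + ((p : ℤ_[p]) ^ i) • d) :
    u⁻¹ * v ∈ cg ℤ_[p] N p i := by
  obtain ⟨d, hd⟩ := h
  refine ⟨(u⁻¹ : (Matrix (Fin N) (Fin N) ℤ_[p])ˣ) * d, ?_⟩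
  rw [Units.val_mul, hd, mul_add, Units.inv_mul, Matrix.mul_smul]

theorem exists_theta {ρ : G →* Matrix (Fin N) (Fin N) ℤ_[p][X]} (h1 : TrivMod ρ) {e M : ℕ}
    (he3 : 3 ≤ p ^ e) (he : 1 ≤ e) (hM : 0 < M)
    (T : UTower p e (Fin M × Fin N × Fin N) (cg (RM p M) N p e))
    (hL : ∀ i, T.L i = (cg (RM p M) N p (e + i)).subgroupOf (cg (RM p M) N p e))
    (hx : ∀ (l : Fin M) (j k : Fin N),
      (((T.x (l, j, k) : cg (RM p M) N p e) : (Matrix (Fin N) (Fin N) (RM p M))ˣ) :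
        Matrix (Fin N) (Fin N) (RM p M)) = 1 + Matrix.single j k ((p : RM p M) ^ e *
          Ideal.Quotient.mk (Ideal.span {(X : ℤ_[p][X]) ^ M}) (X ^ (l : ℕ))))
    (T' : UTower p e (Fin N × Fin N) (cg ℤ_[p] N p e))
    (hL' : ∀ i, T'.L i = (cg ℤ_[p] N p (e + i)).subgroupOf (cg ℤ_[p] N p e))
    (hx' : ∀ j k : Fin N, (((T'.x (j, k) : cg ℤ_[p] N p e) : (Matrix (Fin N) (Fin N) ℤ_[p])ˣ) :
        Matrix (Fin N) (Fin N) ℤ_[p]) = 1 + Matrix.single j k ((p : ℤ_[p]) ^ e))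
    (μ ζ : ℤ_[p]) (k z J : ℕ) (hz : (p : ℤ_[p]) ∣ ζ - z) (hJ : J + e = k * M) :
    ∃ θ : cg (RM p M) N p e →* cg ℤ_[p] N p e ⧸ T'.L J, IsTheta T T' J k z θ ∧
      ∀ g, θ (specE h1 (psi_X e M μ) g) =
        (specE h1 (eval_X e (μ + (p : ℤ_[p]) ^ k * ζ)) g : cg ℤ_[p] N p e ⧸ T'.L J) := by
  classical
  set ev := thetaEx_ev p M k ζ with hev
  set f : cg (RM p M) N p e →* (Matrix (Fin N) (Fin N)
      (ℤ_[p] ⧸ Ideal.span {(p : ℤ_[p]) ^ (k * M)}))ˣ :=
    (Units.map (ev.mapMatrix (m := Fin N)).toMonoidHom).comp (cg (RM p M) N p e).subtype with hf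
  set g : cg ℤ_[p] N p e →* (Matrix (Fin N) (Fin N)
      (ℤ_[p] ⧸ Ideal.span {(p : ℤ_[p]) ^ (k * M)}))ˣ :=
    (Units.map ((Ideal.Quotient.mk (Ideal.span {(p : ℤ_[p]) ^ (k * M)})).mapMatrix
      (m := Fin N)).toMonoidHom).comp (cg ℤ_[p] N p e).subtype with hg
  -- equality of the images
  have hfg : ∀ (u : cg (RM p M) N p e) (v : cg ℤ_[p] N p e),
      (∀ i j, ev (((u : (Matrix (Fin N) (Fin N) (RM p M))ˣ) :
        Matrix (Fin N) (Fin N) (RM p M)) i j) =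
        Ideal.Quotient.mk (Ideal.span {(p : ℤ_[p]) ^ (k * M)})
          (((v : (Matrix (Fin N) (Fin N) ℤ_[p])ˣ) : Matrix (Fin N) (Fin N) ℤ_[p]) i j)) →
      g v = f u := by
    intro u v h
    apply Units.ext
    ext i j
    exact (h i j).symm
  have hgg : ∀ a b : cg ℤ_[p] N p e, g a = g b →
      (a : cg ℤ_[p] N p e ⧸ T'.L J) = (b : cg ℤ_[p] N p e ⧸ T'.L J) := by
    intro a b hab
    rw [QuotientGroup.eq, hL', Subgroup.mem_subgroupOf]
    have h2 : ∀ i j, ∃ d, (((b : (Matrix (Fin N) (Fin N) ℤ_[p])ˣ) :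
        Matrix (Fin N) (Fin N) ℤ_[p]) i j) - (((a : (Matrix (Fin N) (Fin N) ℤ_[p])ˣ) :
        Matrix (Fin N) (Fin N) ℤ_[p]) i j) = (p : ℤ_[p]) ^ (e + J) * d := by
      intro i j
      have h3 := congrArg (fun w : (Matrix (Fin N) (Fin N)
        (ℤ_[p] ⧸ Ideal.span {(p : ℤ_[p]) ^ (k * M)}))ˣ => (w : Matrix (Fin N) (Fin N)
        (ℤ_[p] ⧸ Ideal.span {(p : ℤ_[p]) ^ (k * M)})) i j) hab.symm
      have h4 : Ideal.Quotient.mk (Ideal.span {(p : ℤ_[p]) ^ (k * M)})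
          (((b : (Matrix (Fin N) (Fin N) ℤ_[p])ˣ) : Matrix (Fin N) (Fin N) ℤ_[p]) i j) =
          Ideal.Quotient.mk (Ideal.span {(p : ℤ_[p]) ^ (k * M)})
          (((a : (Matrix (Fin N) (Fin N) ℤ_[p])ˣ) : Matrix (Fin N) (Fin N) ℤ_[p]) i j) := h3
      rw [Ideal.Quotient.eq, Ideal.mem_span_singleton, ← hJ, add_comm J e] at h4
      exact h4
    choose d hd using h2
    have h5 := thetaEx_close (p := p) (N := N) (i := e + J)
      (u := (a : (Matrix (Fin N) (Fin N) ℤ_[p])ˣ)) (v := (b : (Matrix (Fin N) (Fin N) ℤ_[p])ˣ))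
      ⟨Matrix.of d, by
        ext i j
        rw [Matrix.add_apply, Matrix.smul_apply, smul_eq_mul, Matrix.of_apply, ← hd i j]
        ring⟩
    exact h5
  have hrange : ∀ u : cg (RM p M) N p e, ∃ v : cg ℤ_[p] N p e, g v = f u := by
    intro u
    obtain ⟨a, ha⟩ := u.2
    have h2 : ∀ i j, ∃ A : ℤ_[p][X], Ideal.Quotient.mk (Ideal.span {(X : ℤ_[p][X]) ^ M}) A =
        a i j := fun i j => Ideal.Quotient.mk_surjective (a i j)
    choose A hA using h2
    obtain ⟨V, hV⟩ := thetaEx_unit (p := p) (N := N) he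
      (Matrix.of fun i j => (A i j).eval ((p : ℤ_[p]) ^ k * ζ))
    refine ⟨⟨V, ⟨_, hV⟩⟩, hfg _ _ ?_⟩
    intro i j
    have h3 : (((⟨V, ⟨_, hV⟩⟩ : cg ℤ_[p] N p e) : (Matrix (Fin N) (Fin N) ℤ_[p])ˣ) :
        Matrix (Fin N) (Fin N) ℤ_[p]) i j = (1 : Matrix (Fin N) (Fin N) ℤ_[p]) i j +
        (p : ℤ_[p]) ^ e * (A i j).eval ((p : ℤ_[p]) ^ k * ζ) := by
      change (V : Matrix (Fin N) (Fin N) ℤ_[p]) i j = _
      rw [hV, Matrix.add_apply, Matrix.smul_apply, smul_eq_mul, Matrix.of_apply]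
    rw [h3, ha, Matrix.add_apply, Matrix.smul_apply, smul_eq_mul, ← hA i j, map_add, map_add,
      map_mul, map_mul, map_pow, map_pow, map_natCast, map_natCast, hev, thetaEx_ev_mk,
      Matrix.one_apply, Matrix.one_apply]
    split_ifs <;> simp
  choose v hv using hrange
  let θ : cg (RM p M) N p e →* cg ℤ_[p] N p e ⧸ T'.L J :=
    MonoidHom.mk' (fun u => (v u : cg ℤ_[p] N p e ⧸ T'.L J)) (by
      intro a b
      rw [← QuotientGroup.mk_mul]
      apply hgg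
      rw [map_mul, hv, hv, hv, map_mul])
  have hθ : ∀ (u : cg (RM p M) N p e) (w : cg ℤ_[p] N p e), g w = f u →
      θ u = (w : cg ℤ_[p] N p e ⧸ T'.L J) := by
    intro u w h
    change (v u : cg ℤ_[p] N p e ⧸ T'.L J) = _
    apply hgg
    rw [hv, h]
  refine ⟨θ, ⟨?_, ?_⟩, ?_⟩
  · intro u hu
    rw [hL, Subgroup.mem_subgroupOf] at hu
    obtain ⟨a, ha⟩ := hu
    rw [hθ u 1 ?_, QuotientGroup.mk_one]
    apply hfg
    intro i j
    rw [ha, Matrix.add_apply, Matrix.smul_apply, smul_eq_mul, map_add, map_mul, map_pow,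
      map_natCast]
    have h2 : ((p : ℕ) : ℤ_[p] ⧸ Ideal.span {(p : ℤ_[p]) ^ (k * M)}) ^ (e + J) = 0 := by
      rw [add_comm e J, hJ]
      have h3 : Ideal.Quotient.mk (Ideal.span {(p : ℤ_[p]) ^ (k * M)})
          ((p : ℤ_[p]) ^ (k * M)) = 0 := by
        rw [Ideal.Quotient.eq_zero_iff_mem]
        exact Ideal.mem_span_singleton_self _
      rw [map_pow, map_natCast] at h3
      exact h3
    rw [h2, zero_mul, add_zero]
    change ev ((1 : Matrix (Fin N) (Fin N) (RM p M)) i j) = Ideal.Quotient.mk _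
      ((1 : Matrix (Fin N) (Fin N) ℤ_[p]) i j)
    rw [Matrix.one_apply, Matrix.one_apply]
    split_ifs <;> simp
  · rintro l ⟨b, b'⟩
    obtain ⟨Y, hY⟩ := thetaEx_unit (p := p) (N := N) (i := e + k * l) (by omega)
      (Matrix.single b b' (ζ ^ (l : ℕ)))
    have hYe : Y ∈ cg ℤ_[p] N p e := by
      refine ⟨(p : ℤ_[p]) ^ (k * l) • Matrix.single b b' (ζ ^ (l : ℕ)), ?_⟩
      rw [hY, pow_add, smul_smul]
    refine ⟨⟨Y, hYe⟩, ?_, ?_, ?_⟩
    · rw [hL', Subgroup.mem_subgroupOf]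
      exact ⟨_, hY⟩
    · apply hθ
      apply hfg
      intro i j
      rw [hx]
      change ev _ = Ideal.Quotient.mk _ ((Y : Matrix (Fin N) (Fin N) ℤ_[p]) i j)
      rw [hY, Matrix.add_apply, Matrix.add_apply, Matrix.smul_apply, Matrix.one_apply,
        Matrix.one_apply, Matrix.single_apply, Matrix.single_apply]
      by_cases hc : b = i ∧ b' = j
      · rw [if_pos hc, if_pos hc, map_add, map_mul, hev, thetaEx_ev_mk, map_pow, map_natCast,
          eval_pow, Polynomial.eval_X, mul_pow, ← pow_mul, pow_add, smul_eq_mul, map_add, map_mul, map_mul,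
          map_pow, map_pow, map_natCast, map_mul, map_pow, map_natCast, mul_assoc]
        split_ifs <;> simp
      · rw [if_neg hc, if_neg hc, add_zero, smul_zero, add_zero]
        split_ifs <;> simp
    · rw [hL', Subgroup.mem_subgroupOf]
      obtain ⟨b2, hb2⟩ := pow_mul_cg (p := p) (R := ℤ_[p]) he3 he
        (Matrix.single b b' (1 : ℤ_[p])) (k * l) (z ^ (l : ℕ))
      obtain ⟨c, hc⟩ := hz.trans (sub_dvd_pow_sub_pow ζ (z : ℤ_[p]) (l : ℕ))
      have h2 : ((((T'.x (b, b') : cg ℤ_[p] N p e) ^ (p ^ (k * (l : ℕ)) * z ^ (l : ℕ)) :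
          cg ℤ_[p] N p e) : (Matrix (Fin N) (Fin N) ℤ_[p])ˣ) : Matrix (Fin N) (Fin N) ℤ_[p]) =
          1 + ((p : ℤ_[p]) ^ (e + k * l)) • (((z ^ (l : ℕ) : ℕ) : ℤ_[p]) •
            (Matrix.single b b' (1 : ℤ_[p]))) + ((p : ℤ_[p]) ^ (e + k * l + 1)) • b2 := by
        rw [← hb2, Subgroup.coe_pow, Units.val_pow_eq_pow_val, hx', Matrix.smul_single,
          smul_eq_mul, mul_one]
      have h5 := thetaEx_close (p := p) (N := N) (i := e + (k * l + 1))
        (u := (((T'.x (b, b') : cg ℤ_[p] N p e) ^ (p ^ (k * (l : ℕ)) * z ^ (l : ℕ)) :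
          cg ℤ_[p] N p e) : (Matrix (Fin N) (Fin N) ℤ_[p])ˣ)) (v := Y)
        ⟨c • Matrix.single b b' (1 : ℤ_[p]) - b2, by
          rw [h2, hY]
          ext i j
          simp only [Matrix.add_apply, Matrix.sub_apply, Matrix.smul_apply, smul_eq_mul,
            Matrix.single_apply]
          split_ifs with h6
          · have h7 : ζ ^ (l : ℕ) = (p : ℤ_[p]) * c + (z : ℤ_[p]) ^ (l : ℕ) := by
              rw [← hc]; ring
            rw [h7]
            push_cast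
            ring
          · ring⟩
      exact h5
  · intro w
    apply hθ
    apply hfg
    intro i j
    rw [specE_val, specE_val, Matrix.map_apply, Matrix.map_apply]
    unfold psi
    rw [RingHom.comp_apply, hev, thetaEx_ev_mk, Polynomial.coe_compRingHom_apply, eval_comp]
    congr 1
    simp

end Pool.Agent.IWA
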