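import Mathlib
import Pool.Agent.IWA.LimZp
import Pool.Agent.IWA.ThetaEx

/-!
# IWA / Near : specialisations near a given parameter (MP_05b873_al)

Paper proof. Let `D` be the formal congruence subgroups and `β` the limit of `nrk A (D j)`. Choose
`j₀` with `nrk A (D j₀) > β - 1` (if `β` is a natural number), and `M ≥ 1` with
`j₀ + e j₀ ≤ e M`. Take the towers `T` (on `cg (RM p M) N p e`, from `exists_good_RM`,
`exists_GLTower`) and `T'` (on `cg ℤ_p N p e`, from `exists_good_Zp`, `exists_GLTower`, reindexed to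
`Fin N × Fin N` by `UTower.reindex` and `Fin 1 × κ ≃ κ`). Let `a = specE h1 (psi_X e M μ₀)` and `r`
from `exists_rank_theta` for `A.map (hatHom T a)`. By `nrk_tower` the limit of
`nrk A (congSubM ρ e M μ₀ (e + J))` for `J → ∞` is `r`. For `e + J ≥ j₀ + e j₀` we have
`congSubM ρ e M μ₀ (e + J) ≤ D j₀` (`congSubM_le_formSub`), and this subgroup contains
`D (e + J)` (`formSub_le_congSubM`), so it is normal of `p`-power index and
`nrk A (D j₀) ≤ nrk A (congSubM ...)` by `nrk_mono`. Hence `r ≥ nrk A (D j₀) > β - 1`, so `r ≥ β`.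
Now apply the second part of `exists_rank_theta` with `ε = 1 / 2`: for `k ≥ k₀` (and `k ≥ e`, such
that `J = k M - e` makes sense, `J + e = k M`), `ζ` a unit, `z` a natural number congruent to `ζ`
modulo `p` (so `¬ p ∣ z`), `θ` from `exists_theta`: by `nrk_theta`,
`nrk A (congSub ρ (p ^ e (μ₀ + p ^ k ζ)) (e + J)) ≥ r - 1 / 2 ≥ β - 1 / 2`.
-/

namespace Pool.Agent.IWA

open Polynomial Filter Topology Pool.Agent.CIR

variable {p : ℕ} [Fact p.Prime] {G : Type} [Group G] {N : ℕ}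

private theorem near_mod (ζ : ℤ_[p]) (hζ : IsUnit ζ) :
    ∃ z : ℕ, (p : ℤ_[p]) ∣ ζ - z ∧ ¬ p ∣ z := by
  obtain ⟨z, -, hz⟩ := PadicInt.exists_mem_range (p := p) ζ
  rw [PadicInt.maximalIdeal_eq_span_p, Ideal.mem_span_singleton] at hz
  refine ⟨z, hz, fun h => ?_⟩
  have h1 : (p : ℤ_[p]) ∣ (z : ℤ_[p]) := by
    obtain ⟨c, hc⟩ := h
    exact ⟨(c : ℤ_[p]), by rw [hc]; push_cast; ring⟩
  have h2 : (p : ℤ_[p]) ∣ ζ := by
    have := dvd_add hz h1
    rwa [sub_add_cancel] at this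
  exact PadicInt.prime_p.not_unit (isUnit_of_dvd_unit h2 hζ)

theorem exists_near {ρ : G →* Matrix (Fin N) (Fin N) ℤ_[p][X]} (h1 : TrivMod ρ) {e : ℕ}
    (he3 : 3 ≤ p ^ e) (he : 1 ≤ e) (hN : 0 < N) (D : ℕ → Subgroup G)
    (hD : ∀ j g, g ∈ D j ↔ g ∈ formSub ρ j) (hn : ∀ j, (D j).Normal)
    (hf : ∀ j, (D j).FiniteIndex) (hp : ∀ j, ∃ a, (D j).index = p ^ a) (ha : Antitone D)
    {m n : ℕ} (A : Matrix (Fin m) (Fin n) (MonoidAlgebra (ZMod p) G)) (β : ℕ)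
    (hβ : Tendsto (fun j => nrk A (D j)) atTop (𝓝 (β : ℝ))) (μ₀ : ℤ_[p]) :
    ∃ k₀ : ℕ, ∀ k ≥ k₀, ∀ ζ : ℤ_[p], IsUnit ζ → ∃ K : ℕ, (β : ℝ) - 1 / 2 ≤
      nrk A (congSub ρ ((p : ℤ_[p]) ^ e * (μ₀ + (p : ℤ_[p]) ^ k * ζ)) K) := by
  classical
  -- the level `j₀`
  obtain ⟨j₀, hj₀⟩ : ∃ j₀, (β : ℝ) - 1 < nrk A (D j₀) := by
    have h := hβ.eventually (lt_mem_nhds (show (β : ℝ) - 1 < β by linarith))
    exact h.exists
  set M := j₀ + e * j₀ + 1 with hMdef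
  have hM : 0 < M := by omega
  have heM : j₀ + e * j₀ ≤ e * M := by
    calc j₀ + e * j₀ ≤ 1 * M := by omega
      _ ≤ e * M := Nat.mul_le_mul_right _ he
  -- the towers
  obtain ⟨GR, hGR⟩ := exists_good_RM p M
  obtain ⟨GT⟩ := exists_GLTower GR N e he3 he hM hN
  obtain ⟨GZ, hGZ⟩ := exists_good_Zp p
  obtain ⟨GT'⟩ := exists_GLTower GZ N e he3 he one_pos hN
  set T := GT.T with hT
  have hL : ∀ i, T.L i = (cg (RM p M) N p (e + i)).subgroupOf (cg (RM p M) N p e) := GT.hL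
  have hx : ∀ (l : Fin M) (j k : Fin N),
      (((T.x (l, j, k) : cg (RM p M) N p e) : (Matrix (Fin N) (Fin N) (RM p M))ˣ) :
        Matrix (Fin N) (Fin N) (RM p M)) = 1 + Matrix.single j k ((p : RM p M) ^ e *
          Ideal.Quotient.mk (Ideal.span {(X : ℤ_[p][X]) ^ M}) (X ^ (l : ℕ))) := by
    intro l j k
    rw [hT, GT.hx l j k, hGR]
  set T' : UTower p e (Fin N × Fin N) (cg ℤ_[p] N p e) :=
    GT'.T.reindex (Equiv.uniqueProd (Fin N × Fin N) (Fin 1)) with hT'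
  have hL' : ∀ i, T'.L i = (cg ℤ_[p] N p (e + i)).subgroupOf (cg ℤ_[p] N p e) :=
    fun i => GT'.hL i
  have hx' : ∀ j k : Fin N, (((T'.x (j, k) : cg ℤ_[p] N p e) : (Matrix (Fin N) (Fin N) ℤ_[p])ˣ) :
        Matrix (Fin N) (Fin N) ℤ_[p]) = 1 + Matrix.single j k ((p : ℤ_[p]) ^ e) := by
    intro j k
    have h := GT'.hx default j k
    rw [hGZ, mul_one] at h
    exact h
  -- the first specialisation
  set a := specE h1 (psi_X e M μ₀) with ha'
  obtain ⟨r, hr1, hr2⟩ := exists_rank_theta T T' (A.map (hatHom T a))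
  have hDa : ∀ J g, g ∈ congSubM ρ e M μ₀ (e + J) ↔ a g ∈ T.L J := by
    intro J g
    rw [hL J, Subgroup.mem_subgroupOf]
    rfl
  have hcomap : ∀ J, congSubM ρ e M μ₀ (e + J) = (T.L J).comap a := by
    intro J
    ext g
    rw [hDa J g, Subgroup.mem_comap]
  have hlim : Tendsto (fun J => nrk A (congSubM ρ e M μ₀ (e + J))) atTop (𝓝 (r : ℝ)) := by
    refine hr1.congr fun J => ?_
    exact (nrk_tower T a J _ (hDa J) A).symm
  have hge : ∀ᶠ J in atTop, nrk A (D j₀) ≤ nrk A (congSubM ρ e M μ₀ (e + J)) := by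
    filter_upwards [Filter.eventually_ge_atTop (j₀ + e * j₀)] with J hJ
    have hle : congSubM ρ e M μ₀ (e + J) ≤ D j₀ := by
      intro g hg
      rw [hD]
      exact congSubM_le_formSub ρ he M μ₀ (e + J) j₀ (by omega) heM hg
    have hle2 : D (e + J) ≤ congSubM ρ e M μ₀ (e + J) := by
      intro g hg
      rw [hD] at hg
      exact formSub_le_congSubM ρ he M μ₀ (e + J) hg
    have hnorm : (congSubM ρ e M μ₀ (e + J)).Normal := by
      rw [hcomap J]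
      exact (T.normal J).comap a
    have hfin : (congSubM ρ e M μ₀ (e + J)).FiniteIndex := by
      have := hf (e + J)
      exact Subgroup.finiteIndex_of_le hle2
    obtain ⟨b, hb⟩ := hp (e + J)
    have hdvd : (congSubM ρ e M μ₀ (e + J)).relIndex (D j₀) ∣ p ^ b := by
      rw [← hb]
      refine dvd_trans ?_ (Subgroup.index_dvd_of_le hle2)
      exact ⟨(D j₀).index, (Subgroup.relIndex_mul_index hle).symm⟩
    obtain ⟨c, -, hc⟩ := (Nat.dvd_prime_pow (Fact.out : p.Prime)).1 hdvd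
    exact nrk_mono p A _ _ hle hnorm hfin c hc
  have hβr : (β : ℝ) ≤ r := by
    have h2 : nrk A (D j₀) ≤ r := ge_of_tendsto hlim hge
    have h3 : (β : ℝ) < (r : ℝ) + 1 := by linarith
    have h4 : β < r + 1 := by exact_mod_cast h3
    exact_mod_cast Nat.lt_succ_iff.1 h4
  -- the specialisations near `μ₀`
  obtain ⟨k₀, hk₀⟩ := hr2 (1 / 2) (by norm_num)
  refine ⟨max k₀ e, fun k hk ζ hζ => ?_⟩
  obtain ⟨z, hz, hpz⟩ := near_mod ζ hζ
  have hke : e ≤ k := le_trans (le_max_right _ _) hk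
  have hkM : k ≤ k * M := Nat.le_mul_of_pos_right k hM
  obtain ⟨J, hJ⟩ : ∃ J, J + e = k * M := ⟨k * M - e, by omega⟩
  obtain ⟨θ, hθ, hcomp⟩ := exists_theta h1 he3 he hM T hL hx T' hL' hx' μ₀ ζ k z J hz hJ
  refine ⟨e + J, ?_⟩
  have hD' : ∀ g, g ∈ congSub ρ ((p : ℤ_[p]) ^ e * (μ₀ + (p : ℤ_[p]) ^ k * ζ)) (e + J) ↔
      specE h1 (eval_X e (μ₀ + (p : ℤ_[p]) ^ k * ζ)) g ∈ T'.L J := by
    intro g
    rw [hL' J, Subgroup.mem_subgroupOf]
    rfl
  have hn1 := nrk_theta T T' J θ hθ.ker a (specE h1 (eval_X e (μ₀ + (p : ℤ_[p]) ^ k * ζ))) hcomp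
    (congSub ρ ((p : ℤ_[p]) ^ e * (μ₀ + (p : ℤ_[p]) ^ k * ζ)) (e + J)) hD' A
  rw [hn1]
  have hk1 := hk₀ k (le_trans (le_max_left _ _) hk) J z hJ.ge hpz θ hθ
  have hpp : (0 : ℝ) < (p : ℝ) ^ (J * Fintype.card (Fin N × Fin N)) := by
    have : (0 : ℝ) < p := by exact_mod_cast (Fact.out : p.Prime).pos
    positivity
  rw [le_div_iff₀ hpp]
  refine le_trans (mul_le_mul_of_nonneg_right ?_ hpp.le) hk1
  linarith

end Pool.Agent.IWA
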