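import Mathlib
import Pool.Agent.IWA.Near
import Pool.Agent.IWA.FormRok

/-!
# IWA / Final : generic members of families of `p`-adic analytic chains (MP_05b873_al)

Paper proof. `finite_exceptional`: let `S` be the set of all `μ` for which the limit of
`nrk A (congSub ...)` is not `β`. If `S` is infinite, it has an accumulation point `μ₀` in the
compact space `ℤ_p`: for every `k₀` there is `μ ∈ S`, `μ ≠ μ₀`, with `μ = μ₀ + p ^ k ζ`, `ζ` a unit,
`k ≥ k₀` (valuation of `μ - μ₀`, `PadicInt.unitCoeff`). By `exists_near`,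
`nrk A (congSub ... K) ≥ β - 1 / 2` for some `K`, so the limit `r(μ) ∈ ℕ` (`exists_lim_Zp`) is at
least `β - 1 / 2` by monotonicity (`nrk_congSub_mono`), hence `≥ β`. On the other hand
`nrk A (congSub ... k) ≤ β` by `nrk_le_formal` and `formSub_le_congSub`, so `r(μ) ≤ β`.
Contradiction.

`finite_exceptional_nbetti`: `exists_rank_formula` (see the proof of `tendsto_nbetti_rok` in
`Pool/Agent/CIR/RokSeq.lean`): the limit of `nbetti` is `c - β(M) - β(M')` both for all Rokhlin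
sequences and for `μ` outside of the two finite sets belonging to `M` and `M'`.
-/

namespace Pool.Agent.IWA

open Polynomial Filter Topology Pool.Agent.CIR

variable {p : ℕ} [Fact p.Prime] {G : Type} [Group G] {N : ℕ}

private theorem Final_unit {μ μ₀ : ℤ_[p]} {k₀ : ℕ} (hne : μ ≠ μ₀)
    (hU : μ ∈ Metric.ball μ₀ ((p : ℝ) ^ (-(k₀ : ℤ)))) :
    ∃ (k : ℕ) (ζ : ℤ_[p]), k₀ ≤ k ∧ IsUnit ζ ∧ μ = μ₀ + (p : ℤ_[p]) ^ k * ζ := by
  have hx : μ - μ₀ ≠ 0 := sub_ne_zero.2 hne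
  refine ⟨(μ - μ₀).valuation, PadicInt.unitCoeff hx, ?_, Units.isUnit _, ?_⟩
  · rw [Metric.mem_ball, dist_eq_norm, PadicInt.norm_eq_zpow_neg_valuation hx] at hU
    have h1 : (1 : ℝ) < p := by exact_mod_cast (Fact.out : p.Prime).one_lt
    have h2 := (zpow_lt_zpow_iff_right₀ h1).1 hU
    omega
  · have h := PadicInt.unitCoeff_spec hx
    rw [mul_comm, ← h]
    ring

theorem finite_exceptional {ρ : G →* Matrix (Fin N) (Fin N) ℤ_[p][X]} (h1 : TrivMod ρ)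
    (hinj : Function.Injective ρ) {e : ℕ} (he3 : 3 ≤ p ^ e) (he : 1 ≤ e) (hN : 0 < N)
    {m n : ℕ} (A : Matrix (Fin m) (Fin n) (MonoidAlgebra (ZMod p) G)) (β : ℕ)
    (hβ : ∀ Δ : ℕ → Subgroup G, (∀ k, (Δ k).FiniteIndex) → RokSeq Δ →
      Tendsto (fun k => nrk A (Δ k)) atTop (𝓝 (β : ℝ))) :
    {μ : ℤ_[p] | ¬ Tendsto (fun k => nrk A (congSub ρ ((p : ℤ_[p]) ^ e * μ) k)) atTop
      (𝓝 (β : ℝ))}.Finite := by
  by_contra hinf
  obtain ⟨μ₀, hμ₀⟩ := Set.Infinite.exists_accPt_principal hinf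
  obtain ⟨D, hD, hn, hf, hp, ha⟩ := exists_formal ρ h1
  have hβD := hβ D hf (rokSeq_formal ρ h1 hinj D hD hn hf)
  obtain ⟨k₀, hk₀⟩ := exists_near h1 he3 he hN D hD hn hf hp ha A β hβD μ₀
  rw [accPt_iff_nhds] at hμ₀
  obtain ⟨μ, ⟨hμU, hμS⟩, hne⟩ := hμ₀ (Metric.ball μ₀ ((p : ℝ) ^ (-(k₀ : ℤ))))
    (Metric.ball_mem_nhds _ (zpow_pos (by exact_mod_cast (Fact.out : p.Prime).pos) _))
  obtain ⟨k, ζ, hk, hζ, hμ⟩ := Final_unit hne hμU
  obtain ⟨K, hK⟩ := hk₀ k hk ζ hζ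
  rw [← hμ] at hK
  obtain ⟨r, hr⟩ := exists_lim_Zp h1 he3 he hN μ A
  have h3 : nrk A (congSub ρ ((p : ℤ_[p]) ^ e * μ) K) ≤ r :=
    (nrk_congSub_mono ρ h1 he μ A).ge_of_tendsto hr K
  have h4 : (r : ℝ) ≤ β := by
    refine le_of_tendsto' hr fun k => ?_
    have h5 := nrk_le_formal D hn hf hp ha A β hβD (congSub ρ ((p : ℤ_[p]) ^ e * μ) k) k
      (fun g hg => formSub_le_congSub ρ he μ k ((hD k g).1 hg))
    exact h5.1.trans h5.2
  have h6 : r ≤ β := by exact_mod_cast h4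
  have h7 : β ≤ r := by
    have h8 : (β : ℝ) < r + 1 := by linarith
    have h9 : β < r + 1 := by exact_mod_cast h8
    omega
  have h10 : r = β := le_antisymm h6 h7
  rw [h10] at hr
  exact hμS hr

theorem finite_exceptional_nbetti {ρ : G →* Matrix (Fin N) (Fin N) ℤ_[p][X]} (h1 : TrivMod ρ)
    (hinj : Function.Injective ρ) {e : ℕ} (he3 : 3 ≤ p ^ e) (he : 1 ≤ e) (hN : 0 < N) (n : ℕ)
    (hP : FPres (ZMod p) G (n + 1)) :
    ∃ β : ℕ, (∀ Δ : ℕ → Subgroup G, (∀ k, (Δ k).FiniteIndex) → RokSeq Δ →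
      Tendsto (fun k => nbetti (ZMod p) n (Δ k)) atTop (𝓝 (β : ℝ))) ∧
    {μ : ℤ_[p] | ¬ Tendsto (fun k => nbetti (ZMod p) n (congSub ρ ((p : ℤ_[p]) ^ e * μ) k)) atTop
      (𝓝 (β : ℝ))}.Finite := by
  classical
  obtain ⟨c, a, a', M, M', hM⟩ := exists_rank_formula n hP
  obtain ⟨r, hr⟩ := tendsto_nrk_all M
  obtain ⟨r', hr'⟩ := tendsto_nrk_all M'
  have key : ∀ Δ : ℕ → Subgroup G, (∀ k, (Δ k).FiniteIndex) →
      Tendsto (fun k => nrk M (Δ k)) atTop (𝓝 (r : ℝ)) →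
      Tendsto (fun k => nrk M' (Δ k)) atTop (𝓝 (r' : ℝ)) →
      Tendsto (fun k => nbetti (ZMod p) n (Δ k)) atTop (𝓝 ((c : ℝ) - r - r')) := by
    intro Δ hf hc hc'
    have h1 := ((tendsto_const_nhds (x := (c : ℝ)) (f := atTop (α := ℕ))).sub hc).sub hc'
    refine h1.congr (fun k => ?_)
    unfold nbetti nrk
    have h2 := hM (Δ k) (hf k)
    have h3 : ((Δ k).index : ℝ) ≠ 0 := by
      exact_mod_cast (hf k).index_ne_zero
    have h4 : (Module.finrank (ZMod p) (groupHomology (Rep.trivial (ZMod p) (Δ k) (ZMod p)) n) :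
        ℝ) + rkX (G ⧸ Δ k) M + rkX (G ⧸ Δ k) M' = c * (Δ k).index := by exact_mod_cast h2
    field_simp
    linarith
  obtain ⟨D, hD, hDn, hDf, hDp, hDa⟩ := exists_formal ρ h1
  have hrok := rokSeq_formal ρ h1 hinj D hD hDn hDf
  have h2 : (0 : ℝ) ≤ (c : ℝ) - r - r' := by
    refine ge_of_tendsto' (key D hDf (hr D hDf hrok) (hr' D hDf hrok)) (fun k => ?_)
    unfold nbetti; positivity
  have h3 : ((c - r - r' : ℕ) : ℝ) = (c : ℝ) - r - r' := by
    have h3 : r + r' ≤ c := by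
      have : (r : ℝ) + r' ≤ c := by linarith
      exact_mod_cast this
    rw [Nat.sub_sub, Nat.cast_sub h3]; push_cast; ring
  refine ⟨c - r - r', fun Δ hf hΔ => ?_, ?_⟩
  · rw [h3]
    exact key Δ hf (hr Δ hf hΔ) (hr' Δ hf hΔ)
  · refine ((finite_exceptional h1 hinj he3 he hN M r hr).union
      (finite_exceptional h1 hinj he3 he hN M' r' hr')).subset ?_
    intro μ hμ
    by_contra hcon
    rw [Set.mem_union, not_or] at hcon
    obtain ⟨hc1, hc2⟩ := hcon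
    rw [Set.mem_ofPred_eq, not_not] at hc1 hc2
    apply hμ
    rw [h3]
    exact key (congSub ρ ((p : ℤ_[p]) ^ e * μ)) (congSub_finiteIndex ρ h1 he μ) hc1 hc2

end Pool.Agent.IWA
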